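import Pool.Agent.Helper3.JG.Defs

/-!
# Jigsaw tiles on a lattice: definitions for disk-shaped repeating units
-/

namespace Pool.H3JG

open Set

variable {n : ℕ}

/-- The representatives: the cell `0` and its neighbour in direction `d`. -/
def rep (dir : ZMod n → Z2) (d : ZMod n) {m : ℕ} (i : Fin m) : Z2 := if i.val = 0 then 0 else dir d

/-- There is a labelling all of whose contacts are allowed, such that the cell `0`, or the cell `0`
and its neighbour in direction `d`, form a system of representatives of the cells under the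
symmetries of the labelling. -/
def GoodD (h : ZMod n) (mat : Lab n → Mat) (dir : ZMod n → Z2)
    (R : ZMod n → ZMod n → Bool → Prop) : Prop :=
  ∃ g : Z2 → Lab n, (∀ z d, Con h R d (g z) (g (z + dir d))) ∧
    ∃ m : ℕ, 1 ≤ m ∧ m ≤ 2 ∧ ∃ d : ZMod n,
      (∀ w, ∃ z a, ∃ i : Fin m, IsSymR mat g z a ∧ mvR mat z a (rep dir d i) = w) ∧
      (∀ (i j : Fin m) (z : Z2) (a : Lab n), IsSymR mat g z a →
        mvR mat z a (rep dir d i) = rep dir d j → i = j)

/-- The copies `a i '' T` have pairwise disjoint interiors and their union `P` is the prototile of a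
tiling of the plane by congruent copies of `P` the symmetry group of which is transitive on the
copies of `P`. -/
def IsRepeating (T : Set E) {m : ℕ} (a : Fin m → (E ≃ᵢ E)) : Prop :=
  Pairwise (fun i j => Disjoint (interior (a i '' T)) (interior (a j '' T))) ∧
  ∃ 𝒯 : Set (Set E),
    (∀ A ∈ 𝒯, ∃ f : E ≃ᵢ E, A = f '' (⋃ i, a i '' T)) ∧
    ⋃₀ 𝒯 = univ ∧
    𝒯.Pairwise (fun A B => Disjoint (interior A) (interior B)) ∧
    ∀ A ∈ 𝒯, ∀ B ∈ 𝒯, ∃ f : E ≃ᵢ E, Set.image (fun C : Set E => f '' C) 𝒯 = 𝒯 ∧ f '' A = B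

/-- The points whose two nearest points of `Λ` are `0` and `w`, all others being strictly farther. -/
def Cell (Λ : Set E) (w : E) : Set E :=
  {p | ∀ u ∈ Λ, u ≠ 0 → u ≠ w → ‖p‖ < ‖p - u‖ ∧ ‖p - w‖ < ‖p - u‖}

/-- The Voronoi cell of `0`: a square or a regular hexagon for the two lattices. -/
def Vor (Λ : Set E) : Set E := {p | ∀ u ∈ Λ, ‖p‖ ≤ ‖p - u‖}

/-- `T` is a jigsaw deformation of the Voronoi cell: the image of the Voronoi cell under a
homeomorphism of the plane which maps each cell `Cell Λ w` into itself and fixes all points outside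
these cells. -/
def IsJigsaw (Λ T : Set E) : Prop :=
  ∃ ψ : E ≃ₜ E, (∀ p, (∀ w ∈ Λ, w ≠ 0 → p ∉ Cell Λ w) → ψ p = p) ∧
    (∀ w ∈ Λ, w ≠ 0 → ∀ p ∈ Cell Λ w, ψ p ∈ Cell Λ w) ∧ T = ψ '' Vor Λ

/-- Square around the origin. -/
def sqQ : Set V := {p | |p.1| ≤ 1 / 2 ∧ |p.2| ≤ 1 / 2}

/-- Regular hexagon around the origin, in lattice coordinates. -/
def hexQ : Set V := {p | |p.1 + 2 * p.2| ≤ 1 ∧ |p.1 - p.2| ≤ 1 ∧ |2 * p.1 + p.2| ≤ 1}

end Pool.H3JG
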