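import Pool.Agent.Helper3.JG.Assemble
import Pool.Agent.Helper3.JD.DefsD

/-!
# Jigsaw tiles on a lattice: from a good matching relation to a repeating unit, with representatives

The proof is the proof of `repUnit_of_good` in `JG/Assemble.lean` (copy the private lemmas), with
`c i` replaced by `rep G.dir d i` and with the data kept in the statement.
-/

namespace Pool.H3JG

open Set

variable {n : ℕ}

private theorem AssembleD_shrink {X ι : Type*} [TopologicalSpace X] (A : ι → Set X)
    (hA : ∀ i, IsClosed (A i)) (s : Finset ι) {O : Set X} (hO : IsOpen O) (hne : O.Nonempty)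
    (h : ∀ i ∈ s, ¬ (O ∩ interior (A i)).Nonempty) :
    ∃ O' : Set X, IsOpen O' ∧ O'.Nonempty ∧ O' ⊆ O ∧ ∀ i ∈ s, Disjoint O' (A i) := by
  classical
  induction s using Finset.induction_on with
  | empty => exact ⟨O, hO, hne, Subset.rfl, by simp⟩
  | insert i s _ ih =>
    obtain ⟨O', h1, h2, h3, h4⟩ := ih fun j hj => h j (Finset.mem_insert_of_mem hj)
    refine ⟨O' \ A i, h1.sdiff (hA i), ?_, fun x hx => h3 hx.1, ?_⟩
    · by_contra hcon
      rw [not_nonempty_iff_eq_empty, sdiff_eq_empty] at hcon
      obtain ⟨x, hx⟩ := h2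
      exact h i (Finset.mem_insert_self i s) ⟨x, h3 hx, interior_maximal hcon h1 hx⟩
    · intro j hj
      rcases Finset.mem_insert.1 hj with rfl | hj
      · exact disjoint_sdiff_left
      · exact (h4 j hj).mono_left sdiff_subset

private theorem AssembleD_meet {X ι : Type*} [TopologicalSpace X] [Fintype ι] (A : ι → Set X)
    (hA : ∀ i, IsClosed (A i)) {O : Set X} (hO : IsOpen O) (hne : O.Nonempty)
    (h : O ⊆ ⋃ i, A i) : ∃ i, (O ∩ interior (A i)).Nonempty := by
  by_contra hcon
  push Not at hcon
  obtain ⟨O', -, ⟨x, hx⟩, h3, h4⟩ := AssembleD_shrink A hA Finset.univ hO hne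
    (fun i _ => by rw [hcon i]; exact not_nonempty_empty)
  obtain ⟨i, hi⟩ := mem_iUnion.1 (h (h3 hx))
  exact disjoint_left.1 (h4 i (Finset.mem_univ i)) hx hi

private theorem AssembleD_disj {X ι κ : Type*} [TopologicalSpace X] [Fintype ι] [Fintype κ]
    (A : ι → Set X) (B : κ → Set X) (hA : ∀ i, IsClosed (A i)) (hB : ∀ i, IsClosed (B i))
    (h : ∀ i j, Disjoint (interior (A i)) (interior (B j))) :
    Disjoint (interior (⋃ i, A i)) (interior (⋃ j, B j)) := by
  rw [disjoint_iff_inter_eq_empty, ← not_nonempty_iff_eq_empty]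
  intro hne
  obtain ⟨i, hi⟩ := AssembleD_meet A hA (isOpen_interior.inter isOpen_interior) hne
    (fun x hx => interior_subset hx.1)
  obtain ⟨j, x, hx, hj⟩ := AssembleD_meet B hB
    ((isOpen_interior.inter isOpen_interior).inter isOpen_interior) hi
    (fun x hx => interior_subset hx.1.2)
  exact disjoint_left.1 (h i j) hx.2 hj

namespace Grid

variable (G : Grid n)

private theorem AssembleD_mv_mv (z w v : Z2) (a b : Lab n) :
    mvR G.mat (mvR G.mat z a w) (lmul a b) v = mvR G.mat z a (mvR G.mat w b v) := by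
  unfold mvR
  rw [G.mat_mul, Mat.apZ_mul, Mat.apZ_add, add_assoc]

private theorem AssembleD_inv_mv (z w : Z2) (a : Lab n) :
    mvR G.mat (-((G.mat (linv a)).apZ z)) (linv a) (mvR G.mat z a w) = w := by
  unfold mvR
  rw [Mat.apZ_add, G.apZ_linv_apZ, neg_add_cancel_left]

private theorem AssembleD_mv_inv (z w : Z2) (a : Lab n) :
    mvR G.mat z a (mvR G.mat (-((G.mat (linv a)).apZ z)) (linv a) w) = w := by
  unfold mvR
  rw [Mat.apZ_add, Mat.apZ_neg, G.apZ_apZ_linv, G.apZ_apZ_linv, add_neg_cancel_left]

private theorem AssembleD_sym_comp {g : Z2 → Lab n} {z w : Z2} {a b : Lab n}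
    (h1 : IsSymR G.mat g z a) (h2 : IsSymR G.mat g w b) :
    IsSymR G.mat g (mvR G.mat z a w) (lmul a b) := by
  intro v
  rw [AssembleD_mv_mv, h1, h2, lmul_assoc']

private theorem AssembleD_sym_inv {g : Z2 → Lab n} {z : Z2} {a : Lab n}
    (h1 : IsSymR G.mat g z a) :
    IsSymR G.mat g (-((G.mat (linv a)).apZ z)) (linv a) := by
  intro v
  have h := h1 (mvR G.mat (-((G.mat (linv a)).apZ z)) (linv a) v)
  rw [AssembleD_mv_inv] at h
  rw [h, ← lmul_assoc', linv_lmul, one_lmul]

private theorem AssembleD_sym_one (g : Z2 → Lab n) : IsSymR G.mat g 0 (0, false) := by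
  intro v
  unfold mvR
  rw [G.mat_one, Mat.apZ_one, zero_add, one_lmul]

end Grid

private theorem AssembleD_iso_comp {G : Grid n} (re : Realiz G) (z w : Z2) (a b : Lab n) (x : E) :
    re.iso (mvR G.mat z a w) (lmul a b) x = re.iso z a (re.iso w b x) := by
  obtain ⟨p, rfl⟩ := re.F.surjective x
  rw [re.iso_F, re.iso_F, re.iso_F, G.pl_pl]

private theorem AssembleD_iso_inv {G : Grid n} (re : Realiz G) (z : Z2) (a : Lab n) (x : E) :
    re.iso (-((G.mat (linv a)).apZ z)) (linv a) x = (re.iso z a).symm x := by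
  rw [IsometryEquiv.eq_symm_apply, ← AssembleD_iso_comp]
  obtain ⟨p, rfl⟩ := re.F.surjective x
  rw [re.iso_F, lmul_linv, G.pl_one]
  congr 1
  have h : mvR G.mat z a (-((G.mat (linv a)).apZ z)) = 0 := by
    have := G.AssembleD_mv_inv z 0 a
    rw [show mvR G.mat (-((G.mat (linv a)).apZ z)) (linv a) 0 = -((G.mat (linv a)).apZ z) from by
      unfold mvR; rw [Mat.apZ_zero, add_zero]] at this
    exact this
  rw [h, toV_zero, zero_add]

private theorem AssembleD_iso_image {G : Grid n} (re : Realiz G) (z : Z2) (a : Lab n)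
    (X : Set V) : re.iso z a '' (re.F '' X) = re.F '' (G.pl z a '' X) := by
  rw [image_image, image_image]
  exact image_congr fun p _ => re.iso_F z a p

theorem repeating_of_good {G : Grid n} (re : Realiz G) {T : Set V} (hT : IsClosed T)
    (hB : T ⊆ G.B) (hgood : GoodD G.h G.mat G.dir (G.rel T)) :
    ∃ g : Z2 → Lab n, (∀ z d, G.FitAt T d (g z) (g (z + G.dir d))) ∧
      ∃ m : ℕ, 1 ≤ m ∧ m ≤ 2 ∧ ∃ d : ZMod n,
        IsRepeating (re.F '' T)
          (fun i : Fin m => re.iso (rep G.dir d i) (g (rep G.dir d i))) := by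
  obtain ⟨g, hcon, m, hm1, hm2, d, hcov, hdis⟩ := hgood
  obtain ⟨c, hc0⟩ : ∃ c : Fin m → Z2, c = fun i => rep G.dir d i := ⟨_, rfl⟩
  replace hcov : ∀ w, ∃ z a, ∃ i : Fin m, IsSymR G.mat g z a ∧ mvR G.mat z a (c i) = w := by
    rw [hc0]; exact hcov
  replace hdis : ∀ (i j : Fin m) (z : Z2) (a : Lab n), IsSymR G.mat g z a →
      mvR G.mat z a (c i) = c j → i = j := by
    rw [hc0]; exact hdis
  have hfit : ∀ z d, G.FitAt T d (g z) (g (z + G.dir d)) := fun z d =>
    (G.fitAt_iff T d _ _).2 (hcon z d)
  obtain ⟨htcov, htdis⟩ := G.tiles_of_fitAt hT hB hfit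
  refine ⟨g, hfit, m, hm1, hm2, d, ?_⟩
  suffices hrep : IsRepeating (re.F '' T) (fun i : Fin m => re.iso (c i) (g (c i))) by
    rw [hc0] at hrep; exact hrep
  refine ⟨?_, ?_⟩
  · intro i j hij
    have hc : c i ≠ c j := by
      intro h
      apply hij
      refine hdis i j 0 (0, false) (G.AssembleD_sym_one g) ?_
      unfold mvR
      rw [G.mat_one, Mat.apZ_one, zero_add, h]
    show Disjoint (interior (re.iso (c i) (g (c i)) '' (re.F '' T)))
      (interior (re.iso (c j) (g (c j)) '' (re.F '' T)))
    rw [AssembleD_iso_image, AssembleD_iso_image, ← re.F.image_interior, ← re.F.image_interior,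
      disjoint_image_iff re.F.injective]
    exact htdis _ _ hc
  · set P : Set E := ⋃ i, re.iso (c i) (g (c i)) '' (re.F '' T) with hP
    -- the copies of `P`
    let Q : Z2 → Lab n → Set V := fun z b =>
      ⋃ i, G.tile T (mvR G.mat z b (c i)) (g (mvR G.mat z b (c i)))
    have hQ : ∀ z b, IsSymR G.mat g z b → re.iso z b '' P = re.F '' Q z b := by
      intro z b hs
      show _ = re.F '' (⋃ i, _)
      rw [hP, image_iUnion, image_iUnion]
      refine iUnion_congr fun i => ?_
      rw [AssembleD_iso_image, AssembleD_iso_image, hs (c i)]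
      congr 1
      exact G.pl_tile T z (c i) b (g (c i))
    refine ⟨{A | ∃ z b, IsSymR G.mat g z b ∧ A = re.iso z b '' P}, ?_, ?_, ?_, ?_⟩
    · rintro A ⟨z, b, _, rfl⟩
      exact ⟨re.iso z b, rfl⟩
    · rw [eq_univ_iff_forall]
      intro x
      obtain ⟨p, rfl⟩ := re.F.surjective x
      obtain ⟨w, hw⟩ := htcov p
      obtain ⟨z, b, i, hs, rfl⟩ := hcov w
      refine ⟨re.iso z b '' P, ⟨z, b, hs, rfl⟩, ?_⟩
      rw [hQ z b hs]
      exact ⟨p, mem_iUnion.2 ⟨i, hw⟩, rfl⟩
    · rintro A ⟨z, b, hs, rfl⟩ B ⟨z', b', hs', rfl⟩ hne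
      rw [hQ z b hs, hQ z' b' hs', ← re.F.image_interior, ← re.F.image_interior,
        disjoint_image_iff re.F.injective]
      refine AssembleD_disj _ _ (fun i => ?_) (fun i => ?_) fun i j => htdis _ _ ?_
      · exact (G.plH (mvR G.mat z b (c i)) (g (mvR G.mat z b (c i)))).isClosedMap _ hT
      · exact (G.plH (mvR G.mat z' b' (c i)) (g (mvR G.mat z' b' (c i)))).isClosedMap _ hT
      · intro heq
        apply hne
        have hcomp := G.AssembleD_sym_comp (G.AssembleD_sym_inv hs') hs
        have h1 : mvR G.mat (mvR G.mat (-((G.mat (linv b')).apZ z')) (linv b') z)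
            (lmul (linv b') b) (c i) = c j := by
          rw [G.AssembleD_mv_mv, heq, G.AssembleD_inv_mv]
        have hij := hdis i j _ _ hcomp h1
        subst hij
        have h2 : lmul b (g (c i)) = lmul b' (g (c i)) := by
          rw [← hs (c i), ← hs' (c i), heq]
        have h3 : b = b' := by
          have := congrArg (fun t => lmul t (linv (g (c i)))) h2
          simpa only [lmul_assoc', lmul_linv, lmul_one] using this
        subst h3
        have h4 : z = z' := by
          unfold mvR at heq
          exact add_right_cancel heq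
        rw [h4]
    · rintro A ⟨z, b, hs, rfl⟩ B ⟨z', b', hs', rfl⟩
      have key : ∀ (z z' w : Z2) (b b' e : Lab n),
          (re.iso z' b') '' ((re.iso z b).symm '' (re.iso w e '' P)) =
            re.iso (mvR G.mat z' b' (mvR G.mat (-((G.mat (linv b)).apZ z)) (linv b) w))
              (lmul b' (lmul (linv b) e)) '' P := by
        intro z z' w b b' e
        rw [image_image, image_image]
        refine image_congr fun x _ => ?_
        rw [AssembleD_iso_comp, AssembleD_iso_comp, AssembleD_iso_inv]
      refine ⟨(re.iso z b).symm.trans (re.iso z' b'), ?_, ?_⟩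
      · have htr : ∀ C : Set E, ⇑((re.iso z b).symm.trans (re.iso z' b')) '' C =
            (re.iso z' b') '' ((re.iso z b).symm '' C) := by
          intro C
          rw [image_image]
          rfl
        apply Subset.antisymm
        · rintro _ ⟨_, ⟨w, e, hw, rfl⟩, rfl⟩
          refine ⟨_, _, G.AssembleD_sym_comp hs' (G.AssembleD_sym_comp (G.AssembleD_sym_inv hs) hw), ?_⟩
          show ⇑((re.iso z b).symm.trans (re.iso z' b')) '' (re.iso w e '' P) = _
          rw [htr, key]
        · rintro _ ⟨w, e, hw, rfl⟩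
          refine ⟨re.iso z b '' ((re.iso z' b').symm '' (re.iso w e '' P)), ?_, ?_⟩
          · rw [key]
            exact ⟨_, _, G.AssembleD_sym_comp hs
              (G.AssembleD_sym_comp (G.AssembleD_sym_inv hs') hw), rfl⟩
          · show ⇑((re.iso z b).symm.trans (re.iso z' b')) ''
              (re.iso z b '' ((re.iso z' b').symm '' (re.iso w e '' P))) = _
            rw [htr, image_image, image_image, image_image]
            have hid : (fun x => (re.iso z' b') ((re.iso z b).symm ((re.iso z b)
                ((re.iso z' b').symm x)))) = id := by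
              funext x
              rw [IsometryEquiv.symm_apply_apply, IsometryEquiv.apply_symm_apply]
              rfl
            rw [hid, image_id]
      · rw [image_image]
        refine image_congr fun x _ => ?_
        show re.iso z' b' ((re.iso z b).symm (re.iso z b x)) = _
        rw [IsometryEquiv.symm_apply_apply]


end Pool.H3JG
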