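import Pool.Agent.Helper3.JG.RealHex
import Pool.Agent.Helper3.JD.DefsD

/-!
# Jigsaw tiles on a lattice: Voronoi cell and order two cells of the hexagonal lattice

In lattice coordinates the squared norm is `x^2 + x y + y^2`, twice the inner product of `p` and
`u = (a, b)` is `(2x + y) a + (x + 2y) b`. With `α = x + 2y`, `β = x - y`, `γ = α + β`.

`hex_cell2` for `e = 0` (transport
with the matrices, `RealHex_inv`): `p ∈ U0` iff `0 and (1,0)` are strictly nearer than the lattice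
points `(0,1), (1,-1), (-1,1), (-1,0), (0,-1), (2,-1), (1,1), (2,0)`; for a general
`u = (a, b) ∉ {0, (1,0)}` and `0 < α, β < 1`: `a^2 + a b + b^2 > γ a + α b` (check the four corners of
the parallelogram, the inequality is affine in `(α, β)`, with non-strict inequalities at the corners
that are not all equalities).
-/

namespace Pool.H3JG

open Set

theorem CellHex_lt (p q : V) : ‖hexF p‖ < ‖hexF q‖ ↔
    p.1 ^ 2 + p.1 * p.2 + p.2 ^ 2 < q.1 ^ 2 + q.1 * q.2 + q.2 ^ 2 := by
  rw [← sq_lt_sq₀ (norm_nonneg _) (norm_nonneg _), RealHex_sq, RealHex_sq]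

theorem CellHex_le (p q : V) : ‖hexF p‖ ≤ ‖hexF q‖ ↔
    p.1 ^ 2 + p.1 * p.2 + p.2 ^ 2 ≤ q.1 ^ 2 + q.1 * q.2 + q.2 ^ 2 := by
  rw [← sq_le_sq₀ (norm_nonneg _) (norm_nonneg _), RealHex_sq, RealHex_sq]

/-- an affine function on the unit interval -/
theorem CellHex_aff (t : ℝ) (h0 : 0 < t) (h1 : t < 1) (s : ℤ) :
    t * s ≤ max 0 (s : ℝ) ∧ (s ≠ 0 → t * s < max 0 (s : ℝ)) := by
  rcases lt_trichotomy s 0 with h | h | h
  · have h' : (s : ℝ) < 0 := by exact_mod_cast h
    have h2 : t * s < max 0 (s : ℝ) := lt_max_of_lt_left (mul_neg_of_pos_of_neg h0 h')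
    exact ⟨h2.le, fun _ => h2⟩
  · subst h
    simp
  · have h' : (0 : ℝ) < s := by exact_mod_cast h
    have h2 : t * s < max 0 (s : ℝ) := lt_max_of_lt_right (by nlinarith)
    exact ⟨h2.le, fun _ => h2⟩

theorem CellHex_int1 (s a : ℤ) (h : ¬ (s = 1 ∧ a = 1)) :
    max 0 s + max 0 a ≤ s ^ 2 - s * a + a ^ 2 := by
  rcases le_or_gt s 0 with h1 | h1 <;> rcases le_or_gt a 0 with h2 | h2
  · rw [max_eq_left h1, max_eq_left h2]
    nlinarith [sq_nonneg (s - a), mul_nonneg_of_nonpos_of_nonpos h1 h2]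
  · rw [max_eq_left h1, max_eq_right h2.le]
    nlinarith [sq_nonneg s, mul_nonneg (neg_nonneg.2 h1) h2.le]
  · rw [max_eq_right h1.le, max_eq_left h2]
    nlinarith [sq_nonneg a, mul_nonneg (neg_nonneg.2 h2) h1.le]
  · rw [max_eq_right h1.le, max_eq_right h2.le]
    by_cases h3 : s = a
    · subst h3
      have h4 : 2 ≤ s := by
        by_contra h5
        exact h ⟨by omega, by omega⟩
      nlinarith
    · have h4 : 1 ≤ (s - a) ^ 2 := by
        have : 0 < (s - a) ^ 2 := by
          have : s - a ≠ 0 := sub_ne_zero.2 h3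
          positivity
        omega
      have h5 : 0 ≤ (s - 1) * (a - 1) := mul_nonneg (by omega) (by omega)
      nlinarith

theorem CellHex_int2 (s a : ℤ) (h : ¬ (s = 0 ∧ a = 0)) :
    max 0 (s - 1) + max 0 (a - 1) ≤ s ^ 2 - s * a + a ^ 2 - 1 := by
  rcases le_or_gt s 1 with h1 | h1 <;> rcases le_or_gt a 1 with h2 | h2
  · rw [max_eq_left (by omega), max_eq_left (by omega)]
    have h3 : 0 < 4 * (s ^ 2 - s * a + a ^ 2) := by
      have h4 : 4 * (s ^ 2 - s * a + a ^ 2) = (2 * s - a) ^ 2 + 3 * a ^ 2 := by ring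
      rw [h4]
      by_cases ha : a = 0
      · have hs : s ≠ 0 := fun hs => h ⟨hs, ha⟩
        subst ha
        have : 0 < s ^ 2 := by positivity
        nlinarith
      · have : 0 < a ^ 2 := by positivity
        nlinarith [sq_nonneg (2 * s - a)]
    omega
  · rw [max_eq_left (by omega), max_eq_right (by omega)]
    rcases le_or_gt s 0 with h3 | h3
    · nlinarith [sq_nonneg s, mul_nonneg (neg_nonneg.2 h3) (by omega : 0 ≤ a)]
    · have h4 : s = 1 := by omega
      subst h4
      nlinarith [sq_nonneg (a - 1)]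
  · rw [max_eq_right (by omega), max_eq_left (by omega)]
    rcases le_or_gt a 0 with h3 | h3
    · nlinarith [sq_nonneg a, mul_nonneg (neg_nonneg.2 h3) (by omega : 0 ≤ s)]
    · have h4 : a = 1 := by omega
      subst h4
      nlinarith [sq_nonneg (s - 1)]
  · rw [max_eq_right (by omega), max_eq_right (by omega)]
    have h3 := CellHex_int1 s a (by omega)
    rw [max_eq_right (by omega), max_eq_right (by omega)] at h3
    omega

theorem CellHex_str1 {α β : ℝ} (h1 : 0 < α) (h2 : α < 1) (h3 : 0 < β) (h4 : β < 1) (s a : ℤ)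
    (h : ¬ (s = 0 ∧ a = 0)) (h' : ¬ (s = 1 ∧ a = 1)) :
    α * s + β * a < (s : ℝ) ^ 2 - s * a + (a : ℝ) ^ 2 := by
  have hi : (max 0 (s : ℝ)) + max 0 (a : ℝ) ≤ (s : ℝ) ^ 2 - s * a + (a : ℝ) ^ 2 := by
    exact_mod_cast CellHex_int1 s a h'
  have hs := CellHex_aff α h1 h2 s
  have ha := CellHex_aff β h3 h4 a
  by_cases h5 : s = 0
  · have h6 := ha.2 (fun h6 => h ⟨h5, h6⟩)
    linarith [hs.1]
  · have h6 := hs.2 h5
    linarith [ha.1]

theorem CellHex_str2 {α β : ℝ} (h1 : 0 < α) (h2 : α < 1) (h3 : 0 < β) (h4 : β < 1) (s a : ℤ)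
    (h : ¬ (s = 0 ∧ a = 0)) (h' : ¬ (s = 1 ∧ a = 1)) :
    α * (s - 1) + β * (a - 1) < (s : ℝ) ^ 2 - s * a + (a : ℝ) ^ 2 - 1 := by
  have hi : (max 0 ((s : ℝ) - 1)) + max 0 ((a : ℝ) - 1) ≤
      (s : ℝ) ^ 2 - s * a + (a : ℝ) ^ 2 - 1 := by
    exact_mod_cast CellHex_int2 s a h
  have hs := CellHex_aff α h1 h2 (s - 1)
  have ha := CellHex_aff β h3 h4 (a - 1)
  push_cast at hs ha
  by_cases h5 : s - 1 = 0
  · have h6 := ha.2 (fun h6 => h' ⟨by omega, by omega⟩)
    linarith [hs.1]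
  · have h6 := hs.2 h5
    linarith [ha.1]

theorem CellHex_int3 (s a : ℤ) (hs : 0 ≤ a) (h : a ≤ s) : s ≤ s ^ 2 - s * a + a ^ 2 := by
  rcases eq_or_lt_of_le (hs.trans h) with h1 | h1
  · subst h1
    nlinarith
  · have h2 : 0 ≤ (s - 1) * (s - a) := mul_nonneg (by omega) (by omega)
    rcases eq_or_lt_of_le hs with h3 | h3
    · subst h3
      nlinarith
    · have h4 : 0 ≤ a * (a - 1) := mul_nonneg hs (by omega)
      nlinarith

theorem CellHex_pos {α β : ℝ} (h1 : α ≤ 1) (h2 : β ≤ 1) (h3 : α + β ≤ 1) (s a : ℤ)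
    (hs : 0 ≤ s) (ha : 0 ≤ a) : α * s + β * a ≤ (s : ℝ) ^ 2 - s * a + (a : ℝ) ^ 2 := by
  have hs' : (0 : ℝ) ≤ s := by exact_mod_cast hs
  have ha' : (0 : ℝ) ≤ a := by exact_mod_cast ha
  rcases le_total a s with h | h
  · have h4 : (s : ℝ) ≤ (s : ℝ) ^ 2 - s * a + (a : ℝ) ^ 2 := by
      exact_mod_cast CellHex_int3 s a ha h
    have h5 : (0 : ℝ) ≤ s - a := by
      have : (a : ℝ) ≤ s := by exact_mod_cast h
      linarith
    nlinarith [mul_le_mul_of_nonneg_right h1 h5, mul_le_mul_of_nonneg_right h3 ha']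
  · have h4 : (a : ℝ) ≤ (a : ℝ) ^ 2 - a * s + (s : ℝ) ^ 2 := by
      exact_mod_cast CellHex_int3 a s hs h
    have h5 : (0 : ℝ) ≤ a - s := by
      have : (s : ℝ) ≤ a := by exact_mod_cast h
      linarith
    nlinarith [mul_le_mul_of_nonneg_right h2 h5, mul_le_mul_of_nonneg_right h3 hs']

theorem CellHex_sqle (s : ℤ) : (s : ℝ) ≤ (s : ℝ) ^ 2 := by
  have h : s ≤ s ^ 2 := by
    rcases le_or_gt s 0 with h | h
    · nlinarith [sq_nonneg s]
    · nlinarith
  exact_mod_cast h

theorem CellHex_all {α β : ℝ} (h1 : |α| ≤ 1) (h2 : |β| ≤ 1) (h3 : |α + β| ≤ 1) (s a : ℤ) :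
    α * s + β * a ≤ (s : ℝ) ^ 2 - s * a + (a : ℝ) ^ 2 := by
  rw [abs_le] at h1 h2 h3
  rcases le_total 0 s with hs | hs <;> rcases le_total 0 a with ha | ha
  · exact CellHex_pos h1.2 h2.2 h3.2 s a hs ha
  · have hs' : (0 : ℝ) ≤ s := by exact_mod_cast hs
    have ha' : (a : ℝ) ≤ 0 := by exact_mod_cast ha
    have k1 := CellHex_sqle s
    have k2 := CellHex_sqle (-a)
    push_cast at k2
    nlinarith [mul_le_mul_of_nonneg_right h1.2 hs', mul_le_mul_of_nonpos_right h2.1 ha',
      mul_nonneg hs' (neg_nonneg.2 ha')]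
  · have hs' : (s : ℝ) ≤ 0 := by exact_mod_cast hs
    have ha' : (0 : ℝ) ≤ a := by exact_mod_cast ha
    have k1 := CellHex_sqle (-s)
    have k2 := CellHex_sqle a
    push_cast at k1
    nlinarith [mul_le_mul_of_nonpos_right h1.1 hs', mul_le_mul_of_nonneg_right h2.2 ha',
      mul_nonneg ha' (neg_nonneg.2 hs')]
  · have h := CellHex_pos (α := -α) (β := -β) (by linarith [h1.1]) (by linarith [h2.1])
      (by linarith [h3.1]) (-s) (-a) (by omega) (by omega)
    push_cast at h
    nlinarith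

theorem CellHex_hexF_zero : hexF 0 = 0 := by
  have h := hexF_add 0 0
  rw [add_zero] at h
  exact left_eq_add.mp h

theorem CellHex_toV_inj {z w : Z2} (h : hexF (toV z) = hexF (toV w)) : z = w := by
  have h1 : toV z = toV w := RealHex_F.injective h
  unfold toV at h1
  rw [Prod.mk.injEq] at h1
  exact Prod.ext (by exact_mod_cast h1.1) (by exact_mod_cast h1.2)

theorem hex_vor : Vor (range (fun z : Z2 => hexF (toV z))) = hexF '' hexQ := by
  ext e
  obtain ⟨p, rfl⟩ := RealHex_F.surjective e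
  have hmem : RealHex_F p ∈ hexF '' hexQ ↔ p ∈ hexQ := by
    constructor
    · rintro ⟨q, hq, h⟩
      have : q = p := RealHex_F.injective h
      rwa [← this]
    · intro h
      exact ⟨p, h, rfl⟩
  rw [hmem]
  have hcond : RealHex_F p ∈ Vor (range (fun z : Z2 => hexF (toV z))) ↔
      ∀ z : Z2, ‖hexF p‖ ≤ ‖hexF (p - toV z)‖ := by
    constructor
    · intro h z
      have := h _ ⟨z, rfl⟩
      rw [RealHex_sub]
      exact this
    · rintro h _ ⟨z, rfl⟩
      have := h z
      rw [RealHex_sub] at this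
      exact this
  rw [hcond]
  obtain ⟨x, y⟩ := p
  simp only [CellHex_le, toV, Prod.mk_sub_mk]
  constructor
  · intro h
    have k1 := h (0, 1)
    have k2 := h (0, -1)
    have k3 := h (1, -1)
    have k4 := h (-1, 1)
    have k5 := h (1, 0)
    have k6 := h (-1, 0)
    push_cast at k1 k2 k3 k4 k5 k6
    refine ⟨?_, ?_, ?_⟩ <;> simp only <;> rw [abs_le] <;> constructor <;> nlinarith
  · rintro ⟨h1, h2, h3⟩ ⟨a, b⟩
    simp only at h1 h2 h3 ⊢
    have h4 := CellHex_all h1 h2 (by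
      rw [show x + 2 * y + (x - y) = 2 * x + y by ring]
      exact h3) (a + b) a
    push_cast at h4
    nlinarith

/-- the order two cell in lattice coordinates -/
def CellHex_P (w : Z2) (p : V) : Prop :=
  ∀ z : Z2, z ≠ 0 → z ≠ w →
    ‖hexF p‖ < ‖hexF (p - toV z)‖ ∧ ‖hexF (p - toV w)‖ < ‖hexF (p - toV z)‖

theorem CellHex_cell (w : Z2) : Cell (range (fun z : Z2 => hexF (toV z))) (hexF (toV w)) =
    hexF '' {p | CellHex_P w p} := by
  ext e
  obtain ⟨p, rfl⟩ := RealHex_F.surjective e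
  have hmem : RealHex_F p ∈ hexF '' {p | CellHex_P w p} ↔ CellHex_P w p := by
    constructor
    · rintro ⟨q, hq, h⟩
      have h2 : q = p := RealHex_F.injective h
      rwa [← h2]
    · intro h
      exact ⟨p, h, rfl⟩
  rw [hmem]
  constructor
  · intro h z hz hzw
    have h1 := h (hexF (toV z)) ⟨z, rfl⟩ (by
      intro h2
      apply hz
      apply CellHex_toV_inj
      rw [h2, toV_zero, CellHex_hexF_zero]) (fun h2 => hzw (CellHex_toV_inj h2))
    rw [RealHex_sub, RealHex_sub]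
    exact h1
  · rintro h _ ⟨z, rfl⟩ hz hzw
    have h1 := h z (by
      rintro rfl
      apply hz
      simp only
      rw [toV_zero, CellHex_hexF_zero]) (by
      rintro rfl
      exact hzw rfl)
    rw [RealHex_sub, RealHex_sub] at h1
    exact h1

theorem CellHex_P_zero (p : V) : CellHex_P (hexDir 0) p ↔ p ∈ hexU0 := by
  obtain ⟨x, y⟩ := p
  rw [show hexDir 0 = (1, 0) from rfl]
  unfold CellHex_P
  simp only [CellHex_lt, toV, Prod.mk_sub_mk]
  constructor
  · intro h
    have k1 := h (0, 1) (by decide) (by decide)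
    have k2 := h (1, -1) (by decide) (by decide)
    push_cast at k1 k2
    obtain ⟨k1, k3⟩ := k1
    obtain ⟨k2, k4⟩ := k2
    refine ⟨?_, ?_, ?_, ?_⟩ <;> simp only <;> nlinarith
  · rintro ⟨h1, h2, h3, h4⟩ ⟨a, b⟩ hz hzw
    simp only at h1 h2 h3 h4
    have n0 : ¬ (a + b = 0 ∧ a = 0) := by
      rintro ⟨e1, e2⟩
      apply hz
      exact Prod.ext e2 (by simp only [Prod.snd_zero]; omega)
    have n1 : ¬ (a + b = 1 ∧ a = 1) := by
      rintro ⟨e1, e2⟩
      apply hzw
      exact Prod.ext e2 (by simp only; omega)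
    have k1 := CellHex_str1 h1 h2 h3 h4 (a + b) a n0 n1
    have k2 := CellHex_str2 h1 h2 h3 h4 (a + b) a n0 n1
    push_cast at k1 k2 ⊢
    constructor <;> nlinarith

theorem CellHex_transport (e : ZMod 6) (p : V) :
    CellHex_P (hexDir e) ((hexMat (e, false)).ap p) ↔ CellHex_P (hexDir 0) p := by
  have hdir : hexDir e = (hexMat (e, false)).apZ (hexDir 0) := by
    have h := gridHex.mat_dir (e, false) 0
    have h2 : act ((e, false) : Lab 6) 0 = e := by simp [act, sg]
    rw [h2] at h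
    exact h.symm
  have hnorm : ∀ z : Z2, ‖hexF ((hexMat (e, false)).ap p - toV ((hexMat (e, false)).apZ z))‖ =
      ‖hexF (p - toV z)‖ := by
    intro z
    rw [toV_apZ, ← Mat.ap_sub, RealHex_inv]
  have hinj : ∀ z z' : Z2, (hexMat (e, false)).apZ z = (hexMat (e, false)).apZ z' → z = z' := by
    intro z z' h
    have h1 := congrArg (gridHex.mat (linv (e, false))).apZ h
    have h2 := gridHex.apZ_linv_apZ (e, false) z
    have h3 := gridHex.apZ_linv_apZ (e, false) z'
    exact h2.symm.trans (h1.trans h3)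
  constructor
  · intro h z hz hz0
    have h1 := h ((hexMat (e, false)).apZ z) (by
      intro h2
      apply hz
      apply hinj
      rw [h2, Mat.apZ_zero]) (by
      intro h2
      rw [hdir] at h2
      exact hz0 (hinj _ _ h2))
    rw [hdir, hnorm, hnorm, RealHex_inv] at h1
    exact h1
  · intro h z hz hz0
    obtain ⟨z', rfl⟩ : ∃ z', z = (hexMat (e, false)).apZ z' :=
      ⟨_, (gridHex.apZ_apZ_linv (e, false) z).symm⟩
    have h1 := h z' (by
      rintro rfl
      apply hz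
      rw [Mat.apZ_zero]) (by
      rintro rfl
      exact hz0 hdir.symm)
    rw [hdir, hnorm, hnorm, RealHex_inv]
    exact h1

theorem hex_cell2 (e : ZMod 6) :
    Cell (range (fun z : Z2 => hexF (toV z))) (hexF (toV (hexDir e))) = hexF '' gridHex.U e := by
  rw [CellHex_cell]
  congr 1
  ext p
  constructor
  · intro h
    have h1 : (hexMat (e, false)).ap ((gridHex.mat (linv (e, false))).ap p) = p :=
      gridHex.ap_ap_linv (e, false) p
    refine ⟨(gridHex.mat (linv (e, false))).ap p, ?_, h1⟩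
    have h2 : CellHex_P (hexDir e) p := h
    rw [← h1, CellHex_transport, CellHex_P_zero] at h2
    exact h2
  · rintro ⟨q, hq, rfl⟩
    have h2 : q ∈ hexU0 := hq
    rw [← CellHex_P_zero, ← CellHex_transport e] at h2
    exact h2

end Pool.H3JG
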