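import Pool.Agent.Helper3.JD.CellHex

/-!
# Jigsaw tiles on a lattice: order two cells of the hexagonal lattice are at the edges

By `gridHex.cover` every `p` (lattice coordinates) is in the closure of a translated cell
`toV z + U i`; the two points `z` and `z + dir i` are (weakly) nearest to the points of that closure
(for `closure U0`, contained in `hexD0`: with `α = x + 2y`, `β = x - y`, `γ = 2x + y = α + β`, squared
norm `x^2 + x y + y^2`, twice the inner product of `p` and `u = (a, b)` is `γ a + α b`, one has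
`a^2 + a b + b^2 ≥ γ a + α b` for `u ≠ (0,0), (1,0)`, check the corners of the parallelogram
`0 ≤ α, β ≤ 1`). If `p ∈ Cell Λ w` the strictly two nearest points are `0` and `w`, so
`{z, z + dir i} = {0, w}`, `w = dir e`, and then use `hex_cell2`.
-/

namespace Pool.H3JG

open Set

private theorem CellHex1_pos {a b : ℤ} (h : ¬ (a = 0 ∧ b = 0)) : 1 ≤ a ^ 2 + a * b + b ^ 2 := by
  by_contra hcon
  have h1 : a ^ 2 + a * b + b ^ 2 ≤ 0 := by omega
  have h2 : (2 * a + b) ^ 2 + 3 * b ^ 2 ≤ 0 := by nlinarith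
  have h3 : b ^ 2 = 0 := le_antisymm (by nlinarith [sq_nonneg (2 * a + b)]) (sq_nonneg b)
  have hb : b = 0 := by simpa using h3
  subst hb
  have h4 : a ^ 2 = 0 := le_antisymm (by nlinarith) (sq_nonneg a)
  exact h ⟨by simpa using h4, rfl⟩

private theorem CellHex1_sq (a : ℤ) : 0 ≤ a ^ 2 - a ∧ 0 ≤ a ^ 2 + a := by
  rcases le_or_gt a 0 with h | h
  · rcases le_or_gt 0 a with h' | h'
    · have : a = 0 := le_antisymm h h'
      subst this
      norm_num
    · constructor <;> nlinarith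
  · constructor <;> nlinarith

private theorem CellHex1_sum (a b : ℤ) : a + b ≤ a ^ 2 + a * b + b ^ 2 := by
  rcases le_or_gt (a + b) 0 with h | h
  · nlinarith [sq_nonneg (2 * a + b), sq_nonneg b]
  · rcases le_or_gt (a + b) 1 with h' | h'
    · have h1 : b = 1 - a := by omega
      subst h1
      have := (CellHex1_sq a).1
      nlinarith
    · nlinarith [sq_nonneg (a - b)]

private theorem CellHex1_fst (a b : ℤ) : a ≤ a ^ 2 + a * b + b ^ 2 := by
  rcases le_or_gt a 0 with h | h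
  · nlinarith [sq_nonneg (2 * a + b), sq_nonneg b]
  · rcases le_or_gt a 1 with h' | h'
    · have h1 : a = 1 := by omega
      subst h1
      have := (CellHex1_sq b).2
      nlinarith
    · nlinarith [sq_nonneg (a + 2 * b)]

private theorem CellHex1_near {q : V} (hq : q ∈ hexD0) {u : Z2} (h0 : u ≠ 0) (h1 : u ≠ (1, 0)) :
    ‖hexF q‖ ≤ ‖hexF (q - toV u)‖ ∧ ‖hexF (q - toV (1, 0))‖ ≤ ‖hexF (q - toV u)‖ := by
  obtain ⟨x, y⟩ := q
  obtain ⟨a, b⟩ := u
  obtain ⟨k1, k2, k3, k4⟩ := hq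
  simp only at k1 k2 k3 k4
  have i1 : ((a : ℝ) + b) ≤ (a : ℝ) ^ 2 + a * b + (b : ℝ) ^ 2 := by exact_mod_cast CellHex1_sum a b
  have i2 : (a : ℝ) ≤ (a : ℝ) ^ 2 + a * b + (b : ℝ) ^ 2 := by exact_mod_cast CellHex1_fst a b
  have i3 : (1 : ℝ) ≤ (a : ℝ) ^ 2 + a * b + (b : ℝ) ^ 2 := by
    have : 1 ≤ a ^ 2 + a * b + b ^ 2 := CellHex1_pos (fun h => h0 (Prod.ext h.1 h.2))
    exact_mod_cast this
  have i4 : (0 : ℝ) ≤ (a : ℝ) ^ 2 + a * b + (b : ℝ) ^ 2 - 2 * a - b := by
    have h := CellHex1_pos (a := a - 1) (b := b) (fun h => h1 (Prod.ext (by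
      simp only
      omega) h.2))
    have h2 : 0 ≤ a ^ 2 + a * b + b ^ 2 - 2 * a - b := by
      have e : (a - 1) ^ 2 + (a - 1) * b + b ^ 2 = a ^ 2 + a * b + b ^ 2 - 2 * a - b + 1 := by ring
      rw [e] at h
      linarith
    exact_mod_cast h2
  have j1 : 0 ≤ 1 - (x + 2 * y) := by linarith
  have j2 : 0 ≤ 1 - (x - y) := by linarith
  have m1 := mul_nonneg j1 j2
  have m2 := mul_nonneg k1 j2
  have m3 := mul_nonneg j1 k3
  have m4 := mul_nonneg k1 k3
  constructor
  · refine (sq_le_sq₀ (norm_nonneg _) (norm_nonneg _)).1 ?_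
    rw [RealHex_sq, RealHex_sq]
    simp only [toV, Prod.mk_sub_mk]
    have n1 := mul_nonneg m1 (le_trans zero_le_one i3)
    have n2 := mul_nonneg m2 (sub_nonneg.2 i1)
    have n3 := mul_nonneg m3 (sub_nonneg.2 i2)
    have n4 := mul_nonneg m4 i4
    have e : (x - a) ^ 2 + (x - a) * (y - b) + (y - b) ^ 2 - (x ^ 2 + x * y + y ^ 2) =
        (1 - (x + 2 * y)) * (1 - (x - y)) * ((a : ℝ) ^ 2 + a * b + (b : ℝ) ^ 2) +
        (x + 2 * y) * (1 - (x - y)) * ((a : ℝ) ^ 2 + a * b + (b : ℝ) ^ 2 - (a + b)) +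
        (1 - (x + 2 * y)) * (x - y) * ((a : ℝ) ^ 2 + a * b + (b : ℝ) ^ 2 - a) +
        (x + 2 * y) * (x - y) * ((a : ℝ) ^ 2 + a * b + (b : ℝ) ^ 2 - 2 * a - b) := by ring
    linarith
  · refine (sq_le_sq₀ (norm_nonneg _) (norm_nonneg _)).1 ?_
    rw [RealHex_sq, RealHex_sq]
    simp only [toV, Prod.mk_sub_mk, Int.cast_one, Int.cast_zero, sub_zero]
    have n1 := mul_nonneg m1 (sub_nonneg.2 i3)
    have n2 := mul_nonneg m2 (sub_nonneg.2 i1)
    have n3 := mul_nonneg m3 (sub_nonneg.2 i2)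
    have n4 := mul_nonneg m4 (by linarith : 0 ≤ (a : ℝ) ^ 2 + a * b + (b : ℝ) ^ 2 + 1 - 2 * a - b)
    have e : (x - a) ^ 2 + (x - a) * (y - b) + (y - b) ^ 2 - ((x - 1) ^ 2 + (x - 1) * y + y ^ 2) =
        (1 - (x + 2 * y)) * (1 - (x - y)) * ((a : ℝ) ^ 2 + a * b + (b : ℝ) ^ 2 - 1) +
        (x + 2 * y) * (1 - (x - y)) * ((a : ℝ) ^ 2 + a * b + (b : ℝ) ^ 2 - (a + b)) +
        (1 - (x + 2 * y)) * (x - y) * ((a : ℝ) ^ 2 + a * b + (b : ℝ) ^ 2 - a) +
        (x + 2 * y) * (x - y) * ((a : ℝ) ^ 2 + a * b + (b : ℝ) ^ 2 + 1 - 2 * a - b) := by ring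
    linarith

private theorem CellHex1_cl : closure hexU0 ⊆ hexD0 := by
  have h1 : IsClosed {p : V | 0 ≤ p.1 + 2 * p.2} := isClosed_le (by fun_prop) (by fun_prop)
  have h2 : IsClosed {p : V | p.1 + 2 * p.2 ≤ 1} := isClosed_le (by fun_prop) (by fun_prop)
  have h3 : IsClosed {p : V | 0 ≤ p.1 - p.2} := isClosed_le (by fun_prop) (by fun_prop)
  have h4 : IsClosed {p : V | p.1 - p.2 ≤ 1} := isClosed_le (by fun_prop) (by fun_prop)
  have h5 : IsClosed hexD0 := h1.inter (h2.inter (h3.inter h4))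
  refine closure_minimal ?_ h5
  rintro p ⟨k1, k2, k3, k4⟩
  exact ⟨k1.le, k2.le, k3.le, k4.le⟩

private theorem CellHex1_dist (z : Z2) (i : ZMod 6) (q : V) (v : Z2) :
    ‖hexF (toV z + (hexMat (i, false)).ap q) - hexF (toV v)‖ =
      ‖hexF (q - toV ((hexMat (linv (i, false))).apZ (v - z)))‖ := by
  rw [← RealHex_sub, ← RealHex_inv (i, false) (q - _), Mat.ap_sub, ← toV_apZ]
  have h := gridHex.apZ_apZ_linv (i, false) (v - z)
  have h' : (hexMat (i, false)).apZ ((hexMat (linv (i, false))).apZ (v - z)) = v - z := h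
  rw [h', sub_eq_add_neg v z, toV_add, toV_neg]
  congr 2
  abel

theorem hex_cell1 {w : E} (hw : w ∈ range (fun z : Z2 => hexF (toV z))) (h0 : w ≠ 0) :
    Cell (range (fun z : Z2 => hexF (toV z))) w ⊆ ⋃ e, hexF '' gridHex.U e := by
  intro p0 hp0
  obtain ⟨wz, rfl⟩ := hw
  have hwz : wz ≠ 0 := by
    rintro rfl
    apply h0
    simp only [toV_zero]
    have h := RealHex_sub 0 0
    rw [sub_self, sub_self] at h
    exact h
  obtain ⟨p, hp⟩ := RealHex_F.surjective p0
  have hp' : hexF p = p0 := hp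
  subst hp'
  obtain ⟨z, i, q, hq, hpq⟩ := gridHex.cover p
  have hq' := CellHex1_cl hq
  have hpq' : p = toV z + (hexMat (i, false)).ap q := hpq
  set τ : Z2 → Z2 := fun v => (hexMat (linv (i, false))).apZ (v - z) with hτ
  have hd : ∀ v : Z2, ‖hexF p - hexF (toV v)‖ = ‖hexF (q - toV (τ v))‖ := by
    intro v
    rw [hpq']
    exact CellHex1_dist z i q v
  have hz : τ z = 0 := by
    simp only [hτ, sub_self]
    exact Mat.apZ_zero _
  have hdir : (hexMat (i, false)).apZ (1, 0) = hexDir i := by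
    have h := gridHex.mat_dir (i, false) 0
    have h2 : act ((i, false) : Lab 6) 0 = i := by simp [act, sg]
    rw [h2] at h
    exact h
  have hz' : τ (z + hexDir i) = (1, 0) := by
    simp only [hτ, add_sub_cancel_left]
    rw [← hdir]
    exact gridHex.apZ_linv_apZ (i, false) (1, 0)
  have hinj : ∀ v v' : Z2, τ v = τ v' → v = v' := by
    intro v v' h
    have h1 := congrArg ((hexMat (i, false)).apZ) h
    have h2 : ∀ v : Z2, (hexMat (i, false)).apZ (τ v) = v - z := fun v =>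
      gridHex.apZ_apZ_linv (i, false) (v - z)
    rw [h2, h2] at h1
    exact sub_left_injective h1
  have hne : z ≠ z + hexDir i := by
    intro h
    have h1 := gridHex.dir_ne i
    apply h1
    have h2 : z + 0 = z + hexDir i := by rw [add_zero]; exact h
    exact (add_left_cancel h2).symm
  -- `z` and `z + dir i` are weakly nearest
  have hnear : ∀ v : Z2, v ≠ z → v ≠ z + hexDir i →
      ‖hexF p - hexF (toV z)‖ ≤ ‖hexF p - hexF (toV v)‖ ∧
      ‖hexF p - hexF (toV (z + hexDir i))‖ ≤ ‖hexF p - hexF (toV v)‖ := by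
    intro v h1 h2
    rw [hd, hd, hd, hz, hz', toV_zero, sub_zero]
    refine CellHex1_near hq' (fun h => h1 (hinj _ _ (h.trans hz.symm)))
      (fun h => h2 (hinj _ _ (h.trans hz'.symm)))
  -- the strict inequalities of the cell
  have hcell : ∀ v : Z2, v ≠ 0 → v ≠ wz → ‖hexF p - hexF (toV 0)‖ < ‖hexF p - hexF (toV v)‖ ∧
      ‖hexF p - hexF (toV wz)‖ < ‖hexF p - hexF (toV v)‖ := by
    intro v h1 h2
    have hF0 : hexF (toV 0) = 0 := by
      rw [toV_zero]
      have h := RealHex_sub 0 0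
      rw [sub_self, sub_self] at h
      exact h
    have hF : ∀ v v' : Z2, hexF (toV v) = hexF (toV v') → v = v' := by
      intro v v' h
      have h3 : RealHex_F (toV v) = RealHex_F (toV v') := h
      have h4 := RealHex_F.injective h3
      have h5 := congrArg Prod.fst h4
      have h6 := congrArg Prod.snd h4
      simp only [toV, Int.cast_inj] at h5 h6
      exact Prod.ext h5 h6
    have h3 := hp0 (hexF (toV v)) ⟨v, rfl⟩
      (fun h => h1 (hF v 0 (by rw [h, hF0]))) (fun h => h2 (hF v wz h))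
    rw [hF0, sub_zero]
    exact h3
  have hin : ∀ v v' : Z2, v ≠ v' → (∀ u : Z2, u ≠ v → u ≠ v' →
      ‖hexF p - hexF (toV v)‖ ≤ ‖hexF p - hexF (toV u)‖) → v = 0 ∨ v = wz := by
    intro v v' hvv h
    by_contra hcon
    rw [not_or] at hcon
    obtain ⟨c1, c2⟩ := hcon
    by_cases h3 : v' = 0
    · have h4 : wz ≠ v' := fun h5 => hwz (h5.trans h3)
      exact absurd (hcell v c1 c2).2 (not_lt.2 (h wz (Ne.symm c2) h4))
    · exact absurd (hcell v c1 c2).1 (not_lt.2 (h 0 (Ne.symm c1) (Ne.symm h3)))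
  have hA := hin z (z + hexDir i) hne (fun u h1 h2 => (hnear u h1 h2).1)
  have hB := hin (z + hexDir i) z hne.symm (fun u h1 h2 => (hnear u h2 h1).2)
  have hfin : ∃ e : ZMod 6, wz = hexDir e := by
    rcases hA with hA | hA
    · rcases hB with hB | hB
      · exact absurd (hA.trans hB.symm) hne
      · exact ⟨i, by rw [← hB, hA, zero_add]⟩
    · rcases hB with hB | hB
      · refine ⟨i + gridHex.h, ?_⟩
        have h1 : gridHex.dir (i + gridHex.h) = -(gridHex.dir i) := gridHex.dir_h i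
        have h2 : hexDir (i + gridHex.h) = -(hexDir i) := h1
        rw [h2, ← hA]
        exact eq_neg_of_add_eq_zero_left hB
      · exact absurd (hA.trans hB.symm) hne
  obtain ⟨e, rfl⟩ := hfin
  have h1 := hp0
  rw [hex_cell2 e] at h1
  exact mem_iUnion.2 ⟨e, h1⟩

end Pool.H3JG
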