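import Pool.Agent.Helper3.JG.RealSq
import Pool.Agent.Helper3.JD.DefsD

/-!
# Jigsaw tiles on a lattice: Voronoi cell and order two cells of the square lattice

`sq_cell2`: write out the inequalities for the lattice points around (necessary), and for a general
integral vector `u`: `|u|^2 ≥ |u|_1` (sufficient). Transport from direction `0` with the matrices.
-/

namespace Pool.H3JG

open Set

private theorem CellSq_nsq (q : V) : ‖sqF q‖ ^ 2 = q.1 ^ 2 + q.2 ^ 2 := by
  rw [EuclideanSpace.norm_sq_eq, Fin.sum_univ_two]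
  simp [sqF]

private theorem CellSq_sub (p q : V) : sqF p - sqF q = sqF (p - q) := by
  ext i
  fin_cases i <;> simp [sqF]

private theorem CellSq_inj {u v : V} (h : sqF u = sqF v) : u = v := by
  have h0 := congrArg (fun q : E => q 0) h
  have h1 := congrArg (fun q : E => q 1) h
  simp only [sqF, PiLp.toLp_apply, Matrix.cons_val_zero, Matrix.cons_val_one] at h0 h1
  exact Prod.ext h0 h1

private theorem CellSq_toV {u v : Z2} (h : toV u = toV v) : u = v := by
  have h0 := congrArg Prod.fst h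
  have h1 := congrArg Prod.snd h
  simp only [toV] at h0 h1
  exact Prod.ext (by exact_mod_cast h0) (by exact_mod_cast h1)

private theorem CellSq_zero : sqF (toV 0) = 0 := by
  ext i
  fin_cases i <;> simp [sqF, toV]

private theorem CellSq_surj (q : E) : ∃ p : V, sqF p = q := by
  refine ⟨(q 0, q 1), ?_⟩
  ext i
  fin_cases i <;> simp [sqF]

private theorem CellSq_le (p : V) (u v : Z2) :
    ‖sqF p - sqF (toV v)‖ ≤ ‖sqF p - sqF (toV u)‖ ↔
      (p.1 - v.1) ^ 2 + (p.2 - v.2) ^ 2 ≤ (p.1 - u.1) ^ 2 + (p.2 - u.2) ^ 2 := by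
  rw [CellSq_sub, CellSq_sub, ← pow_le_pow_iff_left₀ (norm_nonneg _) (norm_nonneg _) two_ne_zero,
    CellSq_nsq, CellSq_nsq]
  simp [toV]

private theorem CellSq_lt (p : V) (u v : Z2) :
    ‖sqF p - sqF (toV v)‖ < ‖sqF p - sqF (toV u)‖ ↔
      (p.1 - v.1) ^ 2 + (p.2 - v.2) ^ 2 < (p.1 - u.1) ^ 2 + (p.2 - u.2) ^ 2 := by
  rw [← not_le, CellSq_le, not_le]

private theorem CellSq_abs (z : ℤ) (x : ℝ) (hx : |x| ≤ 1 / 2) : 2 * x * z ≤ (z : ℝ) ^ 2 := by
  obtain ⟨h1, h2⟩ := abs_le.1 hx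
  rcases lt_trichotomy z 0 with h | h | h
  · have h3 : (z : ℝ) ≤ -1 := by exact_mod_cast (by omega : z ≤ -1)
    nlinarith
  · subst h; simp
  · have h3 : (1 : ℝ) ≤ z := by exact_mod_cast (by omega : 1 ≤ z)
    nlinarith

theorem sq_vor : Vor (range (fun z : Z2 => sqF (toV z))) = sqF '' sqQ := by
  ext q
  obtain ⟨p, rfl⟩ := CellSq_surj q
  have e0 : ∀ u : Z2, ‖sqF p‖ ≤ ‖sqF p - sqF (toV u)‖ ↔
      (p.1) ^ 2 + (p.2) ^ 2 ≤ (p.1 - u.1) ^ 2 + (p.2 - u.2) ^ 2 := by
    intro u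
    have h := CellSq_le p u 0
    rw [CellSq_zero, sub_zero] at h
    rw [h]
    simp
  constructor
  · intro h
    refine ⟨p, ?_, rfl⟩
    have a1 := (e0 (1, 0)).1 (h _ ⟨(1, 0), rfl⟩)
    have a2 := (e0 (-1, 0)).1 (h _ ⟨(-1, 0), rfl⟩)
    have a3 := (e0 (0, 1)).1 (h _ ⟨(0, 1), rfl⟩)
    have a4 := (e0 (0, -1)).1 (h _ ⟨(0, -1), rfl⟩)
    simp only [Int.cast_one, Int.cast_zero, Int.cast_neg] at a1 a2 a3 a4
    exact ⟨abs_le.2 ⟨by nlinarith, by nlinarith⟩, abs_le.2 ⟨by nlinarith, by nlinarith⟩⟩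
  · rintro ⟨p', ⟨h1, h2⟩, hp⟩
    rw [CellSq_inj hp] at h1 h2
    rintro _ ⟨u, rfl⟩
    refine (e0 u).2 ?_
    have b1 := CellSq_abs u.1 p.1 h1
    have b2 := CellSq_abs u.2 p.2 h2
    nlinarith

/-- the cell of direction `e`, in coordinates -/
private theorem CellSq_U (e : ZMod 4) (p : V) : p ∈ gridSq.U e ↔
    |(sqDir e).1 * p.2 - (sqDir e).2 * p.1| < (sqDir e).1 * p.1 + (sqDir e).2 * p.2 ∧
    |(sqDir e).1 * p.2 - (sqDir e).2 * p.1| < 1 - ((sqDir e).1 * p.1 + (sqDir e).2 * p.2) := by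
  have hall : ∀ e : ZMod 4, (sqMat (e, false) = ⟨1, 0, 0, 1⟩ ∧ sqDir e = (1, 0)) ∨
      (sqMat (e, false) = ⟨0, -1, 1, 0⟩ ∧ sqDir e = (0, 1)) ∨
      (sqMat (e, false) = ⟨-1, 0, 0, -1⟩ ∧ sqDir e = (-1, 0)) ∨
      (sqMat (e, false) = ⟨0, 1, -1, 0⟩ ∧ sqDir e = (0, -1)) := by decide
  have hU : gridSq.U e = (sqMat (e, false)).ap '' sqU0 := rfl
  rw [hU]
  obtain ⟨x, y⟩ := p
  rcases hall e with ⟨h1, h2⟩ | ⟨h1, h2⟩ | ⟨h1, h2⟩ | ⟨h1, h2⟩ <;> rw [h1, h2]
  · constructor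
    · rintro ⟨⟨a, b⟩, ⟨c1, c2⟩, hq⟩
      simp only [Mat.ap, Prod.mk.injEq, Int.cast_one, Int.cast_zero, one_mul, zero_mul, add_zero,
        zero_add] at hq
      obtain ⟨rfl, rfl⟩ := hq
      simpa using ⟨c1, c2⟩
    · rintro ⟨c1, c2⟩
      refine ⟨(x, y), ?_, ?_⟩
      · simpa [sqU0] using And.intro c1 c2
      · simp [Mat.ap]
  · constructor
    · rintro ⟨⟨a, b⟩, ⟨c1, c2⟩, hq⟩
      simp only [Mat.ap, Prod.mk.injEq, Int.cast_one, Int.cast_zero, Int.cast_neg, one_mul,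
        zero_mul, add_zero, zero_add, neg_mul] at hq
      obtain ⟨rfl, rfl⟩ := hq
      simpa using ⟨c1, c2⟩
    · rintro ⟨c1, c2⟩
      refine ⟨(y, -x), ?_, ?_⟩
      · simpa [sqU0] using And.intro c1 c2
      · simp [Mat.ap]
  · constructor
    · rintro ⟨⟨a, b⟩, ⟨c1, c2⟩, hq⟩
      simp only [Mat.ap, Prod.mk.injEq, Int.cast_one, Int.cast_zero, Int.cast_neg, one_mul,
        zero_mul, add_zero, zero_add, neg_mul] at hq
      obtain ⟨rfl, rfl⟩ := hq
      simpa using ⟨c1, c2⟩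
    · rintro ⟨c1, c2⟩
      refine ⟨(-x, -y), ?_, ?_⟩
      · simpa [sqU0] using And.intro c1 c2
      · simp [Mat.ap]
  · constructor
    · rintro ⟨⟨a, b⟩, ⟨c1, c2⟩, hq⟩
      simp only [Mat.ap, Prod.mk.injEq, Int.cast_one, Int.cast_zero, Int.cast_neg, one_mul,
        zero_mul, add_zero, zero_add, neg_mul] at hq
      obtain ⟨rfl, rfl⟩ := hq
      simpa using ⟨c1, c2⟩
    · rintro ⟨c1, c2⟩
      refine ⟨(-y, x), ?_, ?_⟩
      · simpa [sqU0] using And.intro c1 c2
      · simp [Mat.ap]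

private theorem CellSq_ineq {s t : ℝ} (h1 : |t| < s) (h2 : |t| < 1 - s) (a b : ℤ)
    (h0 : ¬ (a = 0 ∧ b = 0)) (h3 : ¬ (a = 1 ∧ b = 0)) :
    2 * (s * a + t * b) < (a : ℝ) ^ 2 + (b : ℝ) ^ 2 := by
  have ht0 := abs_nonneg t
  by_cases hb : b = 0
  · subst hb
    have ha : a ≤ -1 ∨ 2 ≤ a := by omega
    simp only [Int.cast_zero, mul_zero, add_zero]
    rcases ha with ha | ha
    · have h4 : (a : ℝ) ≤ -1 := by exact_mod_cast ha
      nlinarith
    · have h4 : (2 : ℝ) ≤ a := by exact_mod_cast ha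
      nlinarith
  · have hb1 : (1 : ℝ) ≤ |(b : ℝ)| := by
      have : (1 : ℤ) ≤ |b| := Int.one_le_abs hb
      exact_mod_cast this
    have h5 : t * b ≤ |t| * |(b : ℝ)| := by
      rw [← abs_mul]
      exact le_abs_self _
    have h6 : (b : ℝ) ^ 2 = |(b : ℝ)| ^ 2 := (sq_abs _).symm
    rw [h6]
    generalize |(b : ℝ)| = B at *
    generalize |t| = T at *
    have h7 : 1 - 2 * T ≤ B ^ 2 - 2 * T * B := by nlinarith
    have h8 : 0 < (a : ℝ) ^ 2 - 2 * s * a + (1 - 2 * T) := by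
      have ha : a ≤ 0 ∨ a = 1 ∨ 2 ≤ a := by omega
      rcases ha with ha | ha | ha
      · have h4 : (a : ℝ) ≤ 0 := by exact_mod_cast ha
        nlinarith
      · subst ha
        norm_num
        linarith
      · have h4 : (2 : ℝ) ≤ a := by exact_mod_cast ha
        nlinarith
    linarith

theorem sq_cell2 (e : ZMod 4) :
    Cell (range (fun z : Z2 => sqF (toV z))) (sqF (toV (sqDir e))) = sqF '' gridSq.U e := by
  have hunit : (sqDir e).1 ^ 2 + (sqDir e).2 ^ 2 = 1 := by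
    revert e
    decide
  ext q
  obtain ⟨p, rfl⟩ := CellSq_surj q
  have hmem : sqF p ∈ sqF '' gridSq.U e ↔ p ∈ gridSq.U e := by
    constructor
    · rintro ⟨p', h, hp⟩
      rwa [CellSq_inj hp] at h
    · intro h
      exact ⟨p, h, rfl⟩
  rw [hmem, CellSq_U]
  have hw : sqDir e = ((sqDir e).1, (sqDir e).2) := rfl
  generalize (sqDir e).1 = α at *
  generalize (sqDir e).2 = β at *
  rw [hw]
  have hunit' : (α : ℝ) ^ 2 + (β : ℝ) ^ 2 = 1 := by exact_mod_cast hunit
  have e0 : ∀ u : Z2, ‖sqF p‖ < ‖sqF p - sqF (toV u)‖ ↔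
      (p.1) ^ 2 + (p.2) ^ 2 < (p.1 - u.1) ^ 2 + (p.2 - u.2) ^ 2 := by
    intro u
    have h := CellSq_lt p u 0
    rw [CellSq_zero, sub_zero] at h
    rw [h]
    simp
  have e1 : ∀ u : Z2, ‖sqF p - sqF (toV (α, β))‖ < ‖sqF p - sqF (toV u)‖ ↔
      (p.1 - α) ^ 2 + (p.2 - β) ^ 2 < (p.1 - u.1) ^ 2 + (p.2 - u.2) ^ 2 := fun u =>
    CellSq_lt p u (α, β)
  have hne : ∀ u v : Z2, u ≠ v → sqF (toV u) ≠ sqF (toV v) := fun u v h h' =>
    h (CellSq_toV (CellSq_inj h'))
  have hne0 : ∀ u : Z2, u ≠ 0 → sqF (toV u) ≠ 0 := fun u h h' =>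
    h (CellSq_toV (CellSq_inj (h'.trans CellSq_zero.symm)))
  constructor
  · intro h
    have n1 : ((-β, α) : Z2) ≠ 0 := by
      intro h'
      have h1 : -β = 0 := congrArg Prod.fst h'
      have h2 : α = 0 := congrArg Prod.snd h'
      have h3 : β = 0 := by omega
      subst h2 h3
      norm_num at hunit
    have n2 : ((-β, α) : Z2) ≠ (α, β) := by
      intro h'
      have h1 : -β = α := congrArg Prod.fst h'
      have h2 : α = β := congrArg Prod.snd h'
      have h3 : β = 0 := by omega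
      subst h2 h3
      norm_num at hunit
    have n3 : ((β, -α) : Z2) ≠ 0 := by
      intro h'
      have h1 : β = 0 := congrArg Prod.fst h'
      have h2 : -α = 0 := congrArg Prod.snd h'
      have h3 : α = 0 := by omega
      subst h1 h3
      norm_num at hunit
    have n4 : ((β, -α) : Z2) ≠ (α, β) := by
      intro h'
      have h1 : β = α := congrArg Prod.fst h'
      have h2 : -α = β := congrArg Prod.snd h'
      have h3 : α = 0 := by omega
      subst h1 h3
      norm_num at hunit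
    have n5 : ((α - β, β + α) : Z2) ≠ 0 := by
      intro h'
      have h1 : α - β = 0 := congrArg Prod.fst h'
      have h2 : β + α = 0 := congrArg Prod.snd h'
      have h3 : α = 0 := by omega
      have h4 : β = 0 := by omega
      subst h3 h4
      norm_num at hunit
    have n6 : ((α - β, β + α) : Z2) ≠ (α, β) := by
      intro h'
      have h1 : α - β = α := congrArg Prod.fst h'
      have h2 : β + α = β := congrArg Prod.snd h'
      have h3 : α = 0 := by omega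
      have h4 : β = 0 := by omega
      subst h3 h4
      norm_num at hunit
    have n7 : ((α + β, β - α) : Z2) ≠ 0 := by
      intro h'
      have h1 : α + β = 0 := congrArg Prod.fst h'
      have h2 : β - α = 0 := congrArg Prod.snd h'
      have h3 : α = 0 := by omega
      have h4 : β = 0 := by omega
      subst h3 h4
      norm_num at hunit
    have n8 : ((α + β, β - α) : Z2) ≠ (α, β) := by
      intro h'
      have h1 : α + β = α := congrArg Prod.fst h'
      have h2 : β - α = β := congrArg Prod.snd h'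
      have h3 : α = 0 := by omega
      have h4 : β = 0 := by omega
      subst h3 h4
      norm_num at hunit
    have a1 := (e1 (-β, α)).1 (h _ ⟨(-β, α), rfl⟩ (hne0 _ n1) (hne _ _ n2)).2
    have a2 := (e1 (β, -α)).1 (h _ ⟨(β, -α), rfl⟩ (hne0 _ n3) (hne _ _ n4)).2
    have a3 := (e0 (α - β, β + α)).1 (h _ ⟨(α - β, β + α), rfl⟩ (hne0 _ n5) (hne _ _ n6)).1
    have a4 := (e0 (α + β, β - α)).1 (h _ ⟨(α + β, β - α), rfl⟩ (hne0 _ n7) (hne _ _ n8)).1
    push_cast at a1 a2 a3 a4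
    refine ⟨abs_lt.2 ⟨?_, ?_⟩, abs_lt.2 ⟨?_, ?_⟩⟩
    · nlinarith
    · nlinarith
    · nlinarith
    · nlinarith
  · rintro ⟨h1, h2⟩
    rintro _ ⟨u, rfl⟩ hu0 hu1
    have m0 : u ≠ 0 := fun h => hu0 (by
      subst h
      exact CellSq_zero)
    have m1 : u ≠ (α, β) := fun h => hu1 (by rw [h])
    obtain ⟨x, y⟩ := u
    have k1 : x ^ 2 + y ^ 2 = (α * x + β * y) ^ 2 + (α * y - β * x) ^ 2 := by
      linear_combination (-(x ^ 2 + y ^ 2)) * hunit
    have kx : x = α * (α * x + β * y) - β * (α * y - β * x) := by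
      linear_combination (-x) * hunit
    have ky : y = β * (α * x + β * y) + α * (α * y - β * x) := by
      linear_combination (-y) * hunit
    have g0 : ¬ (α * x + β * y = 0 ∧ α * y - β * x = 0) := by
      rintro ⟨c1, c2⟩
      rw [c1, c2] at kx ky
      exact m0 (Prod.ext (by simpa using kx) (by simpa using ky))
    have g1 : ¬ (α * x + β * y = 1 ∧ α * y - β * x = 0) := by
      rintro ⟨c1, c2⟩
      rw [c1, c2] at kx ky
      exact m1 (Prod.ext (by simpa using kx) (by simpa using ky))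
    have b1 := CellSq_ineq h1 h2 (α * x + β * y) (α * y - β * x) g0 g1
    have h1' : |-(α * p.2 - β * p.1 : ℝ)| < 1 - (α * p.1 + β * p.2) := by rwa [abs_neg]
    have h2' : |-(α * p.2 - β * p.1 : ℝ)| < 1 - (1 - (α * p.1 + β * p.2)) := by
      rw [abs_neg]
      linarith
    have b2 := CellSq_ineq h1' h2' (1 - (α * x + β * y)) (-(α * y - β * x))
      (by rintro ⟨c1, c2⟩; exact g1 ⟨by linarith, by linarith⟩)
      (by rintro ⟨c1, c2⟩; exact g0 ⟨by linarith, by linarith⟩)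
    push_cast at b1 b2
    have k1' : (x : ℝ) ^ 2 + (y : ℝ) ^ 2 =
        (α * x + β * y : ℝ) ^ 2 + (α * y - β * x : ℝ) ^ 2 := by exact_mod_cast k1
    have k2 : (α * p.1 + β * p.2 : ℝ) * (α * x + β * y) + (α * p.2 - β * p.1) * (α * y - β * x) =
        p.1 * x + p.2 * y := by
      linear_combination (p.1 * x + p.2 * y) * hunit'
    refine ⟨(e0 (x, y)).2 ?_, (e1 (x, y)).2 ?_⟩
    · simp only
      nlinarith
    · simp only
      nlinarith

end Pool.H3JG
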