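import Pool.Agent.Helper3.JD.CellSq

/-!
# Jigsaw tiles on a lattice: order two cells of the square lattice are at the edges

Let `p` be in the cell of `0` and `w` and let `u` be a lattice point different from `0` and `w`. Then
`|p|^2 + |p - w|^2 < |p - u|^2 + |p - (w - u)|^2`, that is `u · (w - u) < 0`. For `w = (a, b)` with
`a, b ≠ 0` this is false for `u = (a, 0)`, and for `w = (a, 0)`, `|a| ≥ 2`, it is false for
`u = (sign a, 0)`. So `w = dir e`, and then use `sq_cell2`.
-/

namespace Pool.H3JG

open Set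

private theorem CellSq1_nsq (q : V) : ‖sqF q‖ ^ 2 = q.1 ^ 2 + q.2 ^ 2 := by
  rw [EuclideanSpace.norm_sq_eq, Fin.sum_univ_two]
  simp [sqF]

private theorem CellSq1_sub (p q : V) : sqF p - sqF q = sqF (p - q) := by
  ext i
  fin_cases i <;> simp [sqF]

private theorem CellSq1_inj {u v : Z2} (h : sqF (toV u) = sqF (toV v)) : u = v := by
  have h0 := congrArg (fun q : E => q 0) h
  have h1 := congrArg (fun q : E => q 1) h
  simp only [sqF, toV, PiLp.toLp_apply, Matrix.cons_val_zero, Matrix.cons_val_one] at h0 h1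
  exact Prod.ext (by exact_mod_cast h0) (by exact_mod_cast h1)

private theorem CellSq1_zero : sqF (toV 0) = 0 := by
  ext i
  fin_cases i <;> simp [sqF, toV]

private theorem CellSq1_key {p : V} {W U : Z2}
    (hp : sqF p ∈ Cell (range (fun z : Z2 => sqF (toV z))) (sqF (toV W)))
    (h0 : U ≠ 0) (h1 : U ≠ W) : U.1 * (W.1 - U.1) + U.2 * (W.2 - U.2) < 0 := by
  have hU0 : sqF (toV U) ≠ 0 := fun h => h0 (CellSq1_inj (h.trans CellSq1_zero.symm))
  have hUW : sqF (toV U) ≠ sqF (toV W) := fun h => h1 (CellSq1_inj h)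
  have hV0 : sqF (toV (W - U)) ≠ 0 := fun h => h1
    (sub_eq_zero.1 (CellSq1_inj (h.trans CellSq1_zero.symm))).symm
  have hVW : sqF (toV (W - U)) ≠ sqF (toV W) := fun h => h0 (by
    have h2 := CellSq1_inj h
    simpa using h2)
  have a1 := (hp _ ⟨U, rfl⟩ hU0 hUW).1
  have a2 := (hp _ ⟨W - U, rfl⟩ hV0 hVW).2
  simp only [] at a1 a2
  rw [CellSq1_sub] at a1
  rw [CellSq1_sub, CellSq1_sub] at a2
  have b1 := pow_lt_pow_left₀ a1 (norm_nonneg _) two_ne_zero
  have b2 := pow_lt_pow_left₀ a2 (norm_nonneg _) two_ne_zero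
  rw [CellSq1_nsq, CellSq1_nsq] at b1 b2
  simp only [toV, Prod.fst_sub, Prod.snd_sub] at b1 b2
  push_cast at b1 b2
  have h : (U.1 : ℝ) * (W.1 - U.1) + U.2 * (W.2 - U.2) < 0 := by nlinarith
  exact_mod_cast h

theorem sq_cell1 {w : E} (hw : w ∈ range (fun z : Z2 => sqF (toV z))) (h0 : w ≠ 0) :
    Cell (range (fun z : Z2 => sqF (toV z))) w ⊆ ⋃ e, sqF '' gridSq.U e := by
  obtain ⟨⟨a, b⟩, rfl⟩ := hw
  intro q hq
  obtain ⟨p, rfl⟩ : ∃ p : V, sqF p = q := by
    refine ⟨(q 0, q 1), ?_⟩
    ext i
    fin_cases i <;> simp [sqF]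
  have key : ∃ e : ZMod 4, sqDir e = (a, b) := by
    by_cases ha : a = 0
    · subst ha
      have hb : b ≠ 0 := by
        rintro rfl
        exact h0 CellSq1_zero
      have h1 : b = 1 ∨ b = -1 := by
        by_contra hcon
        rcases lt_or_gt_of_ne hb with hb1 | hb1
        · have h2 := CellSq1_key (U := (0, -1)) hq (by decide)
            (fun h => hcon (Or.inr (congrArg Prod.snd h).symm))
          simp only [] at h2
          omega
        · have h2 := CellSq1_key (U := (0, 1)) hq (by decide)
            (fun h => hcon (Or.inl (congrArg Prod.snd h).symm))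
          simp only [] at h2
          omega
      rcases h1 with rfl | rfl
      · exact ⟨1, by decide⟩
      · exact ⟨3, by decide⟩
    · by_cases hb : b = 0
      · subst hb
        have h1 : a = 1 ∨ a = -1 := by
          by_contra hcon
          rcases lt_or_gt_of_ne ha with ha1 | ha1
          · have h2 := CellSq1_key (U := (-1, 0)) hq (by decide)
              (fun h => hcon (Or.inr (congrArg Prod.fst h).symm))
            simp only [] at h2
            omega
          · have h2 := CellSq1_key (U := (1, 0)) hq (by decide)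
              (fun h => hcon (Or.inl (congrArg Prod.fst h).symm))
            simp only [] at h2
            omega
        rcases h1 with rfl | rfl
        · exact ⟨0, by decide⟩
        · exact ⟨2, by decide⟩
      · exfalso
        have h2 := CellSq1_key (U := (a, 0)) hq (fun h => ha (congrArg Prod.fst h))
          (fun h => hb (congrArg Prod.snd h).symm)
        simp at h2
  obtain ⟨e, he⟩ := key
  refine Set.mem_iUnion.2 ⟨e, ?_⟩
  rw [← sq_cell2 e, he]
  exact hq

end Pool.H3JG
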