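import Pool.Agent.Helper3.JD.TmplD

/-!
# Jigsaw tiles on a lattice: the templates
-/

namespace Pool.H3JG

theorem tmD6_36 (R : ZMod 6 → ZMod 6 → Bool → Prop)
    (hR : ∀ b, Nat.testBit 38084725605098652800 b = true → Rb R b) : GoodD 3 hexMat hexDir R :=
  goodD_of_tab2 3 hexMat hexDir R 4 (fun x y => (![![(0, false), (0, true), (0, false), (0, true)], ![(2, false), (4, true), (2, false), (4, true)], ![(0, true), (0, false), (0, true), (0, false)], ![(4, true), (2, false), (4, true), (2, false)]] : Fin 4 → Fin 4 → Lab 6) y x)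
    (mask := 38084725605098652800) 1 (by decide +kernel) hR

theorem tmD6_37 (R : ZMod 6 → ZMod 6 → Bool → Prop)
    (hR : ∀ b, Nat.testBit 41542364150245621840 b = true → Rb R b) : GoodD 3 hexMat hexDir R :=
  goodD_of_tab2 3 hexMat hexDir R 4 (fun x y => (![![(0, false), (0, false), (0, false), (0, false)], ![(5, false), (5, false), (5, false), (5, false)], ![(3, true), (3, true), (3, true), (3, true)], ![(4, true), (4, true), (4, true), (4, true)]] : Fin 4 → Fin 4 → Lab 6) y x)
    (mask := 41542364150245621840) 1 (by decide +kernel) hR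

theorem tmD6_38 (R : ZMod 6 → ZMod 6 → Bool → Prop)
    (hR : ∀ b, Nat.testBit 46153205949921493280 b = true → Rb R b) : GoodD 3 hexMat hexDir R :=
  goodD_of_tab2 3 hexMat hexDir R 4 (fun x y => (![![(0, false), (5, false), (0, false), (5, false)], ![(3, true), (4, true), (3, true), (4, true)], ![(5, false), (0, false), (5, false), (0, false)], ![(4, true), (3, true), (4, true), (3, true)]] : Fin 4 → Fin 4 → Lab 6) y x)
    (mask := 46153205949921493280) 0 (by decide +kernel) hR

theorem tmD6_39 (R : ZMod 6 → ZMod 6 → Bool → Prop)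
    (hR : ∀ b, Nat.testBit 83013235651402269200 b = true → Rb R b) : GoodD 3 hexMat hexDir R :=
  goodD_of_tab2 3 hexMat hexDir R 4 (fun x y => (![![(0, false), (1, false), (0, false), (1, false)], ![(3, true), (2, true), (3, true), (2, true)], ![(1, false), (0, false), (1, false), (0, false)], ![(2, true), (3, true), (2, true), (3, true)]] : Fin 4 → Fin 4 → Lab 6) y x)
    (mask := 83013235651402269200) 0 (by decide +kernel) hR

theorem tmD6_40 (R : ZMod 6 → ZMod 6 → Bool → Prop)
    (hR : ∀ b, Nat.testBit 76104149230229653520 b = true → Rb R b) : GoodD 3 hexMat hexDir R :=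
  goodD_of_tab2 3 hexMat hexDir R 4 (fun x y => (![![(0, false), (1, false), (0, false), (1, false)], ![(2, true), (3, true), (2, true), (3, true)], ![(1, false), (0, false), (1, false), (0, false)], ![(3, true), (2, true), (3, true), (2, true)]] : Fin 4 → Fin 4 → Lab 6) y x)
    (mask := 76104149230229653520) 0 (by decide +kernel) hR

theorem tmD6_41 (R : ZMod 6 → ZMod 6 → Bool → Prop)
    (hR : ∀ b, Nat.testBit 92235198266929709440 b = true → Rb R b) : GoodD 3 hexMat hexDir R :=
  goodD_of_tab2 3 hexMat hexDir R 4 (fun x y => (![![(0, false), (5, false), (5, true), (0, true)], ![(0, false), (5, false), (5, true), (0, true)], ![(0, false), (5, false), (5, true), (0, true)], ![(0, false), (5, false), (5, true), (0, true)]] : Fin 4 → Fin 4 → Lab 6) y x)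
    (mask := 92235198266929709440) 0 (by decide +kernel) hR

theorem tmD6_42 (R : ZMod 6 → ZMod 6 → Bool → Prop)
    (hR : ∀ b, Nat.testBit 110686164417910939720 b = true → Rb R b) : GoodD 3 hexMat hexDir R :=
  goodD_of_tab2 3 hexMat hexDir R 4 (fun x y => (![![(0, false), (0, false), (0, false), (0, false)], ![(4, true), (4, true), (4, true), (4, true)], ![(3, true), (3, true), (3, true), (3, true)], ![(5, false), (5, false), (5, false), (5, false)]] : Fin 4 → Fin 4 → Lab 6) y x)
    (mask := 110686164417910939720) 1 (by decide +kernel) hR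

theorem tmD6_43 (R : ZMod 6 → ZMod 6 → Bool → Prop)
    (hR : ∀ b, Nat.testBit 152190846037045412480 b = true → Rb R b) : GoodD 3 hexMat hexDir R :=
  goodD_of_tab2 3 hexMat hexDir R 4 (fun x y => (![![(0, false), (1, true), (1, false), (0, true)], ![(0, true), (0, false), (1, true), (1, false)], ![(1, false), (0, true), (0, false), (1, true)], ![(1, true), (1, false), (0, true), (0, false)]] : Fin 4 → Fin 4 → Lab 6) y x)
    (mask := 152190846037045412480) 1 (by decide +kernel) hR

theorem tmD6_44 (R : ZMod 6 → ZMod 6 → Bool → Prop)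
    (hR : ∀ b, Nat.testBit 184476870466643173640 b = true → Rb R b) : GoodD 3 hexMat hexDir R :=
  goodD_of_tab2 3 hexMat hexDir R 4 (fun x y => (![![(0, false), (5, false), (0, false), (5, false)], ![(4, true), (3, true), (4, true), (3, true)], ![(5, false), (0, false), (5, false), (0, false)], ![(3, true), (4, true), (3, true), (4, true)]] : Fin 4 → Fin 4 → Lab 6) y x)
    (mask := 184476870466643173640) 0 (by decide +kernel) hR

theorem tmD6_45 (R : ZMod 6 → ZMod 6 → Bool → Prop)
    (hR : ∀ b, Nat.testBit 5841174219630593025 b = true → Rb R b) : GoodD 3 hexMat hexDir R :=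
  goodD_of_tab2 3 hexMat hexDir R 2 (fun x y => (![![(0, false), (3, false)], ![(5, false), (2, false)]] : Fin 2 → Fin 2 → Lab 6) y x)
    (mask := 5841174219630593025) 1 (by decide +kernel) hR

theorem tmD6_46 (R : ZMod 6 → ZMod 6 → Bool → Prop)
    (hR : ∀ b, Nat.testBit 149951996131620702240 b = true → Rb R b) : GoodD 3 hexMat hexDir R :=
  goodD_of_tab2 3 hexMat hexDir R 2 (fun x y => (![![(0, false), (2, true)], ![(3, false), (5, true)]] : Fin 2 → Fin 2 → Lab 6) y x)
    (mask := 149951996131620702240) 0 (by decide +kernel) hR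

theorem tmD6_47 (R : ZMod 6 → ZMod 6 → Bool → Prop)
    (hR : ∀ b, Nat.testBit 296590185230043841600 b = true → Rb R b) : GoodD 3 hexMat hexDir R :=
  goodD_of_tab2 3 hexMat hexDir R 4 (fun x y => (![![(0, false), (0, false), (0, false), (0, false)], ![(0, true), (0, true), (0, true), (0, true)], ![(4, true), (4, true), (4, true), (4, true)], ![(2, false), (2, false), (2, false), (2, false)]] : Fin 4 → Fin 4 → Lab 6) y x)
    (mask := 296590185230043841600) 4 (by decide +kernel) hR

theorem tmD6_48 (R : ZMod 6 → ZMod 6 → Bool → Prop)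
    (hR : ∀ b, Nat.testBit 332331876775123493000 b = true → Rb R b) : GoodD 3 hexMat hexDir R :=
  goodD_of_tab2 3 hexMat hexDir R 4 (fun x y => (![![(0, false), (0, true), (0, false), (0, true)], ![(4, true), (2, false), (4, true), (2, false)], ![(0, true), (0, false), (0, true), (0, false)], ![(2, false), (4, true), (2, false), (4, true)]] : Fin 4 → Fin 4 → Lab 6) y x)
    (mask := 332331876775123493000) 1 (by decide +kernel) hR

theorem tmD6_49 (R : ZMod 6 → ZMod 6 → Bool → Prop)
    (hR : ∀ b, Nat.testBit 332331877875708858500 b = true → Rb R b) : GoodD 3 hexMat hexDir R :=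
  goodD_of_tab2 3 hexMat hexDir R 4 (fun x y => (![![(0, false), (0, true), (0, false), (0, true)], ![(4, false), (2, true), (4, false), (2, true)], ![(0, true), (0, false), (0, true), (0, false)], ![(2, true), (4, false), (2, true), (4, false)]] : Fin 4 → Fin 4 → Lab 6) y x)
    (mask := 332331877875708858500) 1 (by decide +kernel) hR

theorem tmD6_50 (R : ZMod 6 → ZMod 6 → Bool → Prop)
    (hR : ∀ b, Nat.testBit 313900911705943318600 b = true → Rb R b) : GoodD 3 hexMat hexDir R :=
  goodD_of_tab2 3 hexMat hexDir R 4 (fun x y => (![![(0, false), (0, false), (0, false), (0, false)], ![(0, true), (0, true), (0, true), (0, true)], ![(2, true), (2, true), (2, true), (2, true)], ![(4, false), (4, false), (4, false), (4, false)]] : Fin 4 → Fin 4 → Lab 6) y x)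
    (mask := 313900911705943318600) 4 (by decide +kernel) hR

theorem tmD6_51 (R : ZMod 6 → ZMod 6 → Bool → Prop)
    (hR : ∀ b, Nat.testBit 369295244211255328785 b = true → Rb R b) : GoodD 3 hexMat hexDir R :=
  goodD_of_tab2 3 hexMat hexDir R 2 (fun x y => (![![(0, false), (1, false)], ![(3, false), (4, false)]] : Fin 2 → Fin 2 → Lab 6) y x)
    (mask := 369295244211255328785) 0 (by decide +kernel) hR

theorem tmD6_52 (R : ZMod 6 → ZMod 6 → Bool → Prop)
    (hR : ∀ b, Nat.testBit 369295244211456593940 b = true → Rb R b) : GoodD 3 hexMat hexDir R :=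
  goodD_of_tab2 3 hexMat hexDir R 4 (fun x y => (![![(0, false), (1, false), (0, false), (1, false)], ![(4, false), (3, false), (4, false), (3, false)], ![(1, false), (0, false), (1, false), (0, false)], ![(3, false), (4, false), (3, false), (4, false)]] : Fin 4 → Fin 4 → Lab 6) y x)
    (mask := 369295244211456593940) 0 (by decide +kernel) hR

theorem tmD6_53 (R : ZMod 6 → ZMod 6 → Bool → Prop)
    (hR : ∀ b, Nat.testBit 593179241189502683200 b = true → Rb R b) : GoodD 3 hexMat hexDir R :=
  goodD_of_tab2 3 hexMat hexDir R 4 (fun x y => (![![(0, false), (0, false), (0, false), (0, false)], ![(2, false), (2, false), (2, false), (2, false)], ![(4, true), (4, true), (4, true), (4, true)], ![(0, true), (0, true), (0, true), (0, true)]] : Fin 4 → Fin 4 → Lab 6) y x)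
    (mask := 593179241189502683200) 1 (by decide +kernel) hR

theorem tmD6_54 (R : ZMod 6 → ZMod 6 → Bool → Prop)
    (hR : ∀ b, Nat.testBit 595488461420591841440 b = true → Rb R b) : GoodD 3 hexMat hexDir R :=
  goodD_of_tab2 3 hexMat hexDir R 4 (fun x y => (![![(0, false), (0, true), (1, false), (1, true)], ![(1, true), (0, false), (0, true), (1, false)], ![(1, false), (1, true), (0, false), (0, true)], ![(0, true), (1, false), (1, true), (0, false)]] : Fin 4 → Fin 4 → Lab 6) y x)
    (mask := 595488461420591841440) 0 (by decide +kernel) hR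

theorem tmD6_55 (R : ZMod 6 → ZMod 6 → Bool → Prop)
    (hR : ∀ b, Nat.testBit 609320141239379689600 b = true → Rb R b) : GoodD 3 hexMat hexDir R :=
  goodD_of_tab2 3 hexMat hexDir R 2 (fun x y => (![![(0, false), (0, true)], ![(0, false), (0, true)]] : Fin 2 → Fin 2 → Lab 6) y x)
    (mask := 609320141239379689600) 0 (by decide +kernel) hR

theorem tmD6_56 (R : ZMod 6 → ZMod 6 → Bool → Prop)
    (hR : ∀ b, Nat.testBit 609320141514140287120 b = true → Rb R b) : GoodD 3 hexMat hexDir R :=
  goodD_of_tab2 3 hexMat hexDir R 4 (fun x y => (![![(0, false), (0, true), (5, true), (5, false)], ![(0, false), (0, true), (5, true), (5, false)], ![(0, false), (0, true), (5, true), (5, false)], ![(0, false), (0, true), (5, true), (5, false)]] : Fin 4 → Fin 4 → Lab 6) y x)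
    (mask := 609320141514140287120) 0 (by decide +kernel) hR

theorem tmD6_57 (R : ZMod 6 → ZMod 6 → Bool → Prop)
    (hR : ∀ b, Nat.testBit 609320143440416088200 b = true → Rb R b) : GoodD 3 hexMat hexDir R :=
  goodD_of_tab2 3 hexMat hexDir R 4 (fun x y => (![![(0, false), (0, true), (2, false), (2, true)], ![(0, false), (0, true), (2, false), (2, true)], ![(0, false), (0, true), (2, false), (2, true)], ![(0, false), (0, true), (2, false), (2, true)]] : Fin 4 → Fin 4 → Lab 6) y x)
    (mask := 609320143440416088200) 0 (by decide +kernel) hR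

theorem tmD6_58 (R : ZMod 6 → ZMod 6 → Bool → Prop)
    (hR : ∀ b, Nat.testBit 609321269271604502600 b = true → Rb R b) : GoodD 3 hexMat hexDir R :=
  goodD_of_tab2 3 hexMat hexDir R 4 (fun x y => (![![(0, false), (0, false), (0, false), (0, false)], ![(2, true), (2, true), (2, true), (2, true)], ![(4, false), (4, false), (4, false), (4, false)], ![(0, true), (0, true), (0, true), (0, true)]] : Fin 4 → Fin 4 → Lab 6) y x)
    (mask := 609321269271604502600) 1 (by decide +kernel) hR

theorem tmD6_59 (R : ZMod 6 → ZMod 6 → Bool → Prop)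
    (hR : ∀ b, Nat.testBit 627768012330628026500 b = true → Rb R b) : GoodD 3 hexMat hexDir R :=
  goodD_of_tab2 3 hexMat hexDir R 4 (fun x y => (![![(0, false), (0, true), (4, true), (4, false)], ![(4, false), (0, false), (0, true), (4, true)], ![(4, true), (4, false), (0, false), (0, true)], ![(0, true), (4, true), (4, false), (0, false)]] : Fin 4 → Fin 4 → Lab 6) y x)
    (mask := 627768012330628026500) 0 (by decide +kernel) hR

theorem tmD6_60 (R : ZMod 6 → ZMod 6 → Bool → Prop)
    (hR : ∀ b, Nat.testBit 627766887462586032200 b = true → Rb R b) : GoodD 3 hexMat hexDir R :=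
  goodD_of_tab2 3 hexMat hexDir R 4 (fun x y => (![![(0, false), (0, false), (0, false), (0, false)], ![(4, true), (4, true), (4, true), (4, true)], ![(2, false), (2, false), (2, false), (2, false)], ![(0, true), (0, true), (0, true), (0, true)]] : Fin 4 → Fin 4 → Lab 6) y x)
    (mask := 627766887462586032200) 1 (by decide +kernel) hR

theorem tmD6_61 (R : ZMod 6 → ZMod 6 → Bool → Prop)
    (hR : ∀ b, Nat.testBit 600104654753897775105 b = true → Rb R b) : GoodD 3 hexMat hexDir R :=
  goodD_of_tab2 3 hexMat hexDir R 2 (fun x y => (![![(0, false), (3, false)], ![(0, true), (3, true)]] : Fin 2 → Fin 2 → Lab 6) y x)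
    (mask := 600104654753897775105) 1 (by decide +kernel) hR

theorem tmD6_62 (R : ZMod 6 → ZMod 6 → Bool → Prop)
    (hR : ∀ b, Nat.testBit 609355079252076204100 b = true → Rb R b) : GoodD 3 hexMat hexDir R :=
  goodD_of_tab2 3 hexMat hexDir R 4 (fun x y => (![![(0, false), (0, false), (0, false), (0, false)], ![(4, false), (4, false), (4, false), (4, false)], ![(2, true), (2, true), (2, true), (2, true)], ![(0, true), (0, true), (0, true), (0, true)]] : Fin 4 → Fin 4 → Lab 6) y x)
    (mask := 609355079252076204100) 1 (by decide +kernel) hR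

theorem tmD6_63 (R : ZMod 6 → ZMod 6 → Bool → Prop)
    (hR : ∀ b, Nat.testBit 1185225846728775700485 b = true → Rb R b) : GoodD 3 hexMat hexDir R :=
  goodD_of_tab2 3 hexMat hexDir R 2 (fun x y => (![![(0, false), (2, false)], ![(5, false), (3, false)]] : Fin 2 → Fin 2 → Lab 6) y x)
    (mask := 1185225846728775700485) 0 (by decide +kernel) hR

theorem tmD6_64 (R : ZMod 6 → ZMod 6 → Bool → Prop)
    (hR : ∀ b, Nat.testBit 1180628248198780559880 b = true → Rb R b) : GoodD 3 hexMat hexDir R :=
  goodD_of_tab2 3 hexMat hexDir R 2 (fun x y => (![![(0, false), (1, true)], ![(4, true), (3, false)]] : Fin 2 → Fin 2 → Lab 6) y x)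
    (mask := 1180628248198780559880) 0 (by decide +kernel) hR

theorem tmD6_65 (R : ZMod 6 → ZMod 6 → Bool → Prop)
    (hR : ∀ b, Nat.testBit 1181816882666764780800 b = true → Rb R b) : GoodD 3 hexMat hexDir R :=
  goodD_of_tab2 3 hexMat hexDir R 2 (fun x y => (![![(0, false), (4, false)], ![(1, false), (3, false)]] : Fin 2 → Fin 2 → Lab 6) y x)
    (mask := 1181816882666764780800) 0 (by decide +kernel) hR

theorem tmD6_66 (R : ZMod 6 → ZMod 6 → Bool → Prop)
    (hR : ∀ b, Nat.testBit 1181816885964293080320 b = true → Rb R b) : GoodD 3 hexMat hexDir R :=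
  goodD_of_tab2 3 hexMat hexDir R 4 (fun x y => (![![(0, false), (5, false), (0, false), (5, false)], ![(2, false), (3, false), (2, false), (3, false)], ![(5, false), (0, false), (5, false), (0, false)], ![(3, false), (2, false), (3, false), (2, false)]] : Fin 4 → Fin 4 → Lab 6) y x)
    (mask := 1181816885964293080320) 0 (by decide +kernel) hR

theorem tmD6_67 (R : ZMod 6 → ZMod 6 → Bool → Prop)
    (hR : ∀ b, Nat.testBit 1185279873432435036165 b = true → Rb R b) : GoodD 3 hexMat hexDir R :=
  goodD_of_tab2 3 hexMat hexDir R 4 (fun x y => (![![(0, false), (3, false), (1, false), (4, false)], ![(4, false), (0, false), (3, false), (1, false)], ![(1, false), (4, false), (0, false), (3, false)], ![(3, false), (1, false), (4, false), (0, false)]] : Fin 4 → Fin 4 → Lab 6) y x)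
    (mask := 1185279873432435036165) 1 (by decide +kernel) hR

theorem tmD6_68 (R : ZMod 6 → ZMod 6 → Bool → Prop)
    (hR : ∀ b, Nat.testBit 1254468756965811109905 b = true → Rb R b) : GoodD 3 hexMat hexDir R :=
  goodD_of_tab2 3 hexMat hexDir R 4 (fun x y => (![![(0, false), (1, false), (0, false), (1, false)], ![(3, false), (4, false), (3, false), (4, false)], ![(1, false), (0, false), (1, false), (0, false)], ![(4, false), (3, false), (4, false), (3, false)]] : Fin 4 → Fin 4 → Lab 6) y x)
    (mask := 1254468756965811109905) 0 (by decide +kernel) hR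

theorem tmD6_69 (R : ZMod 6 → ZMod 6 → Bool → Prop)
    (hR : ∀ b, Nat.testBit 1254468756966012375060 b = true → Rb R b) : GoodD 3 hexMat hexDir R :=
  goodD_of_tab2 3 hexMat hexDir R 2 (fun x y => (![![(0, false), (1, false)], ![(4, false), (3, false)]] : Fin 2 → Fin 2 → Lab 6) y x)
    (mask := 1254468756966012375060) 0 (by decide +kernel) hR

theorem tmD6_70 (R : ZMod 6 → ZMod 6 → Bool → Prop)
    (hR : ∀ b, Nat.testBit 1476028039123624542465 b = true → Rb R b) : GoodD 3 hexMat hexDir R :=
  goodD_of_tab2 3 hexMat hexDir R 4 (fun x y => (![![(0, false), (5, false), (0, false), (5, false)], ![(3, false), (2, false), (3, false), (2, false)], ![(5, false), (0, false), (5, false), (0, false)], ![(2, false), (3, false), (2, false), (3, false)]] : Fin 4 → Fin 4 → Lab 6) y x)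
    (mask := 1476028039123624542465) 0 (by decide +kernel) hR

theorem tmD6_71 (R : ZMod 6 → ZMod 6 → Bool → Prop)
    (hR : ∀ b, Nat.testBit 1476028042421152841985 b = true → Rb R b) : GoodD 3 hexMat hexDir R :=
  goodD_of_tab2 3 hexMat hexDir R 2 (fun x y => (![![(0, false), (3, false)], ![(1, false), (4, false)]] : Fin 2 → Fin 2 → Lab 6) y x)
    (mask := 1476028042421152841985) 1 (by decide +kernel) hR

end Pool.H3JG
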