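import Pool.Agent.Helper3.JG.Hex6C0
import Pool.Agent.Helper3.JG.Hex6C1
import Pool.Agent.Helper3.JG.Hex6C2
import Pool.Agent.Helper3.JG.Hex6C3
import Pool.Agent.Helper3.JG.Hex6C4
import Pool.Agent.Helper3.JG.Hex6C5
import Pool.Agent.Helper3.JG.Hex6C6
import Pool.Agent.Helper3.JG.Hex6C7
import Pool.Agent.Helper3.JD.Tm6DA
import Pool.Agent.Helper3.JD.Tm6DB
import Pool.Agent.Helper3.JG.Root
import Pool.Agent.Helper3.JG.GridHex

/-!
# Jigsaw tiles on a lattice: the finite core for the hexagonal lattice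
-/

namespace Pool.H3JG

theorem dl6_okD : ∀ e ∈ dl6, e.1 < 6 ∧ ∀ c, cellOK c = true →
    decC (c + e.2 - 4096) = decC c + hexDir (e.1 : ZMod 6) := by
  intro e he
  unfold dl6 at he
  simp only [List.mem_cons, List.not_mem_nil, or_false] at he
  rcases he with rfl | rfl | rfl | rfl | rfl | rfl
  · refine ⟨by norm_num, fun c hc => ?_⟩
    unfold cellOK at hc
    simp only [Bool.and_eq_true, Nat.ble_eq] at hc
    have hd : hexDir (((0 : ℕ)) : ZMod 6) = (1, 0) := by decide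
    show decC (c + 4160 - 4096) = decC c + hexDir (((0 : ℕ)) : ZMod 6)
    rw [hd]
    simp only [decC, Prod.mk_add_mk, Prod.mk.injEq]
    omega
  · refine ⟨by norm_num, fun c hc => ?_⟩
    unfold cellOK at hc
    simp only [Bool.and_eq_true, Nat.ble_eq] at hc
    have hd : hexDir (((1 : ℕ)) : ZMod 6) = (0, 1) := by decide
    show decC (c + 4097 - 4096) = decC c + hexDir (((1 : ℕ)) : ZMod 6)
    rw [hd]
    simp only [decC, Prod.mk_add_mk, Prod.mk.injEq]
    omega
  · refine ⟨by norm_num, fun c hc => ?_⟩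
    unfold cellOK at hc
    simp only [Bool.and_eq_true, Nat.ble_eq] at hc
    have hd : hexDir (((2 : ℕ)) : ZMod 6) = (-1, 1) := by decide
    show decC (c + 4033 - 4096) = decC c + hexDir (((2 : ℕ)) : ZMod 6)
    rw [hd]
    simp only [decC, Prod.mk_add_mk, Prod.mk.injEq]
    omega
  · refine ⟨by norm_num, fun c hc => ?_⟩
    unfold cellOK at hc
    simp only [Bool.and_eq_true, Nat.ble_eq] at hc
    have hd : hexDir (((3 : ℕ)) : ZMod 6) = (-1, 0) := by decide
    show decC (c + 4032 - 4096) = decC c + hexDir (((3 : ℕ)) : ZMod 6)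
    rw [hd]
    simp only [decC, Prod.mk_add_mk, Prod.mk.injEq]
    omega
  · refine ⟨by norm_num, fun c hc => ?_⟩
    unfold cellOK at hc
    simp only [Bool.and_eq_true, Nat.ble_eq] at hc
    have hd : hexDir (((4 : ℕ)) : ZMod 6) = (0, -1) := by decide
    show decC (c + 4095 - 4096) = decC c + hexDir (((4 : ℕ)) : ZMod 6)
    rw [hd]
    simp only [decC, Prod.mk_add_mk, Prod.mk.injEq]
    omega
  · refine ⟨by norm_num, fun c hc => ?_⟩
    unfold cellOK at hc
    simp only [Bool.and_eq_true, Nat.ble_eq] at hc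
    have hd : hexDir (((5 : ℕ)) : ZMod 6) = (1, -1) := by decide
    show decC (c + 4159 - 4096) = decC c + hexDir (((5 : ℕ)) : ZMod 6)
    rw [hd]
    simp only [decC, Prod.mk_add_mk, Prod.mk.injEq]
    omega

theorem good6D (R : ZMod 6 → ZMod 6 → Bool → Prop) {m : ℕ} (hm : m ∈ TM6)
    (hR : ∀ b, m.testBit b = true → Rb R b) : GoodD 3 hexMat hexDir R := by
  unfold TM6 at hm
  simp only [List.mem_cons, List.not_mem_nil, or_false] at hm
  rcases hm with rfl | rfl | rfl | rfl | rfl | rfl | rfl | rfl | rfl | rfl | rfl | rfl | rfl | rfl | rfl | rfl | rfl | rfl | rfl | rfl | rfl | rfl | rfl | rfl | rfl | rfl | rfl | rfl | rfl | rfl | rfl | rfl | rfl | rfl | rfl | rfl | rfl | rfl | rfl | rfl | rfl | rfl | rfl | rfl | rfl | rfl | rfl | rfl | rfl | rfl | rfl | rfl | rfl | rfl | rfl | rfl | rfl | rfl | rfl | rfl | rfl | rfl | rfl | rfl | rfl | rfl | rfl | rfl | rfl | rfl | rfl | rfl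
  · exact tmD6_0 R hR
  · exact tmD6_1 R hR
  · exact tmD6_2 R hR
  · exact tmD6_3 R hR
  · exact tmD6_4 R hR
  · exact tmD6_5 R hR
  · exact tmD6_6 R hR
  · exact tmD6_7 R hR
  · exact tmD6_8 R hR
  · exact tmD6_9 R hR
  · exact tmD6_10 R hR
  · exact tmD6_11 R hR
  · exact tmD6_12 R hR
  · exact tmD6_13 R hR
  · exact tmD6_14 R hR
  · exact tmD6_15 R hR
  · exact tmD6_16 R hR
  · exact tmD6_17 R hR
  · exact tmD6_18 R hR
  · exact tmD6_19 R hR
  · exact tmD6_20 R hR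
  · exact tmD6_21 R hR
  · exact tmD6_22 R hR
  · exact tmD6_23 R hR
  · exact tmD6_24 R hR
  · exact tmD6_25 R hR
  · exact tmD6_26 R hR
  · exact tmD6_27 R hR
  · exact tmD6_28 R hR
  · exact tmD6_29 R hR
  · exact tmD6_30 R hR
  · exact tmD6_31 R hR
  · exact tmD6_32 R hR
  · exact tmD6_33 R hR
  · exact tmD6_34 R hR
  · exact tmD6_35 R hR
  · exact tmD6_36 R hR
  · exact tmD6_37 R hR
  · exact tmD6_38 R hR
  · exact tmD6_39 R hR
  · exact tmD6_40 R hR
  · exact tmD6_41 R hR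
  · exact tmD6_42 R hR
  · exact tmD6_43 R hR
  · exact tmD6_44 R hR
  · exact tmD6_45 R hR
  · exact tmD6_46 R hR
  · exact tmD6_47 R hR
  · exact tmD6_48 R hR
  · exact tmD6_49 R hR
  · exact tmD6_50 R hR
  · exact tmD6_51 R hR
  · exact tmD6_52 R hR
  · exact tmD6_53 R hR
  · exact tmD6_54 R hR
  · exact tmD6_55 R hR
  · exact tmD6_56 R hR
  · exact tmD6_57 R hR
  · exact tmD6_58 R hR
  · exact tmD6_59 R hR
  · exact tmD6_60 R hR
  · exact tmD6_61 R hR
  · exact tmD6_62 R hR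
  · exact tmD6_63 R hR
  · exact tmD6_64 R hR
  · exact tmD6_65 R hR
  · exact tmD6_66 R hR
  · exact tmD6_67 R hR
  · exact tmD6_68 R hR
  · exact tmD6_69 R hR
  · exact tmD6_70 R hR
  · exact tmD6_71 R hR

/-- The class of a pair of local edges. -/
def clsZD (i j : ZMod 6) (t : Bool) : ℕ := 2 * min (j - i).val (i - j).val + (if t then 1 else 0)

theorem clsZD_add (i j a : ZMod 6) (t : Bool) : clsZD (i + a) (j + a) t = clsZD i j t := by
  unfold clsZD
  rw [add_sub_add_right_eq_sub, add_sub_add_right_eq_sub]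

theorem cls6_eqD : ∀ b < 72, cls6 b
    = clsZD ((b / 2 / 6 : ℕ) : ZMod 6) ((b / 2 % 6 : ℕ) : ZMod 6) (b % 2 == 1) := by
  decide +kernel

theorem clsZD_inv : ∀ (δ : Fin 4) (t : Fin 2) (i j : ZMod 6) (t' : Bool),
    clsZD i j t' = 2 * δ.val + t.val →
      t' = (t.val == 1) ∧ (j = i + (δ.val : ZMod 6) ∨ i = j + (δ.val : ZMod 6)) := by
  decide +kernel

/-- The relation has a pair of local edges of the class `c`. -/
def HasCD (R : ZMod 6 → ZMod 6 → Bool → Prop) (c : ℕ) : Prop :=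
  ∃ i j t, clsZD i j t = c ∧ R i j t

theorem hex_stepD {R : ZMod 6 → ZMod 6 → Bool → Prop} (hR : Closed R) (hS : Straight R)
    {g : Z2 → Lab 6} (hg : ∀ z d, Con gridHex.h R d (g z) (g (z + gridHex.dir d)))
    (tr : Tr) (δ : Fin 4) (t : Fin 2) (Q : List ℕ)
    (hchk : chk2 6 dl6 pats6 true TM6 tr (orL [bitN 6 0 δ.val t.val, bitN 6 δ.val 0 t.val])
      (outQ Q) = true)
    (hhas : HasCD R (2 * δ.val + t.val)) (hQ : ∀ c ∈ Q, ¬ HasCD R c) :
    GoodD gridHex.h gridHex.mat gridHex.dir R := by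
  have hi : ∃ i : ZMod 6, R i (i + (δ.val : ZMod 6)) (t.val == 1) := by
    obtain ⟨i, j, t', hc, hr⟩ := hhas
    obtain ⟨h1, h2⟩ := clsZD_inv δ t i j t' hc
    rcases h2 with h2 | h2
    · exact ⟨i, h2 ▸ h1 ▸ hr⟩
    · exact ⟨j, h2 ▸ h1 ▸ hR.symm _ _ _ hr⟩
  obtain ⟨i, hi⟩ := hi
  have hR' : Closed (relab (i, false) R) := relab_closed hR
  have hS' : Straight (relab (i, false) R) := relab_straight hS
  have hact : ∀ j : ZMod 6, act ((i, false) : Lab 6) j = i + j := by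
    intro j
    simp [act, sg]
  have hbase : relab (i, false) R 0 (δ.val : ZMod 6) (t.val == 1) := by
    unfold relab
    rw [hact, hact, add_zero]
    exact hi
  have hg1 : ∀ z d, Con gridHex.h (relab (i, false) R) d (lmul (g z) (i, false))
      (lmul (g (z + gridHex.dir d)) (i, false)) := fun z d => (con_relab d _ _).2 (hg z d)
  obtain ⟨g', hg', h0⟩ := gridHex.exists_root (g := fun z => lmul (g z) (i, false)) hg1 (20, 20)
  have hδ := δ.isLt
  have ht := t.isLt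
  obtain ⟨m, hm, hb⟩ := chk2_sound (n := 6) (h := 3) (dir := hexDir) (by norm_num) hR' true
    (fun _ => hS') TM6 hg' dl6_okD pats6_ok h0 tr _ _ hchk
    (fun b hb => by
      have h1 := testBit_orL _ hb
      simp only [List.mem_cons, List.not_mem_nil, or_false] at h1
      rcases h1 with rfl | rfl
      · rw [rb_bitN _ (by omega) (by omega)]
        simpa using hbase
      · rw [rb_bitN _ (by omega) (by omega)]
        simpa using hR'.symm _ _ _ hbase)
    (fun b hb hcon => by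
      have h1 := testBit_orL _ hb
      rw [List.mem_filter, List.mem_range, List.contains_iff_mem] at h1
      apply hQ _ h1.2
      rw [cls6_eqD b h1.1]
      refine ⟨_, _, _, ?_, hcon⟩
      rw [hact, hact, add_comm i, add_comm i, clsZD_add])
  exact goodD_of_relab (good6D _ hm hb)

theorem core_hexD {R : ZMod 6 → ZMod 6 → Bool → Prop} (hR : Closed R) (hS : Straight R)
    {g : Z2 → Lab 6} (hg : ∀ z d, Con gridHex.h R d (g z) (g (z + gridHex.dir d))) :
    GoodD gridHex.h gridHex.mat gridHex.dir R := by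
  by_cases h3 : HasCD R 3
  · exact hex_stepD hR hS hg tr6_0 1 1 [] chk6_0 h3 (by simp)
  by_cases h2 : HasCD R 2
  · exact hex_stepD hR hS hg tr6_1 1 0 [3] chk6_1 h2 (by simp [h3])
  by_cases h5 : HasCD R 5
  · exact hex_stepD hR hS hg tr6_2 2 1 [3, 2] chk6_2 h5 (by simp [h3, h2])
  by_cases h4 : HasCD R 4
  · exact hex_stepD hR hS hg tr6_3 2 0 [3, 2, 5] chk6_3 h4 (by simp [h3, h2, h5])
  by_cases h6 : HasCD R 6
  · exact hex_stepD hR hS hg tr6_4 3 0 [3, 2, 5, 4] chk6_4 h6 (by simp [h3, h2, h5, h4])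
  by_cases h0 : HasCD R 0
  · exact hex_stepD hR hS hg tr6_5 0 0 [3, 2, 5, 4, 6] chk6_5 h0 (by simp [h3, h2, h5, h4, h6])
  by_cases h1 : HasCD R 1
  · exact hex_stepD hR hS hg tr6_6 0 1 [3, 2, 5, 4, 6, 0] chk6_6 h1
      (by simp [h3, h2, h5, h4, h6, h0])
  by_cases h7 : HasCD R 7
  · exact hex_stepD hR hS hg tr6_7 3 1 [3, 2, 5, 4, 6, 0, 1] chk6_7 h7
      (by simp [h3, h2, h5, h4, h6, h0, h1])
  exfalso
  have key : ∀ (i j : ZMod 6) (t : Bool), clsZD i j t = 0 ∨ clsZD i j t = 1 ∨ clsZD i j t = 2 ∨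
      clsZD i j t = 3 ∨ clsZD i j t = 4 ∨ clsZD i j t = 5 ∨ clsZD i j t = 6 ∨ clsZD i j t = 7 := by
    decide +kernel
  have hc := hg 0 0
  unfold Con at hc
  rcases key _ _ _ with h | h | h | h | h | h | h | h
  · exact h0 ⟨_, _, _, h, hc⟩
  · exact h1 ⟨_, _, _, h, hc⟩
  · exact h2 ⟨_, _, _, h, hc⟩
  · exact h3 ⟨_, _, _, h, hc⟩
  · exact h4 ⟨_, _, _, h, hc⟩
  · exact h5 ⟨_, _, _, h, hc⟩
  · exact h6 ⟨_, _, _, h, hc⟩
  · exact h7 ⟨_, _, _, h, hc⟩

end Pool.H3JG
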