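import Pool.Agent.Helper3.JD.TmplD

/-!
# Jigsaw tiles on a lattice: the templates
-/

namespace Pool.H3JG

theorem tmD4_0 (R : ZMod 4 → ZMod 4 → Bool → Prop)
    (hR : ∀ b, Nat.testBit 17043520 b = true → Rb R b) : GoodD 2 sqMat sqDir R :=
  goodD_of_tab1 2 sqMat sqDir R 2 (fun x y => (![![(0, false), (3, false)], ![(1, false), (2, false)]] : Fin 2 → Fin 2 → Lab 4) y x)
    (mask := 17043520) (by decide +kernel) hR

theorem tmD4_1 (R : ZMod 4 → ZMod 4 → Bool → Prop)
    (hR : ∀ b, Nat.testBit 34087040 b = true → Rb R b) : GoodD 2 sqMat sqDir R :=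
  goodD_of_tab1 2 sqMat sqDir R 2 (fun x y => (![![(0, false), (1, true)], ![(1, true), (0, false)]] : Fin 2 → Fin 2 → Lab 4) y x)
    (mask := 34087040) (by decide +kernel) hR

theorem tmD4_2 (R : ZMod 4 → ZMod 4 → Bool → Prop)
    (hR : ∀ b, Nat.testBit 67190800 b = true → Rb R b) : GoodD 2 sqMat sqDir R :=
  goodD_of_tab1 2 sqMat sqDir R 1 (fun x y => (![![(0, false)]] : Fin 1 → Fin 1 → Lab 4) y x)
    (mask := 67190800) (by decide +kernel) hR

theorem tmD4_3 (R : ZMod 4 → ZMod 4 → Bool → Prop)
    (hR : ∀ b, Nat.testBit 67256352 b = true → Rb R b) : GoodD 2 sqMat sqDir R :=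
  goodD_of_tab1 2 sqMat sqDir R 2 (fun x y => (![![(0, false), (0, true)], ![(0, false), (0, true)]] : Fin 2 → Fin 2 → Lab 4) y x)
    (mask := 67256352) (by decide +kernel) hR

theorem tmD4_4 (R : ZMod 4 → ZMod 4 → Bool → Prop)
    (hR : ∀ b, Nat.testBit 134316048 b = true → Rb R b) : GoodD 2 sqMat sqDir R :=
  goodD_of_tab1 2 sqMat sqDir R 2 (fun x y => (![![(0, false), (0, false)], ![(2, true), (2, true)]] : Fin 2 → Fin 2 → Lab 4) y x)
    (mask := 134316048) (by decide +kernel) hR

theorem tmD4_5 (R : ZMod 4 → ZMod 4 → Bool → Prop)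
    (hR : ∀ b, Nat.testBit 134381600 b = true → Rb R b) : GoodD 2 sqMat sqDir R :=
  goodD_of_tab1 2 sqMat sqDir R 2 (fun x y => (![![(0, false), (0, true)], ![(2, true), (2, false)]] : Fin 2 → Fin 2 → Lab 4) y x)
    (mask := 134381600) (by decide +kernel) hR

theorem tmD4_6 (R : ZMod 4 → ZMod 4 → Bool → Prop)
    (hR : ∀ b, Nat.testBit 34604160 b = true → Rb R b) : GoodD 2 sqMat sqDir R :=
  goodD_of_tab1 2 sqMat sqDir R 4 (fun x y => (![![(0, false), (1, true), (3, true), (2, false)], ![(2, false), (0, false), (1, true), (3, true)], ![(3, true), (2, false), (0, false), (1, true)], ![(1, true), (3, true), (2, false), (0, false)]] : Fin 4 → Fin 4 → Lab 4) y x)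
    (mask := 34604160) (by decide +kernel) hR

theorem tmD4_7 (R : ZMod 4 → ZMod 4 → Bool → Prop)
    (hR : ∀ b, Nat.testBit 68173825 b = true → Rb R b) : GoodD 2 sqMat sqDir R :=
  goodD_of_tab1 2 sqMat sqDir R 2 (fun x y => (![![(0, false), (2, false)], ![(0, false), (2, false)]] : Fin 2 → Fin 2 → Lab 4) y x)
    (mask := 68173825) (by decide +kernel) hR

theorem tmD4_8 (R : ZMod 4 → ZMod 4 → Bool → Prop)
    (hR : ∀ b, Nat.testBit 68173826 b = true → Rb R b) : GoodD 2 sqMat sqDir R :=
  goodD_of_tab1 2 sqMat sqDir R 4 (fun x y => (![![(0, false), (2, true), (0, true), (2, false)], ![(0, false), (2, true), (0, true), (2, false)], ![(0, false), (2, true), (0, true), (2, false)], ![(0, false), (2, true), (0, true), (2, false)]] : Fin 4 → Fin 4 → Lab 4) y x)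
    (mask := 68173826) (by decide +kernel) hR

theorem tmD4_9 (R : ZMod 4 → ZMod 4 → Bool → Prop)
    (hR : ∀ b, Nat.testBit 135299073 b = true → Rb R b) : GoodD 2 sqMat sqDir R :=
  goodD_of_tab1 2 sqMat sqDir R 2 (fun x y => (![![(0, false), (2, false)], ![(2, true), (0, true)]] : Fin 2 → Fin 2 → Lab 4) y x)
    (mask := 135299073) (by decide +kernel) hR

theorem tmD4_10 (R : ZMod 4 → ZMod 4 → Bool → Prop)
    (hR : ∀ b, Nat.testBit 18876480 b = true → Rb R b) : GoodD 2 sqMat sqDir R :=
  goodD_of_tab1 2 sqMat sqDir R 4 (fun x y => (![![(0, false), (3, false), (3, true), (2, true)], ![(0, true), (1, true), (1, false), (2, false)], ![(3, true), (2, true), (0, false), (3, false)], ![(1, false), (2, false), (0, true), (1, true)]] : Fin 4 → Fin 4 → Lab 4) y x)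
    (mask := 18876480) (by decide +kernel) hR

theorem tmD4_11 (R : ZMod 4 → ZMod 4 → Bool → Prop)
    (hR : ∀ b, Nat.testBit 69222401 b = true → Rb R b) : GoodD 2 sqMat sqDir R :=
  goodD_of_tab1 2 sqMat sqDir R 4 (fun x y => (![![(0, false), (2, false), (0, true), (2, true)], ![(0, false), (2, false), (0, true), (2, true)], ![(0, false), (2, false), (0, true), (2, true)], ![(0, false), (2, false), (0, true), (2, true)]] : Fin 4 → Fin 4 → Lab 4) y x)
    (mask := 69222401) (by decide +kernel) hR

theorem tmD4_12 (R : ZMod 4 → ZMod 4 → Bool → Prop)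
    (hR : ∀ b, Nat.testBit 69222402 b = true → Rb R b) : GoodD 2 sqMat sqDir R :=
  goodD_of_tab1 2 sqMat sqDir R 2 (fun x y => (![![(0, false), (2, true)], ![(0, false), (2, true)]] : Fin 2 → Fin 2 → Lab 4) y x)
    (mask := 69222402) (by decide +kernel) hR

theorem tmD4_13 (R : ZMod 4 → ZMod 4 → Bool → Prop)
    (hR : ∀ b, Nat.testBit 136347650 b = true → Rb R b) : GoodD 2 sqMat sqDir R :=
  goodD_of_tab1 2 sqMat sqDir R 2 (fun x y => (![![(0, false), (2, true)], ![(2, true), (0, false)]] : Fin 2 → Fin 2 → Lab 4) y x)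
    (mask := 136347650) (by decide +kernel) hR

theorem tmD4_14 (R : ZMod 4 → ZMod 4 → Bool → Prop)
    (hR : ∀ b, Nat.testBit 272630020 b = true → Rb R b) : GoodD 2 sqMat sqDir R :=
  goodD_of_tab1 2 sqMat sqDir R 2 (fun x y => (![![(0, false), (1, false)], ![(3, false), (2, false)]] : Fin 2 → Fin 2 → Lab 4) y x)
    (mask := 272630020) (by decide +kernel) hR

theorem tmD4_15 (R : ZMod 4 → ZMod 4 → Bool → Prop)
    (hR : ∀ b, Nat.testBit 272631810 b = true → Rb R b) : GoodD 2 sqMat sqDir R :=
  goodD_of_tab1 2 sqMat sqDir R 4 (fun x y => (![![(0, false), (2, true), (1, true), (1, false)], ![(0, true), (2, false), (3, false), (3, true)], ![(1, true), (1, false), (0, false), (2, true)], ![(3, false), (3, true), (0, true), (2, false)]] : Fin 4 → Fin 4 → Lab 4) y x)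
    (mask := 272631810) (by decide +kernel) hR

theorem tmD4_16 (R : ZMod 4 → ZMod 4 → Bool → Prop)
    (hR : ∀ b, Nat.testBit 545260040 b = true → Rb R b) : GoodD 2 sqMat sqDir R :=
  goodD_of_tab1 2 sqMat sqDir R 2 (fun x y => (![![(0, false), (3, true)], ![(3, true), (0, false)]] : Fin 2 → Fin 2 → Lab 4) y x)
    (mask := 545260040) (by decide +kernel) hR

theorem tmD4_17 (R : ZMod 4 → ZMod 4 → Bool → Prop)
    (hR : ∀ b, Nat.testBit 545260545 b = true → Rb R b) : GoodD 2 sqMat sqDir R :=
  goodD_of_tab1 2 sqMat sqDir R 4 (fun x y => (![![(0, false), (2, false), (1, true), (3, true)], ![(2, false), (1, true), (3, true), (0, false)], ![(1, true), (3, true), (0, false), (2, false)], ![(3, true), (0, false), (2, false), (1, true)]] : Fin 4 → Fin 4 → Lab 4) y x)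
    (mask := 545260545) (by decide +kernel) hR

theorem tmD4_18 (R : ZMod 4 → ZMod 4 → Bool → Prop)
    (hR : ∀ b, Nat.testBit 1073808400 b = true → Rb R b) : GoodD 2 sqMat sqDir R :=
  goodD_of_tab1 2 sqMat sqDir R 2 (fun x y => (![![(0, false), (0, false)], ![(2, false), (2, false)]] : Fin 2 → Fin 2 → Lab 4) y x)
    (mask := 1073808400) (by decide +kernel) hR

theorem tmD4_19 (R : ZMod 4 → ZMod 4 → Bool → Prop)
    (hR : ∀ b, Nat.testBit 1073873952 b = true → Rb R b) : GoodD 2 sqMat sqDir R :=
  goodD_of_tab1 2 sqMat sqDir R 2 (fun x y => (![![(0, false), (0, true)], ![(2, false), (2, true)]] : Fin 2 → Fin 2 → Lab 4) y x)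
    (mask := 1073873952) (by decide +kernel) hR

theorem tmD4_20 (R : ZMod 4 → ZMod 4 → Bool → Prop)
    (hR : ∀ b, Nat.testBit 1073809424 b = true → Rb R b) : GoodD 2 sqMat sqDir R :=
  goodD_of_tab1 2 sqMat sqDir R 4 (fun x y => (![![(0, false), (0, false), (0, false), (0, false)], ![(0, true), (0, true), (0, true), (0, true)], ![(2, true), (2, true), (2, true), (2, true)], ![(2, false), (2, false), (2, false), (2, false)]] : Fin 4 → Fin 4 → Lab 4) y x)
    (mask := 1073809424) (by decide +kernel) hR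

theorem tmD4_21 (R : ZMod 4 → ZMod 4 → Bool → Prop)
    (hR : ∀ b, Nat.testBit 1074274305 b = true → Rb R b) : GoodD 2 sqMat sqDir R :=
  goodD_of_tab1 2 sqMat sqDir R 4 (fun x y => (![![(0, false), (2, false), (3, true), (1, true)], ![(1, true), (0, false), (2, false), (3, true)], ![(3, true), (1, true), (0, false), (2, false)], ![(2, false), (3, true), (1, true), (0, false)]] : Fin 4 → Fin 4 → Lab 4) y x)
    (mask := 1074274305) (by decide +kernel) hR

theorem tmD4_22 (R : ZMod 4 → ZMod 4 → Bool → Prop)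
    (hR : ∀ b, Nat.testBit 1074790920 b = true → Rb R b) : GoodD 2 sqMat sqDir R :=
  goodD_of_tab1 2 sqMat sqDir R 4 (fun x y => (![![(0, false), (3, true), (1, true), (2, false)], ![(3, true), (1, true), (2, false), (0, false)], ![(1, true), (2, false), (0, false), (3, true)], ![(2, false), (0, false), (3, true), (1, true)]] : Fin 4 → Fin 4 → Lab 4) y x)
    (mask := 1074790920) (by decide +kernel) hR

theorem tmD4_23 (R : ZMod 4 → ZMod 4 → Bool → Prop)
    (hR : ∀ b, Nat.testBit 1074791425 b = true → Rb R b) : GoodD 2 sqMat sqDir R :=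
  goodD_of_tab1 2 sqMat sqDir R 2 (fun x y => (![![(0, false), (2, false)], ![(2, false), (0, false)]] : Fin 2 → Fin 2 → Lab 4) y x)
    (mask := 1074791425) (by decide +kernel) hR

theorem tmD4_24 (R : ZMod 4 → ZMod 4 → Bool → Prop)
    (hR : ∀ b, Nat.testBit 1075840002 b = true → Rb R b) : GoodD 2 sqMat sqDir R :=
  goodD_of_tab1 2 sqMat sqDir R 2 (fun x y => (![![(0, false), (2, true)], ![(2, false), (0, true)]] : Fin 2 → Fin 2 → Lab 4) y x)
    (mask := 1075840002) (by decide +kernel) hR

theorem tmD4_25 (R : ZMod 4 → ZMod 4 → Bool → Prop)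
    (hR : ∀ b, Nat.testBit 1075841026 b = true → Rb R b) : GoodD 2 sqMat sqDir R :=
  goodD_of_tab1 2 sqMat sqDir R 4 (fun x y => (![![(0, false), (2, true), (0, false), (2, true)], ![(0, true), (2, false), (0, true), (2, false)], ![(2, true), (0, false), (2, true), (0, false)], ![(2, false), (0, true), (2, false), (0, true)]] : Fin 4 → Fin 4 → Lab 4) y x)
    (mask := 1075841026) (by decide +kernel) hR

theorem tmD4_26 (R : ZMod 4 → ZMod 4 → Bool → Prop)
    (hR : ∀ b, Nat.testBit 2147550224 b = true → Rb R b) : GoodD 2 sqMat sqDir R :=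
  goodD_of_tab1 2 sqMat sqDir R 4 (fun x y => (![![(0, false), (0, false), (0, false), (0, false)], ![(2, false), (2, false), (2, false), (2, false)], ![(2, true), (2, true), (2, true), (2, true)], ![(0, true), (0, true), (0, true), (0, true)]] : Fin 4 → Fin 4 → Lab 4) y x)
    (mask := 2147550224) (by decide +kernel) hR

theorem tmD4_27 (R : ZMod 4 → ZMod 4 → Bool → Prop)
    (hR : ∀ b, Nat.testBit 2147551248 b = true → Rb R b) : GoodD 2 sqMat sqDir R :=
  goodD_of_tab1 2 sqMat sqDir R 2 (fun x y => (![![(0, false), (0, false)], ![(0, true), (0, true)]] : Fin 2 → Fin 2 → Lab 4) y x)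
    (mask := 2147551248) (by decide +kernel) hR

theorem tmD4_28 (R : ZMod 4 → ZMod 4 → Bool → Prop)
    (hR : ∀ b, Nat.testBit 2147616800 b = true → Rb R b) : GoodD 2 sqMat sqDir R :=
  goodD_of_tab1 2 sqMat sqDir R 2 (fun x y => (![![(0, false), (0, true)], ![(0, true), (0, false)]] : Fin 2 → Fin 2 → Lab 4) y x)
    (mask := 2147616800) (by decide +kernel) hR

theorem tmD4_29 (R : ZMod 4 → ZMod 4 → Bool → Prop)
    (hR : ∀ b, Nat.testBit 2147749890 b = true → Rb R b) : GoodD 2 sqMat sqDir R :=
  goodD_of_tab1 2 sqMat sqDir R 4 (fun x y => (![![(0, false), (2, true), (3, true), (3, false)], ![(1, false), (1, true), (0, true), (2, false)], ![(3, true), (3, false), (0, false), (2, true)], ![(0, true), (2, false), (1, false), (1, true)]] : Fin 4 → Fin 4 → Lab 4) y x)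
    (mask := 2147749890) (by decide +kernel) hR

theorem tmD4_30 (R : ZMod 4 → ZMod 4 → Bool → Prop)
    (hR : ∀ b, Nat.testBit 2148534273 b = true → Rb R b) : GoodD 2 sqMat sqDir R :=
  goodD_of_tab1 2 sqMat sqDir R 2 (fun x y => (![![(0, false), (2, false)], ![(0, true), (2, true)]] : Fin 2 → Fin 2 → Lab 4) y x)
    (mask := 2148534273) (by decide +kernel) hR

theorem tmD4_31 (R : ZMod 4 → ZMod 4 → Bool → Prop)
    (hR : ∀ b, Nat.testBit 2148534274 b = true → Rb R b) : GoodD 2 sqMat sqDir R :=
  goodD_of_tab1 2 sqMat sqDir R 4 (fun x y => (![![(0, false), (2, true), (0, true), (2, false)], ![(0, true), (2, false), (0, false), (2, true)], ![(0, false), (2, true), (0, true), (2, false)], ![(0, true), (2, false), (0, false), (2, true)]] : Fin 4 → Fin 4 → Lab 4) y x)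
    (mask := 2148534274) (by decide +kernel) hR

theorem tmD4_32 (R : ZMod 4 → ZMod 4 → Bool → Prop)
    (hR : ∀ b, Nat.testBit 2149581060 b = true → Rb R b) : GoodD 2 sqMat sqDir R :=
  goodD_of_tab1 2 sqMat sqDir R 4 (fun x y => (![![(0, false), (1, false), (1, true), (2, true)], ![(3, false), (2, false), (0, true), (3, true)], ![(1, true), (2, true), (0, false), (1, false)], ![(0, true), (3, true), (3, false), (2, false)]] : Fin 4 → Fin 4 → Lab 4) y x)
    (mask := 2149581060) (by decide +kernel) hR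

theorem tmD4_33 (R : ZMod 4 → ZMod 4 → Bool → Prop)
    (hR : ∀ b, Nat.testBit 2149581826 b = true → Rb R b) : GoodD 2 sqMat sqDir R :=
  goodD_of_tab1 2 sqMat sqDir R 4 (fun x y => (![![(0, false), (2, true), (0, false), (2, true)], ![(2, false), (0, true), (2, false), (0, true)], ![(2, true), (0, false), (2, true), (0, false)], ![(0, true), (2, false), (0, true), (2, false)]] : Fin 4 → Fin 4 → Lab 4) y x)
    (mask := 2149581826) (by decide +kernel) hR

theorem tmD4_34 (R : ZMod 4 → ZMod 4 → Bool → Prop)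
    (hR : ∀ b, Nat.testBit 2149582849 b = true → Rb R b) : GoodD 2 sqMat sqDir R :=
  goodD_of_tab1 2 sqMat sqDir R 4 (fun x y => (![![(0, false), (2, false), (0, true), (2, true)], ![(0, true), (2, true), (0, false), (2, false)], ![(0, false), (2, false), (0, true), (2, true)], ![(0, true), (2, true), (0, false), (2, false)]] : Fin 4 → Fin 4 → Lab 4) y x)
    (mask := 2149582849) (by decide +kernel) hR

theorem tmD4_35 (R : ZMod 4 → ZMod 4 → Bool → Prop)
    (hR : ∀ b, Nat.testBit 2149582850 b = true → Rb R b) : GoodD 2 sqMat sqDir R :=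
  goodD_of_tab1 2 sqMat sqDir R 2 (fun x y => (![![(0, false), (2, true)], ![(0, true), (2, false)]] : Fin 2 → Fin 2 → Lab 4) y x)
    (mask := 2149582850) (by decide +kernel) hR

theorem tmD4_36 (R : ZMod 4 → ZMod 4 → Bool → Prop)
    (hR : ∀ b, Nat.testBit 306451080 b = true → Rb R b) : GoodD 2 sqMat sqDir R :=
  goodD_of_tab2 2 sqMat sqDir R 4 (fun x y => (![![(0, false), (1, true), (0, true), (1, false)], ![(1, false), (0, false), (1, true), (0, true)], ![(0, true), (1, false), (0, false), (1, true)], ![(1, true), (0, true), (1, false), (0, false)]] : Fin 4 → Fin 4 → Lab 4) y x)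
    (mask := 306451080) 1 (by decide +kernel) hR

theorem tmD4_37 (R : ZMod 4 → ZMod 4 → Bool → Prop)
    (hR : ∀ b, Nat.testBit 289940040 b = true → Rb R b) : GoodD 2 sqMat sqDir R :=
  goodD_of_tab2 2 sqMat sqDir R 4 (fun x y => (![![(0, false), (3, false), (2, true), (1, true)], ![(1, true), (0, false), (3, false), (2, true)], ![(2, true), (1, true), (0, false), (3, false)], ![(3, false), (2, true), (1, true), (0, false)]] : Fin 4 → Fin 4 → Lab 4) y x)
    (mask := 289940040) 0 (by decide +kernel) hR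

theorem tmD4_38 (R : ZMod 4 → ZMod 4 → Bool → Prop)
    (hR : ∀ b, Nat.testBit 579080580 b = true → Rb R b) : GoodD 2 sqMat sqDir R :=
  goodD_of_tab2 2 sqMat sqDir R 4 (fun x y => (![![(0, false), (1, true), (2, true), (3, false)], ![(3, false), (0, false), (1, true), (2, true)], ![(2, true), (3, false), (0, false), (1, true)], ![(1, true), (2, true), (3, false), (0, false)]] : Fin 4 → Fin 4 → Lab 4) y x)
    (mask := 579080580) 1 (by decide +kernel) hR

theorem tmD4_39 (R : ZMod 4 → ZMod 4 → Bool → Prop)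
    (hR : ∀ b, Nat.testBit 562569540 b = true → Rb R b) : GoodD 2 sqMat sqDir R :=
  goodD_of_tab2 2 sqMat sqDir R 4 (fun x y => (![![(0, false), (1, false), (0, true), (1, true)], ![(1, true), (0, false), (1, false), (0, true)], ![(0, true), (1, true), (0, false), (1, false)], ![(1, false), (0, true), (1, true), (0, false)]] : Fin 4 → Fin 4 → Lab 4) y x)
    (mask := 562569540) 0 (by decide +kernel) hR

theorem tmD4_40 (R : ZMod 4 → ZMod 4 → Bool → Prop)
    (hR : ∀ b, Nat.testBit 1074923553 b = true → Rb R b) : GoodD 2 sqMat sqDir R :=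
  goodD_of_tab2 2 sqMat sqDir R 4 (fun x y => (![![(0, false), (2, false), (2, true), (0, true)], ![(0, true), (0, false), (2, false), (2, true)], ![(2, true), (0, true), (0, false), (2, false)], ![(2, false), (2, true), (0, true), (0, false)]] : Fin 4 → Fin 4 → Lab 4) y x)
    (mask := 1074923553) 1 (by decide +kernel) hR

theorem tmD4_41 (R : ZMod 4 → ZMod 4 → Bool → Prop)
    (hR : ∀ b, Nat.testBit 1209041922 b = true → Rb R b) : GoodD 2 sqMat sqDir R :=
  goodD_of_tab2 2 sqMat sqDir R 4 (fun x y => (![![(0, false), (2, true), (0, true), (2, false)], ![(2, false), (0, false), (2, true), (0, true)], ![(0, true), (2, false), (0, false), (2, true)], ![(2, true), (0, true), (2, false), (0, false)]] : Fin 4 → Fin 4 → Lab 4) y x)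
    (mask := 1209041922) 0 (by decide +kernel) hR

theorem tmD4_42 (R : ZMod 4 → ZMod 4 → Bool → Prop)
    (hR : ∀ b, Nat.testBit 1210090497 b = true → Rb R b) : GoodD 2 sqMat sqDir R :=
  goodD_of_tab2 2 sqMat sqDir R 4 (fun x y => (![![(0, false), (2, false), (0, true), (2, true)], ![(2, true), (0, false), (2, false), (0, true)], ![(0, true), (2, true), (0, false), (2, false)], ![(2, false), (0, true), (2, true), (0, false)]] : Fin 4 → Fin 4 → Lab 4) y x)
    (mask := 1210090497) 1 (by decide +kernel) hR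

theorem tmD4_43 (R : ZMod 4 → ZMod 4 → Bool → Prop)
    (hR : ∀ b, Nat.testBit 2148664353 b = true → Rb R b) : GoodD 2 sqMat sqDir R :=
  goodD_of_tab2 2 sqMat sqDir R 4 (fun x y => (![![(0, false), (0, true), (2, true), (2, false)], ![(2, false), (0, false), (0, true), (2, true)], ![(2, true), (2, false), (0, false), (0, true)], ![(0, true), (2, true), (2, false), (0, false)]] : Fin 4 → Fin 4 → Lab 4) y x)
    (mask := 2148664353) 0 (by decide +kernel) hR

end Pool.H3JG
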