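import Pool.Agent.Helper3.JG.RealHex
import Pool.Agent.Helper3.JD.DefsD

/-!
# Jigsaw tiles on a lattice: the hexagon is a disk

For the hexagon (convex body) use `exists_homeomorph_image_interior_closure_frontier_eq_unitBall`
(Mathlib.Analysis.Convex.GaugeRescale).
-/

namespace Pool.H3JG

open Set

theorem DiskHex_mem {p : V} : p ∈ hexQ ↔ (-1 ≤ p.1 + 2 * p.2 ∧ p.1 + 2 * p.2 ≤ 1) ∧
    (-1 ≤ p.1 - p.2 ∧ p.1 - p.2 ≤ 1) ∧ (-1 ≤ 2 * p.1 + p.2 ∧ 2 * p.1 + p.2 ≤ 1) := by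
  unfold hexQ
  rw [mem_setOf_eq, abs_le, abs_le, abs_le]

theorem hexQ_B : hexQ ⊆ hexB := by
  rintro ⟨x, y⟩ hp
  obtain ⟨⟨a1, a2⟩, ⟨b1, b2⟩, g1, g2⟩ := DiskHex_mem.1 hp
  simp only at a1 a2 b1 b2 g1 g2
  rcases le_total 0 (x + 2 * y) with ha | ha <;> rcases le_total 0 (x - y) with hb | hb
  · refine ⟨0, ?_⟩
    rw [GridHex_m0]
    refine ⟨?_, ?_, ?_, ?_⟩ <;> simp only <;> linarith
  · rcases le_total 0 (2 * x + y) with hg | hg
    · refine ⟨5, ?_⟩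
      rw [GridHex_m5]
      refine ⟨?_, ?_, ?_, ?_⟩ <;> simp only <;> linarith
    · refine ⟨4, ?_⟩
      rw [GridHex_m4]
      refine ⟨?_, ?_, ?_, ?_⟩ <;> simp only <;> linarith
  · rcases le_total 0 (2 * x + y) with hg | hg
    · refine ⟨1, ?_⟩
      rw [GridHex_m1]
      refine ⟨?_, ?_, ?_, ?_⟩ <;> simp only <;> linarith
    · refine ⟨2, ?_⟩
      rw [GridHex_m2]
      refine ⟨?_, ?_, ?_, ?_⟩ <;> simp only <;> linarith
  · refine ⟨3, ?_⟩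
    rw [GridHex_m3]
    refine ⟨?_, ?_, ?_, ?_⟩ <;> simp only <;> linarith

theorem DiskHex_rot (i : ZMod 6) : ∀ p ∈ hexQ, (hexMat (i, false)).ap p ∈ hexQ := by
  rintro ⟨x, y⟩ hp
  obtain ⟨⟨a1, a2⟩, ⟨b1, b2⟩, g1, g2⟩ := DiskHex_mem.1 hp
  simp only at a1 a2 b1 b2 g1 g2
  rcases GridHex_cases i with rfl | rfl | rfl | rfl | rfl | rfl
  · rw [GridHex_m0, DiskHex_mem]
    refine ⟨⟨?_, ?_⟩, ⟨?_, ?_⟩, ?_, ?_⟩ <;> simp only <;> linarith
  · rw [GridHex_m1, DiskHex_mem]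
    refine ⟨⟨?_, ?_⟩, ⟨?_, ?_⟩, ?_, ?_⟩ <;> simp only <;> linarith
  · rw [GridHex_m2, DiskHex_mem]
    refine ⟨⟨?_, ?_⟩, ⟨?_, ?_⟩, ?_, ?_⟩ <;> simp only <;> linarith
  · rw [GridHex_m3, DiskHex_mem]
    refine ⟨⟨?_, ?_⟩, ⟨?_, ?_⟩, ?_, ?_⟩ <;> simp only <;> linarith
  · rw [GridHex_m4, DiskHex_mem]
    refine ⟨⟨?_, ?_⟩, ⟨?_, ?_⟩, ?_, ?_⟩ <;> simp only <;> linarith
  · rw [GridHex_m5, DiskHex_mem]
    refine ⟨⟨?_, ?_⟩, ⟨?_, ?_⟩, ?_, ?_⟩ <;> simp only <;> linarith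

theorem DiskHex_flip : ∀ p ∈ hexQ, (hexMat (0, true)).ap p ∈ hexQ := by
  rintro ⟨x, y⟩ hp
  obtain ⟨⟨a1, a2⟩, ⟨b1, b2⟩, g1, g2⟩ := DiskHex_mem.1 hp
  simp only at a1 a2 b1 b2 g1 g2
  rw [GridHex_flip, DiskHex_mem]
  refine ⟨⟨?_, ?_⟩, ⟨?_, ?_⟩, ?_, ?_⟩ <;> simp only <;> linarith

theorem DiskHex_inv (a : Lab 6) : ∀ p ∈ hexQ, (hexMat a).ap p ∈ hexQ := by
  obtain ⟨k, f⟩ := a
  cases f
  · exact DiskHex_rot k
  · intro p hp
    have h : ((k, true) : Lab 6) = lmul (k, false) (0, true) := by simp [lmul, sg]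
    rw [h, GridHex_mul, Mat.ap_mul]
    exact DiskHex_rot k _ (DiskHex_flip p hp)

theorem hexQ_mat : ∀ a, (hexMat a).ap '' hexQ = hexQ := by
  intro a
  apply Subset.antisymm
  · rintro _ ⟨p, hp, rfl⟩
    exact DiskHex_inv a p hp
  · intro p hp
    exact ⟨_, DiskHex_inv (linv a) p hp, gridHex.ap_ap_linv a p⟩

theorem hexQ_U : ∀ d, gridHex.U d ⊆ hexQ ∪ (fun p => toV (hexDir d) + p) '' hexQ := by
  rintro d _ ⟨⟨x, y⟩, ⟨h1, h2, h3, h4⟩, rfl⟩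
  simp only at h1 h2 h3 h4
  rcases le_total (2 * x + y) 1 with hg | hg
  · left
    refine DiskHex_rot d _ (DiskHex_mem.2 ⟨⟨?_, ?_⟩, ⟨?_, ?_⟩, ?_, ?_⟩) <;> simp only <;> linarith
  · right
    refine ⟨(hexMat (d, false)).ap (x - 1, y), DiskHex_rot d _ ?_, ?_⟩
    · refine DiskHex_mem.2 ⟨⟨?_, ?_⟩, ⟨?_, ?_⟩, ?_, ?_⟩ <;> simp only <;> linarith
    · have e1 : hexDir d = (hexMat (d, false)).apZ (hexDir 0) := by
        have h := gridHex.mat_dir (d, false) 0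
        have e : act ((d, false) : Lab 6) 0 = d := by simp [act, sg]
        rw [e] at h
        exact h.symm
      show toV (hexDir d) + (hexMat (d, false)).ap (x - 1, y) = (hexMat (d, false)).ap (x, y)
      rw [e1, toV_apZ, ← Mat.ap_add]
      congr 1
      rw [show hexDir 0 = (1, 0) from rfl]
      apply Prod.ext <;> simp [toV]

theorem hexU_B : ∀ e, gridHex.U e ⊆ hexB := by
  rintro e _ ⟨p, hp, rfl⟩
  refine hexB_inv (e, false) p ⟨0, ?_⟩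
  obtain ⟨h1, h2, h3, h4⟩ := hp
  rw [GridHex_m0]
  exact ⟨h1.le, h2.le, h3.le, h4.le⟩

theorem DiskHex_no (k : ZMod 6) (hk : k ≠ 0) {p : V} (hp : p ∈ hexU0) :
    (hexMat (k, false)).ap p ∉ hexU0 := by
  obtain ⟨x, y⟩ := p
  obtain ⟨h1, h2, h3, h4⟩ := hp
  simp only at h1 h2 h3 h4
  rcases GridHex_cases k with rfl | rfl | rfl | rfl | rfl | rfl
  · exact absurd rfl hk
  · rw [GridHex_m1]
    rintro ⟨k1, k2, k3, k4⟩
    simp only at k1 k2 k3 k4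
    linarith
  · rw [GridHex_m2]
    rintro ⟨k1, k2, k3, k4⟩
    simp only at k1 k2 k3 k4
    linarith
  · rw [GridHex_m3]
    rintro ⟨k1, k2, k3, k4⟩
    simp only at k1 k2 k3 k4
    linarith
  · rw [GridHex_m4]
    rintro ⟨k1, k2, k3, k4⟩
    simp only at k1 k2 k3 k4
    linarith
  · rw [GridHex_m5]
    rintro ⟨k1, k2, k3, k4⟩
    simp only at k1 k2 k3 k4
    linarith

theorem hexU_disj : ∀ e f, e ≠ f → Disjoint (gridHex.U e) (gridHex.U f) := by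
  intro e f hef
  rw [Set.disjoint_left]
  rintro _ ⟨p, hp, rfl⟩ ⟨q, hq, hqp⟩
  have hqp' : (hexMat (f, false)).ap q = (hexMat (e, false)).ap p := hqp
  have h1 := gridHex.ap_linv_ap (f, false) q
  have h2 : (hexMat (linv (f, false))).ap ((hexMat (e, false)).ap p) = q := by
    rw [← hqp']
    exact h1
  rw [← Mat.ap_mul, ← GridHex_mul] at h2
  have h3 : lmul (linv ((f, false) : Lab 6)) (e, false) = (e - f, false) := by
    simp [lmul, linv, sg]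
    ring
  rw [h3] at h2
  exact DiskHex_no (e - f) (sub_ne_zero.2 hef) hp (h2 ▸ hq)

theorem DiskHex_closed : IsClosed hexQ := by
  have h1 : IsClosed {p : V | |p.1 + 2 * p.2| ≤ 1} := isClosed_le (by fun_prop) (by fun_prop)
  have h2 : IsClosed {p : V | |p.1 - p.2| ≤ 1} := isClosed_le (by fun_prop) (by fun_prop)
  have h3 : IsClosed {p : V | |2 * p.1 + p.2| ≤ 1} := isClosed_le (by fun_prop) (by fun_prop)
  exact h1.inter (h2.inter h3)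

theorem DiskHex_compact : IsCompact hexQ := by
  refine (isCompact_closedBall (0 : V) 1).of_isClosed_subset DiskHex_closed ?_
  rintro ⟨x, y⟩ hp
  obtain ⟨⟨a1, a2⟩, ⟨b1, b2⟩, g1, g2⟩ := DiskHex_mem.1 hp
  simp only at a1 a2 b1 b2 g1 g2
  rw [mem_closedBall_zero_iff, Prod.norm_def, max_le_iff, Real.norm_eq_abs, Real.norm_eq_abs,
    abs_le, abs_le]
  refine ⟨⟨?_, ?_⟩, ?_, ?_⟩ <;> linarith

theorem DiskHex_convex : Convex ℝ hexQ := by
  have key : ∀ a b s t : ℝ, 0 ≤ a → 0 ≤ b → a + b = 1 → -1 ≤ s ∧ s ≤ 1 → -1 ≤ t ∧ t ≤ 1 →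
      -1 ≤ a * s + b * t ∧ a * s + b * t ≤ 1 := by
    intro a b s t ha hb hab hs ht
    have h1 := mul_le_mul_of_nonneg_left hs.1 ha
    have h2 := mul_le_mul_of_nonneg_left hs.2 ha
    have h3 := mul_le_mul_of_nonneg_left ht.1 hb
    have h4 := mul_le_mul_of_nonneg_left ht.2 hb
    constructor <;> linarith
  rintro ⟨x, y⟩ hp ⟨x', y'⟩ hq a b ha hb hab
  obtain ⟨p1, p2, p3⟩ := DiskHex_mem.1 hp
  obtain ⟨q1, q2, q3⟩ := DiskHex_mem.1 hq
  simp only at p1 p2 p3 q1 q2 q3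
  have k1 := key a b _ _ ha hb hab p1 q1
  have k2 := key a b _ _ ha hb hab p2 q2
  have k3 := key a b _ _ ha hb hab p3 q3
  rw [DiskHex_mem]
  simp only [Prod.smul_mk, Prod.mk_add_mk, smul_eq_mul]
  refine ⟨⟨?_, ?_⟩, ⟨?_, ?_⟩, ?_, ?_⟩ <;> linarith [k1.1, k1.2, k2.1, k2.2, k3.1, k3.2]

theorem DiskHex_interior : (interior hexQ).Nonempty := by
  refine ⟨(0, 0), mem_interior.2 ⟨{p : V | |p.1 + 2 * p.2| < 1} ∩ ({p : V | |p.1 - p.2| < 1} ∩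
    {p : V | |2 * p.1 + p.2| < 1}), ?_, ?_, ?_⟩⟩
  · rintro p ⟨h1, h2, h3⟩
    exact ⟨le_of_lt h1, le_of_lt h2, le_of_lt h3⟩
  · have h1 : IsOpen {p : V | |p.1 + 2 * p.2| < 1} := isOpen_lt (by fun_prop) (by fun_prop)
    have h2 : IsOpen {p : V | |p.1 - p.2| < 1} := isOpen_lt (by fun_prop) (by fun_prop)
    have h3 : IsOpen {p : V | |2 * p.1 + p.2| < 1} := isOpen_lt (by fun_prop) (by fun_prop)
    exact h1.inter (h2.inter h3)
  · refine ⟨?_, ?_, ?_⟩ <;> simp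

theorem hexQ_ball : Nonempty (↥(hexF '' hexQ) ≃ₜ ↥(Metric.closedBall (0 : E) 1)) := by
  have hF : (RealHex_F : V → E) = hexF := rfl
  have hcomp : IsCompact (hexF '' hexQ) := by
    rw [← hF]
    exact DiskHex_compact.image RealHex_F.continuous
  have hconv : Convex ℝ (hexF '' hexQ) :=
    DiskHex_convex.is_linear_image ⟨hexF_add, RealHex_smul⟩
  have hint : (interior (hexF '' hexQ)).Nonempty := by
    rw [← hF, ← Homeomorph.image_interior]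
    exact DiskHex_interior.image _
  obtain ⟨h, -, h2, -⟩ := exists_homeomorph_image_interior_closure_frontier_eq_unitBall hconv hint
    hcomp.isBounded
  rw [hcomp.isClosed.closure_eq] at h2
  exact ⟨(h.image (hexF '' hexQ)).trans (Homeomorph.setCongr h2)⟩

end Pool.H3JG
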