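import Pool.Agent.Helper3.JD.DiskHex

/-!
# Jigsaw tiles on a lattice: the double hexagon is a disk

By a matrix of the point group (`G.mat_dir`, `hexQ_mat`, and `exists_realHex` or the norm identities:
`hexF (mat p) = L (hexF p)`) it is enough to treat direction `0`. In Cartesian coordinates
`(X, Y) = hexF p` the set `hexQ ∪ ((1, 0) + hexQ)` is `{-1/2 ≤ X ≤ 3/2, |Y| ≤ g X}` with
`g X = (1 - |X|) / √3` for `X ≤ 1/2` and `g X = (1 - |X - 1|) / √3` for `X ≥ 1/2`, and `g ≥ 1/(2√3)` on
`[-1/2, 3/2]`; so `(X, Y) ↦ (X, Y / g X)` (with `g` replaced by `max (g X) (1/4)`, which is the same on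
the set) is a homeomorphism of the plane which maps it onto a rectangle (convex body; use
`exists_homeomorph_image_interior_closure_frontier_eq_unitBall`, Mathlib.Analysis.Convex.GaugeRescale).
-/

namespace Pool.H3JG

open Set

/-- The height of the double hexagon. -/
private noncomputable def gg (u : ℝ) : ℝ := max 1 (max (2 - |u|) (2 - |u - 2|))

private theorem gg_pos (u : ℝ) : 0 < gg u := lt_of_lt_of_le one_pos (le_max_left _ _)

private theorem gg_cont : Continuous gg := by
  unfold gg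
  fun_prop

/-- The homeomorphism that maps the double hexagon onto a rectangle. -/
private noncomputable def Th : V ≃ₜ V where
  toFun p := (2 * p.1 + p.2, p.2 / gg (2 * p.1 + p.2))
  invFun q := ((q.1 - q.2 * gg q.1) / 2, q.2 * gg q.1)
  left_inv p := by
    have h := (gg_pos (2 * p.1 + p.2)).ne'
    have e1 : p.2 / gg (2 * p.1 + p.2) * gg (2 * p.1 + p.2) = p.2 := div_mul_cancel₀ _ h
    apply Prod.ext
    · show (2 * p.1 + p.2 - p.2 / gg (2 * p.1 + p.2) * gg (2 * p.1 + p.2)) / 2 = p.1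
      rw [e1]
      ring
    · show p.2 / gg (2 * p.1 + p.2) * gg (2 * p.1 + p.2) = p.2
      exact e1
  right_inv q := by
    have h := (gg_pos q.1).ne'
    have e1 : 2 * ((q.1 - q.2 * gg q.1) / 2) + q.2 * gg q.1 = q.1 := by ring
    apply Prod.ext
    · exact e1
    · show q.2 * gg q.1 / gg (2 * ((q.1 - q.2 * gg q.1) / 2) + q.2 * gg q.1) = q.2
      rw [e1, mul_div_cancel_right₀ _ h]
  continuous_toFun := by
    refine Continuous.prodMk (by fun_prop) ?_
    exact Continuous.div (by fun_prop) (gg_cont.comp (by fun_prop)) fun p => (gg_pos _).ne'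
  continuous_invFun := by
    have h1 : Continuous fun q : V => gg q.1 := gg_cont.comp continuous_fst
    refine Continuous.prodMk ?_ (continuous_snd.mul h1)
    exact (continuous_fst.sub (continuous_snd.mul h1)).div_const 2

/-- The rectangle. -/
private def RR : Set V := Icc (-1) 3 ×ˢ Icc (-1 / 3) (1 / 3)

private theorem mem_hexQQ (p : V) :
    p ∈ hexQ ∪ (fun p => toV (hexDir 0) + p) '' hexQ ↔
      -1 ≤ 2 * p.1 + p.2 ∧ 2 * p.1 + p.2 ≤ 3 ∧ |3 * p.2| ≤ gg (2 * p.1 + p.2) := by
  have h0 : toV (hexDir 0) = ((1 : ℝ), (0 : ℝ)) := by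
    simp [toV, hexDir]
  have h1 : p ∈ (fun p => toV (hexDir 0) + p) '' hexQ ↔ ((p.1 - 1, p.2) : V) ∈ hexQ := by
    rw [h0]
    constructor
    · rintro ⟨q, hq, rfl⟩
      have : (((((1 : ℝ), (0 : ℝ)) + q : V).1 - 1, (((1 : ℝ), (0 : ℝ)) + q : V).2) : V) = q := by
        apply Prod.ext <;> simp
      rw [this]
      exact hq
    · intro hq
      refine ⟨(p.1 - 1, p.2), hq, ?_⟩
      apply Prod.ext <;> simp
  rw [mem_union, h1]
  have key : ∀ x v : ℝ, ((x, v) : V) ∈ hexQ ↔ |2 * x + v| ≤ 1 ∧ |3 * v| ≤ 2 - |2 * x + v| := by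
    intro x v
    show (|x + 2 * v| ≤ 1 ∧ |x - v| ≤ 1 ∧ |2 * x + v| ≤ 1) ↔ _
    rw [abs_le, abs_le]
    constructor
    · rintro ⟨⟨a1, a2⟩, ⟨b1, b2⟩, c⟩
      refine ⟨c, ?_⟩
      rcases abs_cases (2 * x + v) with ⟨e1, _⟩ | ⟨e1, _⟩ <;>
        rcases abs_cases (3 * v) with ⟨e2, _⟩ | ⟨e2, _⟩ <;> rw [e1, e2] <;> linarith
    · rintro ⟨c, d⟩
      have e1 := le_abs_self (2 * x + v)
      have e2 := neg_abs_le (2 * x + v)
      have e3 := le_abs_self (3 * v)
      have e4 := neg_abs_le (3 * v)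
      exact ⟨⟨by linarith, by linarith⟩, ⟨by linarith, by linarith⟩, c⟩
  have k1 := key p.1 p.2
  have k2 := key (p.1 - 1) p.2
  have e0 : 2 * (p.1 - 1) + p.2 = 2 * p.1 + p.2 - 2 := by ring
  rw [e0] at k2
  rw [show (p : V) = (p.1, p.2) from rfl] at *
  rw [k1, k2]
  simp only
  generalize 2 * p.1 + p.2 = u
  generalize |3 * p.2| = t
  constructor
  · rintro (⟨h2, h3⟩ | ⟨h2, h3⟩)
    · have h4 := abs_le.1 h2
      refine ⟨by linarith, by linarith, h3.trans ?_⟩
      exact (le_max_left _ _).trans (le_max_right _ _)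
    · have h4 := abs_le.1 h2
      refine ⟨by linarith, by linarith, h3.trans ?_⟩
      exact (le_max_right _ _).trans (le_max_right _ _)
  · rintro ⟨h2, h3, h4⟩
    rcases le_total u 1 with h5 | h5
    · left
      have h6 : |u| ≤ 1 := abs_le.2 ⟨h2, h5⟩
      refine ⟨h6, h4.trans (max_le (by linarith) (max_le le_rfl ?_))⟩
      have h7 : |u - 2| = 2 - u := by rw [abs_of_nonpos (by linarith)]; ring
      rw [h7]
      have h8 : |u| ≤ 2 - u := abs_le.2 ⟨by linarith, by linarith⟩
      linarith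
    · right
      have h6 : |u - 2| ≤ 1 := abs_le.2 ⟨by linarith, by linarith⟩
      refine ⟨h6, h4.trans (max_le (by linarith) (max_le ?_ le_rfl))⟩
      have h7 : |u| = u := abs_of_nonneg (by linarith)
      rw [h7]
      have h8 : |u - 2| ≤ u := abs_le.2 ⟨by linarith, by linarith⟩
      linarith

private theorem Th_image : Th '' (hexQ ∪ (fun p => toV (hexDir 0) + p) '' hexQ) = RR := by
  have h1 : hexQ ∪ (fun p => toV (hexDir 0) + p) '' hexQ = Th ⁻¹' RR := by
    ext p
    rw [mem_hexQQ]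
    have hg := gg_pos (2 * p.1 + p.2)
    show _ ↔ (-1 ≤ 2 * p.1 + p.2 ∧ 2 * p.1 + p.2 ≤ 3) ∧
      (-1 / 3 ≤ p.2 / gg (2 * p.1 + p.2) ∧ p.2 / gg (2 * p.1 + p.2) ≤ 1 / 3)
    rw [abs_le, le_div_iff₀ hg, div_le_iff₀ hg, and_assoc]
    constructor
    · rintro ⟨h1, h2, h3, h4⟩
      exact ⟨h1, h2, by linarith, by linarith⟩
    · rintro ⟨h1, h2, h3, h4⟩
      exact ⟨h1, h2, by linarith, by linarith⟩
  rw [h1]
  exact Th.toEquiv.surjective.image_preimage _

/-- The linear map of the Cartesian coordinates. -/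
private noncomputable def FL : V →ₗ[ℝ] E where
  toFun := hexF
  map_add' := hexF_add
  map_smul' := RealHex_smul

private theorem RR_ball : ∃ h : E ≃ₜ E, h '' (RealHex_F '' RR) = Metric.closedBall 0 1 := by
  have hconv : Convex ℝ (RealHex_F '' RR) :=
    ((convex_Icc (-1 : ℝ) 3).prod (convex_Icc (-1 / 3 : ℝ) (1 / 3))).linear_image FL
  have hcomp : IsCompact (RealHex_F '' RR) := (isCompact_Icc.prod isCompact_Icc).image
    RealHex_F.continuous
  have hne : (interior (RealHex_F '' RR)).Nonempty := by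
    rw [← RealHex_F.image_interior, RR, interior_prod_eq, interior_Icc, interior_Icc]
    refine Nonempty.image _ ⟨(0, 0), ⟨?_, ?_⟩, ⟨?_, ?_⟩⟩ <;> norm_num
  obtain ⟨h, -, h1, -⟩ := exists_homeomorph_image_interior_closure_frontier_eq_unitBall hconv hne
    hcomp.isBounded
  rw [hcomp.isClosed.closure_eq] at h1
  exact ⟨h, h1⟩

/-- The rotation. -/
private theorem rot_image (d : ZMod 6) :
    gridHex.plH 0 (d, false) '' (hexQ ∪ (fun p => toV (hexDir 0) + p) '' hexQ) =
      hexQ ∪ (fun p => toV (hexDir d) + p) '' hexQ := by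
  have h1 : ∀ p, gridHex.plH 0 (d, false) p = (hexMat (d, false)).ap p := fun p =>
    gridHex.pl_zero (d, false) p
  have h2 : gridHex.plH 0 (d, false) '' hexQ = hexQ := by
    have : (⇑(gridHex.plH 0 (d, false)) : V → V) = (hexMat (d, false)).ap := funext h1
    rw [this]
    exact hexQ_mat _
  have h3 : (hexMat (d, false)).ap (toV (hexDir 0)) = toV (hexDir d) := by
    rw [← toV_apZ]
    have h4 := gridHex.mat_dir (d, false) 0
    have h5 : act ((d, false) : Lab 6) 0 = d := by
      simp [act, sg]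
    rw [h5] at h4
    exact congrArg toV h4
  rw [image_union, h2, image_image]
  congr 1
  have h4 : (fun x => gridHex.plH 0 (d, false) (toV (hexDir 0) + x)) =
      fun x => toV (hexDir d) + gridHex.plH 0 (d, false) x := by
    funext x
    rw [h1, h1, Mat.ap_add, h3]
  rw [h4]
  conv_rhs => rw [← h2, image_image]

theorem hexQQ_ball (d : ZMod 6) :
    Nonempty (↥(hexF '' (hexQ ∪ (fun p => toV (hexDir d) + p) '' hexQ)) ≃ₜ
      ↥(Metric.closedBall (0 : E) 1)) := by
  obtain ⟨h, hh⟩ := RR_ball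
  set S := hexQ ∪ (fun p => toV (hexDir d) + p) '' hexQ with hS
  set M := gridHex.plH 0 (d, false) with hM
  have h1 : M.symm '' S = hexQ ∪ (fun p => toV (hexDir 0) + p) '' hexQ := by
    rw [hS, ← rot_image d, image_image]
    simp only [← hM, Homeomorph.symm_apply_apply, image_id']
  let Ψ : E ≃ₜ E := RealHex_F.symm.trans (M.symm.trans (Th.trans (RealHex_F.trans h)))
  have h2 : Ψ '' (hexF '' S) = Metric.closedBall (0 : E) 1 := by
    rw [← hh, ← Th_image, ← h1, image_image, image_image, image_image, image_image]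
    refine image_congr fun p _ => ?_
    show h (RealHex_F (Th (M.symm (RealHex_F.symm (RealHex_F p))))) = _
    rw [RealHex_F.symm_apply_apply]
  exact ⟨(Ψ.image _).trans (Homeomorph.setCongr h2)⟩

end Pool.H3JG
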