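import Pool.Agent.Helper3.JG.RealSq
import Pool.Agent.Helper3.JD.DefsD

/-!
# Jigsaw tiles on a lattice: the square and the domino are disks

For convex bodies use `exists_homeomorph_image_interior_closure_frontier_eq_unitBall`
(Mathlib.Analysis.Convex.GaugeRescale): the sets are closed, convex, bounded, with nonempty interior.
-/

namespace Pool.H3JG

open Set

private theorem DiskSq_all : ∀ a : Lab 4, sqMat a = ⟨1, 0, 0, 1⟩ ∨ sqMat a = ⟨0, -1, 1, 0⟩ ∨
    sqMat a = ⟨-1, 0, 0, -1⟩ ∨ sqMat a = ⟨0, 1, -1, 0⟩ ∨ sqMat a = ⟨1, 0, 0, -1⟩ ∨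
    sqMat a = ⟨0, 1, 1, 0⟩ ∨ sqMat a = ⟨-1, 0, 0, 1⟩ ∨ sqMat a = ⟨0, -1, -1, 0⟩ := by decide

theorem sqQ_B : sqQ ⊆ sqB := by
  rintro ⟨x, y⟩ ⟨h1, h2⟩
  show |x| + |y| ≤ 1
  simp only at h1 h2
  linarith

private theorem DiskSq_into (a : Lab 4) {p : V} (hp : p ∈ sqQ) : (sqMat a).ap p ∈ sqQ := by
  obtain ⟨x, y⟩ := p
  obtain ⟨h1, h2⟩ := hp
  simp only [one_div] at h1 h2
  rcases DiskSq_all a with e | e | e | e | e | e | e | e <;> rw [e] <;> refine ⟨?_, ?_⟩ <;>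
    simpa [Mat.ap] using (by first | exact h1 | exact h2)

theorem sqQ_mat : ∀ a, (sqMat a).ap '' sqQ = sqQ := by
  intro a
  apply Subset.antisymm
  · rintro _ ⟨p, hp, rfl⟩
    exact DiskSq_into a hp
  · intro p hp
    exact ⟨(sqMat (linv a)).ap p, DiskSq_into _ hp, gridSq.ap_ap_linv a p⟩

private theorem DiskSq_dir0 : toV (sqDir 0) = ((1 : ℝ), (0 : ℝ)) := by
  have h : sqDir 0 = (1, 0) := by decide
  rw [h]
  simp [toV]

private theorem DiskSq_U0 {q : V} (hq : q ∈ sqU0) :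
    q ∈ sqQ ∨ ∃ q' ∈ sqQ, q = toV (sqDir 0) + q' := by
  obtain ⟨x, y⟩ := q
  obtain ⟨h1, h2⟩ := hq
  simp only at h1 h2
  have h3 := abs_nonneg y
  rcases le_total x (1 / 2) with h | h
  · left
    refine ⟨?_, ?_⟩
    · show |x| ≤ 1 / 2
      rw [abs_of_nonneg (by linarith)]
      exact h
    · show |y| ≤ 1 / 2
      linarith
  · right
    refine ⟨(x - 1, y), ⟨?_, ?_⟩, ?_⟩
    · show |x - 1| ≤ 1 / 2
      rw [abs_of_nonpos (by linarith)]
      linarith
    · show |y| ≤ 1 / 2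
      linarith
    · rw [DiskSq_dir0]
      simp

theorem sqQ_U : ∀ d, gridSq.U d ⊆ sqQ ∪ (fun p => toV (sqDir d) + p) '' sqQ := by
  rintro d _ ⟨q, hq, rfl⟩
  rcases DiskSq_U0 hq with h | ⟨q', hq', rfl⟩
  · left
    exact DiskSq_into (d, false) h
  · right
    refine ⟨(sqMat (d, false)).ap q', DiskSq_into (d, false) hq', ?_⟩
    have h1 : (sqMat (d, false)).apZ (sqDir 0) = sqDir d := by
      have h := gridSq.mat_dir (d, false) 0
      have h2 : act ((d, false) : Lab 4) 0 = d := by simp [act, sg]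
      rw [h2] at h
      exact h
    show toV (sqDir d) + (sqMat (d, false)).ap q' = (sqMat (d, false)).ap (toV (sqDir 0) + q')
    rw [Mat.ap_add, ← toV_apZ, h1]

theorem sqU_B : ∀ e, gridSq.U e ⊆ sqB := by
  rintro e _ ⟨⟨x, y⟩, ⟨h1, h2⟩, rfl⟩
  refine gridSq.B_inv (e, false) (x, y) ?_
  show |x| + |y| ≤ 1
  simp only at h1 h2
  have h3 := abs_nonneg y
  rw [abs_of_pos (by linarith : 0 < x)]
  linarith

/-- the open half cones containing the cells -/
private def DiskSq_C (p : V) : ZMod 4 → Prop :=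
  (![|p.2| < p.1, |p.1| < p.2, |p.2| < -p.1, |p.1| < -p.2] : Fin 4 → Prop)

private theorem DiskSq_m : ∀ e : ZMod 4, sqMat (e, false) =
    (![⟨1, 0, 0, 1⟩, ⟨0, -1, 1, 0⟩, ⟨-1, 0, 0, -1⟩, ⟨0, 1, -1, 0⟩] : Fin 4 → Mat) e := by decide

private theorem DiskSq_cone {e : ZMod 4} {p : V} (hp : p ∈ gridSq.U e) : DiskSq_C p e := by
  obtain ⟨⟨x, y⟩, ⟨h1, -⟩, rfl⟩ := hp
  simp only at h1
  show DiskSq_C ((sqMat (e, false)).ap (x, y)) e
  rw [DiskSq_m]
  revert e
  intro e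
  fin_cases e
  · show |((⟨1, 0, 0, 1⟩ : Mat).ap (x, y)).2| < ((⟨1, 0, 0, 1⟩ : Mat).ap (x, y)).1
    simpa [Mat.ap] using h1
  · show |((⟨0, -1, 1, 0⟩ : Mat).ap (x, y)).1| < ((⟨0, -1, 1, 0⟩ : Mat).ap (x, y)).2
    simpa [Mat.ap] using h1
  · show |((⟨-1, 0, 0, -1⟩ : Mat).ap (x, y)).2| < -((⟨-1, 0, 0, -1⟩ : Mat).ap (x, y)).1
    simpa [Mat.ap] using h1
  · show |((⟨0, 1, -1, 0⟩ : Mat).ap (x, y)).1| < -((⟨0, 1, -1, 0⟩ : Mat).ap (x, y)).2
    simpa [Mat.ap] using h1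

private theorem DiskSq_excl {x y : ℝ} :
    (|y| < x → ¬ |x| < y) ∧ (|y| < x → ¬ |y| < -x) ∧ (|y| < x → ¬ |x| < -y) ∧
    (|x| < y → ¬ |y| < -x) ∧ (|x| < y → ¬ |x| < -y) ∧ (|y| < -x → ¬ |x| < -y) := by
  have a1 := le_abs_self x
  have a2 := neg_le_abs x
  have a3 := le_abs_self y
  have a4 := neg_le_abs y
  have a5 := abs_nonneg x
  have a6 := abs_nonneg y
  refine ⟨?_, ?_, ?_, ?_, ?_, ?_⟩ <;> intro h1 h2 <;> linarith

theorem sqU_disj : ∀ e f, e ≠ f → Disjoint (gridSq.U e) (gridSq.U f) := by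
  intro e f hef
  rw [disjoint_left]
  intro p hpe hpf
  have h1 := DiskSq_cone hpe
  have h2 := DiskSq_cone hpf
  obtain ⟨x, y⟩ := p
  obtain ⟨c1, c2, c3, c4, c5, c6⟩ := DiskSq_excl (x := x) (y := y)
  have key : ∀ i j : Fin 4, i ≠ j →
      (![|y| < x, |x| < y, |y| < -x, |x| < -y] : Fin 4 → Prop) i →
      (![|y| < x, |x| < y, |y| < -x, |x| < -y] : Fin 4 → Prop) j → False := by
    intro i j hij
    fin_cases i <;> fin_cases j <;> simp only [Fin.zero_eta, Fin.mk_one, Fin.reduceFinMk, ne_eq,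
      not_true_eq_false, Matrix.cons_val_zero, Matrix.cons_val_one, Matrix.cons_val] at hij ⊢
    all_goals first
      | exact absurd rfl hij
      | exact fun u v => c1 u v
      | exact fun u v => c2 u v
      | exact fun u v => c3 u v
      | exact fun u v => c4 u v
      | exact fun u v => c5 u v
      | exact fun u v => c6 u v
      | exact fun u v => c1 v u
      | exact fun u v => c2 v u
      | exact fun u v => c3 v u
      | exact fun u v => c4 v u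
      | exact fun u v => c5 v u
      | exact fun u v => c6 v u
  exact key e f hef h1 h2

private theorem DiskSq_lin : IsLinearMap ℝ sqF where
  map_add := sqF_add
  map_smul c p := by
    ext i
    fin_cases i <;> simp [sqF]

/-- rectangles are disks -/
private theorem DiskSq_rect {a b c e : ℝ} (hab : a < b) (hce : c < e) :
    Nonempty (↥(sqF '' (Icc a b ×ˢ Icc c e)) ≃ₜ ↥(Metric.closedBall (0 : E) 1)) := by
  obtain ⟨re, hre⟩ := exists_realSq
  have hF : (re.F : V → E) = sqF := funext hre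
  have hcomp : IsCompact (sqF '' (Icc a b ×ˢ Icc c e)) := by
    rw [← hF]
    exact (isCompact_Icc.prod isCompact_Icc).image re.F.continuous
  have hconv : Convex ℝ (sqF '' (Icc a b ×ˢ Icc c e)) :=
    ((convex_Icc a b).prod (convex_Icc c e)).is_linear_image DiskSq_lin
  have hint : (interior (sqF '' (Icc a b ×ˢ Icc c e))).Nonempty := by
    rw [← hF, ← re.F.image_interior, interior_prod_eq, interior_Icc, interior_Icc]
    exact ((nonempty_Ioo.2 hab).prod (nonempty_Ioo.2 hce)).image _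
  obtain ⟨h, -, h2, -⟩ := exists_homeomorph_image_interior_closure_frontier_eq_unitBall hconv hint
    hcomp.isBounded
  rw [hcomp.isClosed.closure_eq] at h2
  exact ⟨(h.image _).trans (Homeomorph.setCongr h2)⟩

private theorem DiskSq_Q : sqQ = Icc (-(1 / 2) : ℝ) (1 / 2) ×ˢ Icc (-(1 / 2) : ℝ) (1 / 2) := by
  ext ⟨x, y⟩
  show (|x| ≤ 1 / 2 ∧ |y| ≤ 1 / 2) ↔ _
  simp only [mem_prod, mem_Icc, abs_le]

theorem sqQ_ball : Nonempty (↥(sqF '' sqQ) ≃ₜ ↥(Metric.closedBall (0 : E) 1)) := by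
  rw [DiskSq_Q]
  exact DiskSq_rect (by norm_num) (by norm_num)

private theorem DiskSq_QQ {u v : ℝ} {z : Z2} (hz : toV z = (u, v)) (p : V) :
    p ∈ sqQ ∪ (fun p => toV z + p) '' sqQ ↔ (|p.1| ≤ 1 / 2 ∧ |p.2| ≤ 1 / 2) ∨
      (|p.1 - u| ≤ 1 / 2 ∧ |p.2 - v| ≤ 1 / 2) := by
  rw [mem_union]
  apply or_congr Iff.rfl
  constructor
  · rintro ⟨q, ⟨h1, h2⟩, rfl⟩
    show |(toV z + q).1 - u| ≤ 1 / 2 ∧ |(toV z + q).2 - v| ≤ 1 / 2
    rw [hz]
    simp only [Prod.fst_add, Prod.snd_add, add_sub_cancel_left]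
    exact ⟨h1, h2⟩
  · rintro ⟨h1, h2⟩
    refine ⟨(p.1 - u, p.2 - v), ⟨h1, h2⟩, ?_⟩
    show toV z + (p.1 - u, p.2 - v) = p
    rw [hz]
    ext <;> simp

theorem sqQQ_ball (d : ZMod 4) :
    Nonempty (↥(sqF '' (sqQ ∪ (fun p => toV (sqDir d) + p) '' sqQ)) ≃ₜ
      ↥(Metric.closedBall (0 : E) 1)) := by
  have hd : ∀ d : ZMod 4, sqDir d = (1, 0) ∨ sqDir d = (0, 1) ∨ sqDir d = (-1, 0) ∨
      sqDir d = (0, -1) := by decide
  have key : ∃ a b c e : ℝ, a < b ∧ c < e ∧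
      sqQ ∪ (fun p => toV (sqDir d) + p) '' sqQ = Icc a b ×ˢ Icc c e := by
    rcases hd d with h | h | h | h
    · refine ⟨-(1 / 2), 3 / 2, -(1 / 2), 1 / 2, by norm_num, by norm_num, ?_⟩
      ext ⟨x, y⟩
      rw [h, DiskSq_QQ (u := 1) (v := 0) (by simp [toV])]
      simp only [mem_prod, mem_Icc, abs_le]
      constructor
      · rintro (⟨⟨h1, h2⟩, h3, h4⟩ | ⟨⟨h1, h2⟩, h3, h4⟩)
        · exact ⟨⟨by linarith, by linarith⟩, by linarith, by linarith⟩
        · exact ⟨⟨by linarith, by linarith⟩, by linarith, by linarith⟩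
      · rintro ⟨⟨h1, h2⟩, h3, h4⟩
        rcases le_total x (1 / 2) with h5 | h5
        · exact Or.inl ⟨⟨by linarith, by linarith⟩, by linarith, by linarith⟩
        · exact Or.inr ⟨⟨by linarith, by linarith⟩, by linarith, by linarith⟩
    · refine ⟨-(1 / 2), 1 / 2, -(1 / 2), 3 / 2, by norm_num, by norm_num, ?_⟩
      ext ⟨x, y⟩
      rw [h, DiskSq_QQ (u := 0) (v := 1) (by simp [toV])]
      simp only [mem_prod, mem_Icc, abs_le]
      constructor
      · rintro (⟨⟨h1, h2⟩, h3, h4⟩ | ⟨⟨h1, h2⟩, h3, h4⟩)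
        · exact ⟨⟨by linarith, by linarith⟩, by linarith, by linarith⟩
        · exact ⟨⟨by linarith, by linarith⟩, by linarith, by linarith⟩
      · rintro ⟨⟨h1, h2⟩, h3, h4⟩
        rcases le_total y (1 / 2) with h5 | h5
        · exact Or.inl ⟨⟨by linarith, by linarith⟩, by linarith, by linarith⟩
        · exact Or.inr ⟨⟨by linarith, by linarith⟩, by linarith, by linarith⟩
    · refine ⟨-(3 / 2), 1 / 2, -(1 / 2), 1 / 2, by norm_num, by norm_num, ?_⟩
      ext ⟨x, y⟩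
      rw [h, DiskSq_QQ (u := -1) (v := 0) (by simp [toV])]
      simp only [mem_prod, mem_Icc, abs_le]
      constructor
      · rintro (⟨⟨h1, h2⟩, h3, h4⟩ | ⟨⟨h1, h2⟩, h3, h4⟩)
        · exact ⟨⟨by linarith, by linarith⟩, by linarith, by linarith⟩
        · exact ⟨⟨by linarith, by linarith⟩, by linarith, by linarith⟩
      · rintro ⟨⟨h1, h2⟩, h3, h4⟩
        rcases le_total (-(1 / 2)) x with h5 | h5
        · exact Or.inl ⟨⟨by linarith, by linarith⟩, by linarith, by linarith⟩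
        · exact Or.inr ⟨⟨by linarith, by linarith⟩, by linarith, by linarith⟩
    · refine ⟨-(1 / 2), 1 / 2, -(3 / 2), 1 / 2, by norm_num, by norm_num, ?_⟩
      ext ⟨x, y⟩
      rw [h, DiskSq_QQ (u := 0) (v := -1) (by simp [toV])]
      simp only [mem_prod, mem_Icc, abs_le]
      constructor
      · rintro (⟨⟨h1, h2⟩, h3, h4⟩ | ⟨⟨h1, h2⟩, h3, h4⟩)
        · exact ⟨⟨by linarith, by linarith⟩, by linarith, by linarith⟩
        · exact ⟨⟨by linarith, by linarith⟩, by linarith, by linarith⟩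
      · rintro ⟨⟨h1, h2⟩, h3, h4⟩
        rcases le_total (-(1 / 2)) y with h5 | h5
        · exact Or.inl ⟨⟨by linarith, by linarith⟩, by linarith, by linarith⟩
        · exact Or.inr ⟨⟨by linarith, by linarith⟩, by linarith, by linarith⟩
  obtain ⟨a, b, c, e, hab, hce, h⟩ := key
  rw [h]
  exact DiskSq_rect hab hce

end Pool.H3JG
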