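import Pool.Agent.Helper3.JG.Place

/-!
# Jigsaw tiles on a lattice: a homeomorphism restricted to an open set
-/

namespace Pool.H3JG

open Set

theorem restrict_homeo {X : Type*} [TopologicalSpace X] (β : X ≃ₜ X) {W : Set X} (hW : IsOpen W)
    (hm : β '' W = W) (hf : ∀ p ∈ frontier W, β p = p) :
    ∃ γ : X ≃ₜ X, (∀ p ∈ W, γ p = β p) ∧ ∀ p, p ∉ W → γ p = p := by
  classical
  have _ := hW
  have h1 : ∀ p ∈ W, β p ∈ W := fun p hp => hm ▸ mem_image_of_mem β hp
  have h2 : ∀ p ∈ W, β.symm p ∈ W := by
    intro p hp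
    rw [← hm] at hp
    obtain ⟨q, hq, rfl⟩ := hp
    rwa [Homeomorph.symm_apply_apply]
  have hf' : ∀ p ∈ frontier W, β.symm p = p := by
    intro p hp
    rw [Homeomorph.symm_apply_eq]
    exact (hf p hp).symm
  refine ⟨{ toFun := W.piecewise β id
            invFun := W.piecewise β.symm id
            left_inv := ?_
            right_inv := ?_
            continuous_toFun := ?_
            continuous_invFun := ?_ }, ?_, ?_⟩
  · intro p
    by_cases hp : p ∈ W
    · rw [piecewise_eq_of_mem _ _ _ hp, piecewise_eq_of_mem _ _ _ (h1 p hp),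
        Homeomorph.symm_apply_apply]
    · rw [piecewise_eq_of_notMem _ _ _ hp, id, piecewise_eq_of_notMem _ _ _ hp, id]
  · intro p
    by_cases hp : p ∈ W
    · rw [piecewise_eq_of_mem _ _ _ hp, piecewise_eq_of_mem _ _ _ (h2 p hp),
        Homeomorph.apply_symm_apply]
    · rw [piecewise_eq_of_notMem _ _ _ hp, id, piecewise_eq_of_notMem _ _ _ hp, id]
  · exact Continuous.piecewise (fun a ha => hf a ha) β.continuous continuous_id
  · exact Continuous.piecewise (fun a ha => hf' a ha) β.symm.continuous continuous_id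
  · intro p hp
    exact piecewise_eq_of_mem _ _ _ hp
  · intro p hp
    exact piecewise_eq_of_notMem _ _ _ hp

end Pool.H3JG
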