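import Pool.Agent.Helper3.JG.TileFit
import Pool.Agent.Helper3.JD.GlueH

/-!
# Jigsaw tiles on a lattice: the union of two neighbouring jigsaw tiles

Proof. Let `α := (pl 0 a) ∘ ψ ∘ (pl 0 a)⁻¹` and `β := (pl (dir d) b) ∘ ψ ∘ (pl (dir d) b)⁻¹`. By
`hQm`: `tile (ψ '' Q) 0 a = α '' Q` and `tile (ψ '' Q) (dir d) b = β '' (toV (dir d) + Q)`. `α` fixes
all points outside the cells `U e` and maps each `U e` onto itself (an injective map which fixes the
complement of the union and maps each cell into itself is onto each cell); `β` does the same with the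
cells `toV (dir d) + U e`. The cell `U d = toV (dir d) + U (d + h)` is shared; the other cells
`toV (dir d) + U e`, `e ≠ d + h`, are disjoint from all `U f` (by `Grid.sep` with `hUB`, `hinj` and
`hdisj`). Let `β'` be `β` on the cells `toV (dir d) + U e`, `e ≠ d + h`, and the identity elsewhere
(a homeomorphism by `restrict_homeo` in `GlueH.lean`: the identity on the frontier of the open set on
which it is `β`, because a frontier point is in no cell `toV (dir d) + U e`). Put `Ψ := β' ∘ α`. Check the claimed equality on each of the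
cells and outside: outside all cells `Ψ` is the identity and both sides agree; on `U e`, `e ≠ d`, use
`toV (dir d) + Q` and the second tile do not meet `U e`; on `toV (dir d) + U e`, `e ≠ d + h`,
similarly; on `U d` both sides contain everything (`hQU`, and `Fit` gives
`U d ⊆ A ∪ interior B`).
-/

namespace Pool.H3JG

open Set

variable {n : ℕ}

private theorem Glue_sepB (G : Grid n) {e : ZMod n} {p : V} (hp : p ∈ G.U e) {w : Z2}
    (h : p - toV w ∈ G.B) : w = 0 ∨ w = G.dir e := by
  refine G.sep (T := G.B) Subset.rfl hp (w := w) (a := (0, false)) ⟨p - toV w, h, ?_⟩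
  rw [G.pl_one]
  abel

private theorem Glue_matU (G : Grid n) (a : Lab n) {e : ZMod n} {p : V} (hp : p ∈ G.U e) :
    (G.mat a).ap p ∈ G.U (act a e) := by
  rw [← G.mat_U a e]
  exact mem_image_of_mem _ hp

private theorem Glue_conj (G : Grid n) {ψ : V ≃ₜ V} (h1 : ∀ p, (∀ e, p ∉ G.U e) → ψ p = p)
    (h2 : ∀ e, ∀ p ∈ G.U e, ψ p ∈ G.U e) {Q : Set V} (hQm : ∀ a, (G.mat a).ap '' Q = Q)
    (w : Z2) (a : Lab n) :
    ∃ β : V ≃ₜ V, (∀ p, (∀ e, p - toV w ∉ G.U e) → β p = p) ∧
      (∀ e, ∀ p, p - toV w ∈ G.U e → β p - toV w ∈ G.U e) ∧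
      ∀ p, β p ∈ G.tile (ψ '' Q) w a ↔ p - toV w ∈ Q := by
  have hpl : ∀ q : V, G.plH w a q = toV w + (G.mat a).ap q := fun q => rfl
  refine ⟨(G.plH w a).symm.trans (ψ.trans (G.plH w a)), ?_, ?_, ?_⟩
  · intro p hp
    obtain ⟨q, rfl⟩ := (G.plH w a).surjective p
    have h3 : ψ q = q := by
      apply h1
      intro e he
      apply hp (act a e)
      rw [hpl, add_sub_cancel_left]
      exact Glue_matU G a he
    show (G.plH w a) (ψ ((G.plH w a).symm ((G.plH w a) q))) = _
    rw [Homeomorph.symm_apply_apply, h3]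
  · intro e p hp
    obtain ⟨q, rfl⟩ := (G.plH w a).surjective p
    show (G.plH w a) (ψ ((G.plH w a).symm ((G.plH w a) q))) - toV w ∈ _
    rw [Homeomorph.symm_apply_apply, hpl, add_sub_cancel_left]
    rw [hpl, add_sub_cancel_left] at hp
    have h3 : q ∈ G.U (act (linv a) e) := by
      have h4 := Glue_matU G (linv a) hp
      rwa [G.ap_linv_ap] at h4
    have h5 := Glue_matU G a (h2 _ q h3)
    rwa [act_act_linv] at h5
  · intro p
    obtain ⟨q, rfl⟩ := (G.plH w a).surjective p
    show (G.plH w a) (ψ ((G.plH w a).symm ((G.plH w a) q))) ∈ (G.plH w a) '' (ψ '' Q) ↔ _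
    rw [Homeomorph.symm_apply_apply, hpl q, add_sub_cancel_left,
      (G.plH w a).injective.mem_set_image, ψ.injective.mem_set_image]
    constructor
    · intro hq
      rw [← hQm a]
      exact mem_image_of_mem _ hq
    · intro hq
      have h3 : (G.mat (linv a)).ap ((G.mat a).ap q) ∈ (G.mat (linv a)).ap '' Q :=
        mem_image_of_mem _ hq
      rwa [G.ap_linv_ap, hQm] at h3

theorem glue {G : Grid n} {ψ : V ≃ₜ V} (h1 : ∀ p, (∀ e, p ∉ G.U e) → ψ p = p)
    (h2 : ∀ e, ∀ p ∈ G.U e, ψ p ∈ G.U e) (hdisj : ∀ e f, e ≠ f → Disjoint (G.U e) (G.U f))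
    (hUB : ∀ e, G.U e ⊆ G.B) (hinj : Function.Injective G.dir)
    {Q : Set V} (hQB : Q ⊆ G.B) (hQm : ∀ a, (G.mat a).ap '' Q = Q)
    (hQU : ∀ d, G.U d ⊆ Q ∪ (fun p => toV (G.dir d) + p) '' Q)
    {a b : Lab n} {d : ZMod n} (hf : G.FitAt (ψ '' Q) d a b) :
    ∃ Ψ : V ≃ₜ V, Ψ '' (Q ∪ (fun p => toV (G.dir d) + p) '' Q)
      = G.tile (ψ '' Q) 0 a ∪ G.tile (ψ '' Q) (G.dir d) b := by
  obtain ⟨α, α1, α2, α3⟩ := Glue_conj G h1 h2 hQm 0 a
  obtain ⟨β, β1, β2, β3⟩ := Glue_conj G h1 h2 hQm (G.dir d) b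
  simp only [toV_zero, sub_zero] at α1 α2 α3
  have huniq : ∀ {e f : ZMod n} {p : V}, p ∈ G.U e → p ∈ G.U f → e = f := by
    intro e f p he hf
    by_contra hne
    exact disjoint_left.1 (hdisj e f hne) he hf
  -- the second tile contains `x` only if `x - toV (dir d)` is in the star
  have hTB : ψ '' Q ⊆ G.B := by
    rintro _ ⟨q, hq, rfl⟩
    by_cases h : ∃ e, q ∈ G.U e
    · obtain ⟨e, he⟩ := h
      exact hUB e (h2 e q he)
    · push Not at h
      rw [h1 q h]
      exact hQB hq
  have htB : ∀ (w : Z2) (c : Lab n) (x : V), x ∈ G.tile (ψ '' Q) w c → x - toV w ∈ G.B := by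
    rintro w c _ ⟨y, hy, rfl⟩
    show toV w + (G.mat c).ap y - toV w ∈ G.B
    rw [add_sub_cancel_left]
    exact G.B_inv c y (hTB hy)
  let W : Set V := {p | ∃ e, e ≠ d + G.h ∧ p - toV (G.dir d) ∈ G.U e}
  have hWo : IsOpen W := by
    have h3 : W = ⋃ e : {e : ZMod n // e ≠ d + G.h},
        (fun p : V => p - toV (G.dir d)) ⁻¹' G.U e := by
      ext p
      simp only [W, mem_setOf_eq, mem_iUnion, mem_preimage, Subtype.exists, exists_prop]
    rw [h3]
    exact isOpen_iUnion fun e => (G.isOpen_U e).preimage (by fun_prop)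
  have hWm : β '' W = W := by
    apply Subset.antisymm
    · rintro _ ⟨p, ⟨e, he, hp⟩, rfl⟩
      exact ⟨e, he, β2 e p hp⟩
    · rintro p ⟨e, he, hp⟩
      obtain ⟨q, rfl⟩ := β.surjective p
      by_cases h : ∃ f, q - toV (G.dir d) ∈ G.U f
      · obtain ⟨f, hf'⟩ := h
        have h3 := huniq (β2 f q hf') hp
        subst h3
        exact ⟨q, ⟨f, he, hf'⟩, rfl⟩
      · push Not at h
        rw [β1 q h] at hp
        exact absurd hp (h e)
  have hWf : ∀ p ∈ frontier W, β p = p := by
    intro p hp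
    rw [hWo.frontier_eq] at hp
    apply β1
    intro e he
    by_cases hne : e = d + G.h
    · have ho : IsOpen ((fun x : V => x - toV (G.dir d)) ⁻¹' G.U e) :=
        (G.isOpen_U e).preimage (by fun_prop)
      obtain ⟨q, hq1, f, hf1, hf2⟩ := mem_closure_iff.1 hp.1 _ ho he
      have h3 : e = f := huniq hq1 hf2
      exact hf1 (h3 ▸ hne)
    · exact hp.2 ⟨e, hne, he⟩
  obtain ⟨γ, γ1, γ2⟩ := restrict_homeo β hWo hWm hWf
  have F1 : ∀ e p, p ∈ G.U e → p ∉ W := by
    rintro e p hp ⟨f, hf1, hf2⟩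
    rcases Glue_sepB G hp (hUB f hf2) with h | h
    · exact G.dir_ne d h
    · have h3 : d = e := hinj h
      subst h3
      exact hf1 (huniq hf2 (G.sub_mem_U hp))
  have F2 : ∀ p ∈ W, p ∉ G.B := by
    rintro p ⟨e, he, hp⟩ hpB
    have h3 : p - toV (G.dir d) - toV (-(G.dir d)) ∈ G.B := by
      rw [toV_neg, sub_neg_eq_add, sub_add_cancel]
      exact hpB
    rcases Glue_sepB G hp h3 with h | h
    · exact G.dir_ne d (neg_eq_zero.1 h)
    · rw [← G.dir_h] at h
      exact he (hinj h).symm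
  have F3 : ∀ e p, e ≠ d → p ∈ G.U e → p - toV (G.dir d) ∉ G.B := by
    intro e p he hp hpB
    rcases Glue_sepB G hp hpB with h | h
    · exact G.dir_ne d h
    · exact he (hinj h).symm
  have hS : ∀ p, p ∈ (fun p => toV (G.dir d) + p) '' Q ↔ p - toV (G.dir d) ∈ Q := by
    intro p
    constructor
    · rintro ⟨q, hq, rfl⟩
      simpa using hq
    · intro hq
      exact ⟨_, hq, by simp⟩
  have key : ∀ p, γ (α p) ∈ G.tile (ψ '' Q) 0 a ∪ G.tile (ψ '' Q) (G.dir d) b ↔
      p ∈ Q ∪ (fun p => toV (G.dir d) + p) '' Q := by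
    intro p
    by_cases hp : ∃ e, p ∈ G.U e
    · obtain ⟨e, he⟩ := hp
      have h3 := α2 e p he
      rw [γ2 _ (F1 e _ h3)]
      by_cases hed : e = d
      · subst hed
        refine iff_of_true ?_ (hQU e he)
        by_cases h4 : α p ∈ G.tile (ψ '' Q) 0 a
        · exact Or.inl h4
        · have h5 : α p ∈ G.U e \ G.tile (ψ '' Q) 0 a := ⟨h3, h4⟩
          rw [← hf.1] at h5
          exact Or.inr (interior_subset h5.2)
      · have h4 : α p ∉ G.tile (ψ '' Q) (G.dir d) b := fun h => F3 e _ hed h3 (htB _ _ _ h)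
        have h5 : p ∉ (fun p => toV (G.dir d) + p) '' Q := by
          rw [hS]
          exact fun h => F3 e _ hed he (hQB h)
        simp only [mem_union, h4, h5, or_false]
        exact α3 p
    · push Not at hp
      rw [α1 p hp]
      by_cases hW : p ∈ W
      · rw [γ1 p hW]
        have h3 : β p ∈ W := by
          rw [← hWm]
          exact mem_image_of_mem _ hW
        have h4 : β p ∉ G.tile (ψ '' Q) 0 a := by
          intro h
          have h5 := htB _ _ _ h
          rw [toV_zero, sub_zero] at h5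
          exact F2 _ h3 h5
        have h5 : p ∉ Q := fun h => F2 p hW (hQB h)
        rw [mem_union, mem_union, hS]
        simp only [h4, h5, false_or]
        exact β3 p
      · rw [γ2 p hW, mem_union, mem_union, hS]
        have h3 : p ∈ G.tile (ψ '' Q) 0 a ↔ p ∈ Q := by
          have h4 := α3 p
          rwa [α1 p hp] at h4
        have h5 : p ∈ G.tile (ψ '' Q) (G.dir d) b ↔ p - toV (G.dir d) ∈ Q := by
          have h4 := β3 p
          rwa [β1 p] at h4
          intro e he
          by_cases hne : e = d + G.h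
          · subst hne
            rw [← G.sub_U] at he
            obtain ⟨q, hq, hqp⟩ := he
            have h6 : q = p := sub_left_injective hqp
            subst h6
            exact hp d hq
          · exact hW ⟨e, hne, he⟩
        rw [h3, h5]
  refine ⟨α.trans γ, ?_⟩
  ext z
  obtain ⟨p, rfl⟩ := (α.trans γ).surjective z
  rw [(α.trans γ).injective.mem_set_image]
  exact (key p).symm

end Pool.H3JG
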