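import Pool.Agent.Helper3.JD.AssembleD
import Pool.Agent.Helper3.JD.Glue

/-!
# Jigsaw tiles on a lattice: the statements in the Euclidean plane, for any realized grid
-/

namespace Pool.H3JG

open Set

variable {n : ℕ}

theorem euclidD_of_grid {G : Grid n} (re : Realiz G)
    (hadd : ∀ p q, re.F (p + q) = re.F p + re.F q)
    (Λ : Set E) (hΛ : Λ = range (fun z : Z2 => re.F (toV z)))
    (hlab : ∀ L : E ≃ₗᵢ[ℝ] E, (∀ w ∈ Λ, L w ∈ Λ) → ∃ a, ∀ p, L (re.F p) = re.F ((G.mat a).ap p))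
    (hstar : ∀ p : V, (∀ u ∈ Λ, ∀ w ∈ Λ, ‖re.F p - u‖ < ‖re.F p‖ → ‖re.F p - w‖ < ‖re.F p‖ →
      u = w) → p ∈ G.B)
    (hcore : ∀ T : Set V, closure (interior T) = T → IsPreconnected (interior T) → T ⊆ G.B →
      ∀ g, G.Tiles T g → GoodD G.h G.mat G.dir (G.rel T))
    {T : Set E} (hT : closure (interior T) = T) (hc : IsPreconnected (interior T))
    (hn : ∀ p ∈ T, ∀ u ∈ Λ, ∀ w ∈ Λ, ‖p - u‖ < ‖p‖ → ‖p - w‖ < ‖p‖ → u = w)
    (g : E → E ≃ₗᵢ[ℝ] E) (hg : ∀ u ∈ Λ, ∀ w ∈ Λ, g u w ∈ Λ)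
    (hcov : (⋃ u ∈ Λ, (fun x => u + g u x) '' T) = univ)
    (hdis : ∀ u ∈ Λ, ∀ w ∈ Λ, u ≠ w →
      Disjoint (interior ((fun x => u + g u x) '' T)) (interior ((fun x => w + g w x) '' T))) :
    ∃ g' : Z2 → Lab n, (∀ z d, G.FitAt (re.F ⁻¹' T) d (g' z) (g' (z + G.dir d))) ∧
      ∃ m : ℕ, 1 ≤ m ∧ m ≤ 2 ∧ ∃ d : ZMod n,
        IsRepeating T (fun i : Fin m => re.iso (rep G.dir d i) (g' (rep G.dir d i))) := by
  set T' : Set V := re.F ⁻¹' T with hT'
  have hFT : re.F '' T' = T := image_preimage_eq T re.F.surjective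
  have hreg : closure (interior T') = T' := by
    rw [hT', ← re.F.preimage_interior, ← re.F.preimage_closure, hT]
  have hcl : IsClosed T' := by
    rw [← hreg]
    exact isClosed_closure
  have hcon : IsPreconnected (interior T') := by
    rw [hT', ← re.F.preimage_interior, ← re.F.image_symm]
    exact hc.image _ re.F.symm.continuous.continuousOn
  have hB : T' ⊆ G.B := fun p hp => hstar p (hn (re.F p) hp)
  have hmem : ∀ z : Z2, re.F (toV z) ∈ Λ := fun z => by
    rw [hΛ]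
    exact ⟨z, rfl⟩
  have hex : ∀ z : Z2, ∃ b : Lab n, ∀ p, g (re.F (toV z)) (re.F p) = re.F ((G.mat b).ap p) :=
    fun z => hlab (g (re.F (toV z))) fun w hw => hg _ (hmem z) w hw
  choose g' hg' using hex
  have himg : ∀ z : Z2, (fun x => re.F (toV z) + g (re.F (toV z)) x) '' T =
      re.F '' G.tile T' z (g' z) := by
    intro z
    rw [← hFT]
    unfold Grid.tile
    rw [image_image, image_image]
    refine image_congr fun p _ => ?_
    rw [hg' z p, ← hadd]
    rfl
  have htiles : G.Tiles T' g' := by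
    constructor
    · intro p
      have h1 : re.F p ∈ (⋃ u ∈ Λ, (fun x => u + g u x) '' T) := by
        rw [hcov]
        exact mem_univ _
      rw [mem_iUnion₂] at h1
      obtain ⟨u, hu, h2⟩ := h1
      rw [hΛ] at hu
      obtain ⟨z, rfl⟩ := hu
      refine ⟨z, ?_⟩
      have h3 : re.F p ∈ re.F '' G.tile T' z (g' z) := by
        rw [← himg z]
        exact h2
      exact (re.F.injective.mem_set_image).1 h3
    · intro z w hzw
      have hne : re.F (toV z) ≠ re.F (toV w) := by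
        intro h
        have h1 := re.F.injective h
        apply hzw
        unfold toV at h1
        rw [Prod.mk.injEq] at h1
        exact Prod.ext (by exact_mod_cast h1.1) (by exact_mod_cast h1.2)
      have h2 := hdis _ (hmem z) _ (hmem w) hne
      rw [himg z, himg w, ← re.F.image_interior, ← re.F.image_interior,
        disjoint_image_iff re.F.injective] at h2
      exact h2
  obtain ⟨g2, hfit, m, hm1, hm2, d, hm⟩ :=
    repeating_of_good re hcl hB (hcore T' hreg hcon hB g' htiles)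
  rw [hFT] at hm
  exact ⟨g2, hfit, m, hm1, hm2, d, hm⟩

/-- The disk of a jigsaw tile and of its repeating unit. -/
theorem disk_of_jigsaw {G : Grid n} (re : Realiz G)
    (hadd : ∀ p q, re.F (p + q) = re.F p + re.F q)
    {Λ : Set E} (hΛ : Λ = range (fun z : Z2 => re.F (toV z)))
    {Q : Set V} (hvor : Vor Λ = re.F '' Q)
    (hcell2 : ∀ e, Cell Λ (re.F (toV (G.dir e))) = re.F '' G.U e)
    (hcell1 : ∀ w ∈ Λ, w ≠ 0 → Cell Λ w ⊆ ⋃ e, re.F '' G.U e)
    (hdisj : ∀ e f, e ≠ f → Disjoint (G.U e) (G.U f))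
    (hUB : ∀ e, G.U e ⊆ G.B) (hinj : Function.Injective G.dir)
    (hQB : Q ⊆ G.B) (hQm : ∀ a, (G.mat a).ap '' Q = Q)
    (hQU : ∀ d, G.U d ⊆ Q ∪ (fun p => toV (G.dir d) + p) '' Q)
    (hb1 : Nonempty (↥(re.F '' Q) ≃ₜ ↥(Metric.closedBall (0 : E) 1)))
    (hb2 : ∀ d, Nonempty (↥(re.F '' (Q ∪ (fun p => toV (G.dir d) + p) '' Q)) ≃ₜ
      ↥(Metric.closedBall (0 : E) 1)))
    {T : Set E} (hT : IsJigsaw Λ T) :
    Nonempty (↥T ≃ₜ ↥(Metric.closedBall (0 : E) 1)) ∧
    ∀ {g' : Z2 → Lab n}, (∀ z d, G.FitAt (re.F ⁻¹' T) d (g' z) (g' (z + G.dir d))) →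
    ∀ {m : ℕ}, 1 ≤ m → m ≤ 2 → ∀ d : ZMod n,
    Nonempty (↥(⋃ i : Fin m, re.iso (rep G.dir d i) (g' (rep G.dir d i)) '' T) ≃ₜ
      ↥(Metric.closedBall (0 : E) 1)) := by
  obtain ⟨ψ, h1, h2, hTe⟩ := hT
  obtain ⟨b1⟩ := hb1
  have bT : Nonempty (↥T ≃ₜ ↥(Metric.closedBall (0 : E) 1)) := by
    rw [hTe, hvor]
    exact ⟨(ψ.image _).symm.trans b1⟩
  refine ⟨bT, ?_⟩
  obtain ⟨bT⟩ := bT
  intro g' hfit m hm1 hm2 d
  have hm : m = 1 ∨ m = 2 := by omega
  rcases hm with rfl | rfl
  · have he : (⋃ i : Fin 1, re.iso (rep G.dir d i) (g' (rep G.dir d i)) '' T)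
        = (re.iso 0 (g' 0)).toHomeomorph '' T := by
      ext x
      simp only [mem_iUnion]
      constructor
      · rintro ⟨i, hi⟩
        rw [Subsingleton.elim i 0] at hi
        exact hi
      · intro hx
        exact ⟨0, hx⟩
    rw [he]
    exact ⟨((re.iso 0 (g' 0)).toHomeomorph.image T).symm.trans bT⟩
  · set T' : Set V := re.F ⁻¹' T with hT'
    have hFT : re.F '' T' = T := image_preimage_eq T re.F.surjective
    let ψ' : V ≃ₜ V := re.F.trans (ψ.trans re.F.symm)
    have hψ' : ∀ p, re.F (ψ' p) = ψ (re.F p) := fun p => re.F.apply_symm_apply _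
    have hTψ : T' = ψ' '' Q := by
      apply re.F.injective.image_injective
      show re.F '' T' = re.F '' (ψ' '' Q)
      rw [hFT, hTe, hvor, image_image, image_image]
      exact image_congr fun p _ => (hψ' p).symm
    have hF0 : re.F 0 = 0 := by
      have := hadd 0 0
      rw [add_zero] at this
      exact left_eq_add.1 this
    have hne : ∀ e, re.F (toV (G.dir e)) ≠ 0 := by
      intro e h
      rw [← hF0] at h
      have h3 := re.F.injective h
      apply G.dir_ne e
      unfold toV at h3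
      rw [Prod.mk_eq_zero] at h3
      exact Prod.ext (by exact_mod_cast h3.1) (by exact_mod_cast h3.2)
    have hmem : ∀ z : Z2, re.F (toV z) ∈ Λ := fun z => by
      rw [hΛ]
      exact ⟨z, rfl⟩
    have k1 : ∀ p, (∀ e, p ∉ G.U e) → ψ' p = p := by
      intro p hp
      apply re.F.injective
      rw [hψ']
      apply h1
      intro w hw hw0 hc
      obtain ⟨e, q, hq, hqp⟩ := mem_iUnion.1 (hcell1 w hw hw0 hc)
      rw [re.F.injective hqp] at hq
      exact hp e hq
    have k2 : ∀ e, ∀ p ∈ G.U e, ψ' p ∈ G.U e := by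
      intro e p hp
      have h3 : re.F p ∈ Cell Λ (re.F (toV (G.dir e))) := by
        rw [hcell2 e]
        exact ⟨p, hp, rfl⟩
      have h4 := h2 _ (hmem _) (hne e) _ h3
      rw [hcell2 e, ← hψ'] at h4
      exact re.F.injective.mem_set_image.1 h4
    have hf := hfit 0 d
    rw [hTψ, zero_add] at hf
    obtain ⟨Ψ, hΨ⟩ := glue k1 k2 hdisj hUB hinj hQB hQm hQU hf
    obtain ⟨b2⟩ := hb2 d
    have himg : ∀ z (a : Lab n), re.iso z a '' T = re.F '' G.tile (ψ' '' Q) z a := by
      intro z a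
      rw [← hTψ, ← hFT]
      unfold Grid.tile
      rw [image_image, image_image]
      exact image_congr fun p _ => re.iso_F z a p
    have he : (⋃ i : Fin 2, re.iso (rep G.dir d i) (g' (rep G.dir d i)) '' T)
        = (re.F.symm.trans (Ψ.trans re.F)) '' (re.F '' (Q ∪ (fun p => toV (G.dir d) + p) '' Q)) := by
      have h3 : (re.F.symm.trans (Ψ.trans re.F)) ''
          (re.F '' (Q ∪ (fun p => toV (G.dir d) + p) '' Q))
          = re.F '' (Ψ '' (Q ∪ (fun p => toV (G.dir d) + p) '' Q)) := by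
        rw [image_image, image_image]
        refine image_congr fun p _ => ?_
        show re.F (Ψ (re.F.symm (re.F p))) = re.F (Ψ p)
        rw [re.F.symm_apply_apply]
      rw [h3, hΨ, image_union, ← himg, ← himg]
      ext x
      simp only [mem_iUnion, mem_union]
      constructor
      · rintro ⟨i, hi⟩
        fin_cases i
        · exact Or.inl hi
        · exact Or.inr hi
      · rintro (hx | hx)
        · exact ⟨0, hx⟩
        · exact ⟨1, hx⟩
    rw [he]
    exact ⟨((re.F.symm.trans (Ψ.trans re.F)).image _).symm.trans b2⟩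

/-- A jigsaw tile satisfies the conditions of the general statement. -/
theorem reg_of_jigsaw {Λ T : Set E} (hj : IsJigsaw Λ T) (h1 : ∀ u ∈ Λ, u ≠ 0 → 1 ≤ ‖u‖) :
    closure (interior T) = T ∧ IsPreconnected (interior T) ∧
    ∀ p ∈ T, ∀ u ∈ Λ, ∀ w ∈ Λ, ‖p - u‖ < ‖p‖ → ‖p - w‖ < ‖p‖ → u = w := by
  have hhalf : ∀ u p : E, ‖p‖ ≤ ‖p - u‖ ↔ 2 * inner ℝ u p ≤ ‖u‖ ^ 2 := by
    intro u p
    rw [← sq_le_sq₀ (norm_nonneg _) (norm_nonneg _), norm_sub_sq_real, real_inner_comm]
    constructor <;> intro h <;> linarith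
  have hVeq : Vor Λ = ⋂ u ∈ Λ, {p | 2 * inner ℝ u p ≤ ‖u‖ ^ 2} := by
    ext p
    simp only [Vor, mem_ofPred_eq, mem_iInter, hhalf]
  have hcl : IsClosed (Vor Λ) := by
    rw [hVeq]
    refine isClosed_biInter fun u _ => ?_
    exact isClosed_le (by fun_prop) continuous_const
  have hcv : Convex ℝ (Vor Λ) := by
    rw [hVeq]
    refine convex_iInter₂ fun u _ => ?_
    intro p hp q hq a b ha hb hab
    simp only [mem_ofPred_eq] at hp hq ⊢
    rw [inner_add_right, inner_smul_right, inner_smul_right]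
    have hb' : b = 1 - a := by linarith
    subst hb'
    nlinarith
  have hne : (interior (Vor Λ)).Nonempty := by
    refine ⟨0, mem_interior.2 ⟨Metric.ball 0 (1 / 2), ?_, Metric.isOpen_ball, by simp⟩⟩
    intro p hp u hu
    rw [mem_ball_zero_iff] at hp
    by_cases h0 : u = 0
    · rw [h0, sub_zero]
    · have h3 := h1 u hu h0
      have h4 : ‖u‖ ≤ ‖p - u‖ + ‖p‖ := by
        have := norm_sub_le (p : E) (p - u)
        rw [sub_sub_cancel] at this
        linarith
      linarith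
  obtain ⟨ψ, k1, k2, rfl⟩ := hj
  refine ⟨?_, ?_, ?_⟩
  · rw [← ψ.image_interior, ← ψ.image_closure,
      hcv.closure_interior_eq_closure_of_nonempty_interior hne, hcl.closure_eq]
  · rw [← ψ.image_interior]
    exact hcv.interior.isPreconnected.image _ ψ.continuous.continuousOn
  · rintro _ ⟨q, hq, rfl⟩ u hu w hw hpu hpw
    by_cases h : ∃ v ∈ Λ, v ≠ 0 ∧ q ∈ Cell Λ v
    · obtain ⟨v, hv, hv0, hqv⟩ := h
      have h3 := k2 v hv hv0 q hqv
      have key : ∀ u ∈ Λ, ‖ψ q - u‖ < ‖ψ q‖ → u = v := by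
        intro u hu hlt
        by_contra hne
        have hu0 : u ≠ 0 := by
          rintro rfl
          rw [sub_zero] at hlt
          exact lt_irrefl _ hlt
        exact lt_asymm hlt (h3 u hu hu0 hne).1
      rw [key u hu hpu, key w hw hpw]
    · push Not at h
      rw [k1 q h] at hpu
      exact absurd (hq u hu) (not_le.2 hpu)

end Pool.H3JG
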