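import Pool.Agent.Helper3.JD.EuclidD
import Pool.Agent.Helper3.JD.CoreSqD
import Pool.Agent.Helper3.JD.CoreHexD
import Pool.Agent.Helper3.JD.DiskSq
import Pool.Agent.Helper3.JD.DiskHex2
import Pool.Agent.Helper3.JD.CellSq1
import Pool.Agent.Helper3.JD.CellHex1
import Pool.Agent.Helper3.JG.RealSq
import Pool.Agent.Helper3.JG.RealHex
import Pool.Agent.Helper3.JG.Straight

/-!
# Jigsaw tiles on a lattice: the final statement, with disk-shaped repeating units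
-/

namespace Pool.H3JG

open Set

theorem coreD_of_tiles {n : ℕ} {G : Grid n} {T : Set V} (hT : closure (interior T) = T)
    (hB : T ⊆ G.B) {g : Z2 → Lab n} (ht : G.Tiles T g) :
    ∀ z d, Con G.h (G.rel T) d (g z) (g (z + G.dir d)) := fun z d =>
  (G.fitAt_iff T d _ _).1 (G.fitAt_of_tiles hT hB ht z d)

/-- The square lattice. -/
def SquareLattice : Set E := {p | ∃ a b : ℤ, p = !₂[(a : ℝ), (b : ℝ)]}

/-- The hexagonal lattice. -/
def HexagonalLattice : Set E :=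
  {p | ∃ a b : ℤ, p = !₂[(a : ℝ) + (b : ℝ) / 2, Real.sqrt 3 / 2 * (b : ℝ)]}

theorem squareLattice_eq : SquareLattice = range (fun z : Z2 => sqF (toV z)) := by
  ext p
  constructor
  · rintro ⟨a, b, rfl⟩
    exact ⟨(a, b), rfl⟩
  · rintro ⟨z, rfl⟩
    exact ⟨z.1, z.2, rfl⟩

theorem hexagonalLattice_eq : HexagonalLattice = range (fun z : Z2 => hexF (toV z)) := by
  ext p
  constructor
  · rintro ⟨a, b, rfl⟩
    exact ⟨(a, b), rfl⟩
  · rintro ⟨z, rfl⟩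
    exact ⟨z.1, z.2, rfl⟩

theorem one_le_norm_sq {u : E} (hu : u ∈ SquareLattice) (h0 : u ≠ 0) : 1 ≤ ‖u‖ := by
  obtain ⟨a, b, rfl⟩ := hu
  rw [EuclideanSpace.norm_eq, Real.one_le_sqrt, Fin.sum_univ_two]
  simp only [Real.norm_eq_abs, sq_abs]
  show (1 : ℝ) ≤ (a : ℝ) ^ 2 + (b : ℝ) ^ 2
  have h : 1 ≤ a ^ 2 + b ^ 2 := by
    by_contra hlt
    have ha : a = 0 := by nlinarith [sq_nonneg a, sq_nonneg b]
    have hb : b = 0 := by nlinarith [sq_nonneg a, sq_nonneg b]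
    apply h0
    rw [ha, hb]
    ext i
    fin_cases i <;> simp
  exact_mod_cast h

theorem one_le_norm_hex {u : E} (hu : u ∈ HexagonalLattice) (h0 : u ≠ 0) : 1 ≤ ‖u‖ := by
  obtain ⟨a, b, rfl⟩ := hu
  rw [EuclideanSpace.norm_eq, Real.one_le_sqrt, Fin.sum_univ_two]
  simp only [Real.norm_eq_abs, sq_abs]
  show (1 : ℝ) ≤ ((a : ℝ) + (b : ℝ) / 2) ^ 2 + (Real.sqrt 3 / 2 * (b : ℝ)) ^ 2
  have h3 : Real.sqrt 3 ^ 2 = 3 := Real.sq_sqrt (by norm_num)
  have he : ((a : ℝ) + (b : ℝ) / 2) ^ 2 + (Real.sqrt 3 / 2 * (b : ℝ)) ^ 2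
      = (a : ℝ) ^ 2 + (a : ℝ) * b + (b : ℝ) ^ 2 := by
    rw [mul_pow, div_pow, h3]
    ring
  rw [he]
  have h : 1 ≤ a ^ 2 + a * b + b ^ 2 := by
    by_contra hlt
    have hlt' : a ^ 2 + a * b + b ^ 2 ≤ 0 := by omega
    have hb : b ^ 2 ≤ 0 := by nlinarith [sq_nonneg (2 * a + b)]
    have ha : a ^ 2 ≤ 0 := by nlinarith [sq_nonneg (a + 2 * b)]
    have ha' : a = 0 := by
      have := sq_nonneg a
      exact pow_eq_zero_iff (two_ne_zero) |>.1 (le_antisymm ha this)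
    have hb' : b = 0 := by
      have := sq_nonneg b
      exact pow_eq_zero_iff (two_ne_zero) |>.1 (le_antisymm hb this)
    apply h0
    rw [ha', hb']
    ext i
    fin_cases i <;> simp
  exact_mod_cast h

theorem sqDir_inj : Function.Injective sqDir := by decide

theorem hexDir_inj : Function.Injective hexDir := by decide

theorem finalD_sq {T : Set E} (hT : closure (interior T) = T) (hc : IsPreconnected (interior T))
    (hn : ∀ p ∈ T, ∀ u ∈ SquareLattice, ∀ w ∈ SquareLattice, ‖p - u‖ < ‖p‖ → ‖p - w‖ < ‖p‖ →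
      u = w)
    (g : E → E ≃ₗᵢ[ℝ] E) (hg : ∀ u ∈ SquareLattice, ∀ w ∈ SquareLattice, g u w ∈ SquareLattice)
    (hcov : (⋃ u ∈ SquareLattice, (fun x => u + g u x) '' T) = univ)
    (hdis : ∀ u ∈ SquareLattice, ∀ w ∈ SquareLattice, u ≠ w →
      Disjoint (interior ((fun x => u + g u x) '' T)) (interior ((fun x => w + g w x) '' T))) :
    ∃ m : ℕ, 1 ≤ m ∧ m ≤ 2 ∧ ∃ a : Fin m → (E ≃ᵢ E), IsRepeating T a ∧
      (IsJigsaw SquareLattice T → Nonempty (↥T ≃ₜ ↥(Metric.closedBall (0 : E) 1)) ∧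
        Nonempty (↥(⋃ i, a i '' T) ≃ₜ ↥(Metric.closedBall (0 : E) 1))) := by
  have hΛ := squareLattice_eq
  obtain ⟨re, hre⟩ := exists_realSq
  have hre' : (re.F : V → E) = sqF := funext hre
  have hadd : ∀ p q, re.F (p + q) = re.F p + re.F q := fun p q => by
    simp only [hre]
    exact sqF_add p q
  obtain ⟨g2, hfit, m, hm1, hm2, d, hm⟩ := euclidD_of_grid re hadd SquareLattice
    (by rw [hΛ]; simp only [hre]) (fun L hL => by
      rw [hΛ] at hL
      obtain ⟨a, ha⟩ := sq_label L hL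
      exact ⟨a, fun p => by simp only [hre]; exact ha p⟩)
    (fun p hp => by
      simp only [hre, hΛ] at hp
      exact sq_star p hp)
    (fun T' hT' _ hB' g' ht' => core_sqD (gridSq.rel_closed T') (coreD_of_tiles hT' hB' ht'))
    hT hc hn g hg hcov hdis
  refine ⟨m, hm1, hm2, _, hm, fun hj => ?_⟩
  have h := disk_of_jigsaw re hadd (Λ := SquareLattice) (by rw [hΛ]; simp only [hre])
    (Q := sqQ) (by rw [hΛ, sq_vor, hre']) (fun e => by
      rw [hΛ]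
      simp only [hre]
      exact sq_cell2 e)
    (fun w hw h0 => by
      rw [hΛ] at hw ⊢
      rw [hre']
      exact sq_cell1 hw h0)
    sqU_disj sqU_B sqDir_inj sqQ_B sqQ_mat sqQ_U (by rw [hre']; exact sqQ_ball)
    (fun d => by rw [hre']; exact sqQQ_ball d) hj
  exact ⟨h.1, h.2 hfit hm1 hm2 d⟩

theorem finalD_hex {T : Set E} (hT : closure (interior T) = T) (hc : IsPreconnected (interior T))
    (hn : ∀ p ∈ T, ∀ u ∈ HexagonalLattice, ∀ w ∈ HexagonalLattice, ‖p - u‖ < ‖p‖ →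
      ‖p - w‖ < ‖p‖ → u = w)
    (g : E → E ≃ₗᵢ[ℝ] E)
    (hg : ∀ u ∈ HexagonalLattice, ∀ w ∈ HexagonalLattice, g u w ∈ HexagonalLattice)
    (hcov : (⋃ u ∈ HexagonalLattice, (fun x => u + g u x) '' T) = univ)
    (hdis : ∀ u ∈ HexagonalLattice, ∀ w ∈ HexagonalLattice, u ≠ w →
      Disjoint (interior ((fun x => u + g u x) '' T)) (interior ((fun x => w + g w x) '' T))) :
    ∃ m : ℕ, 1 ≤ m ∧ m ≤ 2 ∧ ∃ a : Fin m → (E ≃ᵢ E), IsRepeating T a ∧
      (IsJigsaw HexagonalLattice T → Nonempty (↥T ≃ₜ ↥(Metric.closedBall (0 : E) 1)) ∧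
        Nonempty (↥(⋃ i, a i '' T) ≃ₜ ↥(Metric.closedBall (0 : E) 1))) := by
  have hΛ := hexagonalLattice_eq
  obtain ⟨re, hre⟩ := exists_realHex
  have hre' : (re.F : V → E) = hexF := funext hre
  have hadd : ∀ p q, re.F (p + q) = re.F p + re.F q := fun p q => by
    simp only [hre]
    exact hexF_add p q
  obtain ⟨g2, hfit, m, hm1, hm2, d, hm⟩ := euclidD_of_grid re hadd HexagonalLattice
    (by rw [hΛ]; simp only [hre]) (fun L hL => by
      rw [hΛ] at hL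
      obtain ⟨a, ha⟩ := hex_label L hL
      exact ⟨a, fun p => by simp only [hre]; exact ha p⟩)
    (fun p hp => by
      simp only [hre, hΛ] at hp
      exact hex_star p hp)
    (fun T' hT' hc' hB' g' ht' => core_hexD (gridHex.rel_closed T')
      (straight_hex hT' hc' hB' ht') (coreD_of_tiles hT' hB' ht'))
    hT hc hn g hg hcov hdis
  refine ⟨m, hm1, hm2, _, hm, fun hj => ?_⟩
  have h := disk_of_jigsaw re hadd (Λ := HexagonalLattice) (by rw [hΛ]; simp only [hre])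
    (Q := hexQ) (by rw [hΛ, hex_vor, hre']) (fun e => by
      rw [hΛ]
      simp only [hre]
      exact hex_cell2 e)
    (fun w hw h0 => by
      rw [hΛ] at hw ⊢
      rw [hre']
      exact hex_cell1 hw h0)
    hexU_disj hexU_B hexDir_inj hexQ_B hexQ_mat hexQ_U (by rw [hre']; exact hexQ_ball)
    (fun d => by rw [hre']; exact hexQQ_ball d) hj
  exact ⟨h.1, h.2 hfit hm1 hm2 d⟩

theorem finalD (Λ : Set E) (hΛ : Λ = SquareLattice ∨ Λ = HexagonalLattice)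
    {T : Set E} (hT : closure (interior T) = T) (hc : IsPreconnected (interior T))
    (hn : ∀ p ∈ T, ∀ u ∈ Λ, ∀ w ∈ Λ, ‖p - u‖ < ‖p‖ → ‖p - w‖ < ‖p‖ → u = w)
    (g : E → E ≃ₗᵢ[ℝ] E) (hg : ∀ u ∈ Λ, ∀ w ∈ Λ, g u w ∈ Λ)
    (hcov : (⋃ u ∈ Λ, (fun x => u + g u x) '' T) = univ)
    (hdis : ∀ u ∈ Λ, ∀ w ∈ Λ, u ≠ w →
      Disjoint (interior ((fun x => u + g u x) '' T)) (interior ((fun x => w + g w x) '' T))) :
    ∃ m : ℕ, 1 ≤ m ∧ m ≤ 2 ∧ ∃ a : Fin m → (E ≃ᵢ E), IsRepeating T a ∧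
      (IsJigsaw Λ T → Nonempty (↥T ≃ₜ ↥(Metric.closedBall (0 : E) 1)) ∧
        Nonempty (↥(⋃ i, a i '' T) ≃ₜ ↥(Metric.closedBall (0 : E) 1))) := by
  rcases hΛ with rfl | rfl
  · exact finalD_sq hT hc hn g hg hcov hdis
  · exact finalD_hex hT hc hn g hg hcov hdis

theorem norm_ge_of_lattice (Λ : Set E) (hΛ : Λ = SquareLattice ∨ Λ = HexagonalLattice) :
    ∀ u ∈ Λ, u ≠ 0 → 1 ≤ ‖u‖ := by
  rcases hΛ with rfl | rfl
  · exact fun u hu h0 => one_le_norm_sq hu h0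
  · exact fun u hu h0 => one_le_norm_hex hu h0

end Pool.H3JG
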