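import Pool.Agent.Helper3.JG.Tmpl
import Pool.Agent.Helper3.JG.Root
import Pool.Agent.Helper3.JD.DefsD

/-!
# Jigsaw tiles on a lattice: periodic labellings given by tables, neighbouring representatives
-/

namespace Pool.H3JG

variable {n : ℕ}

section Good

variable [NeZero n] (h : ZMod n) (mat : Lab n → Mat) (dir : ZMod n → Z2)
  (R : ZMod n → ZMod n → Bool → Prop) (N : ℕ) [NeZero N] (tab : ZMod N → ZMod N → Lab n)

theorem goodD_of_tab1 {mask : ℕ}
    (hc : ValT h dir N tab mask ∧ ∀ x y : ZMod N, Mv mat N tab 0 x y)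
    (hR : ∀ b, mask.testBit b = true → Rb R b) : GoodD h mat dir R := by
  refine ⟨gT N tab, con_of_valT h dir R N tab hc.1 hR, 1, le_refl _, by omega, 0, ?_, ?_⟩
  · intro w
    obtain ⟨z, a, h1, h2⟩ := exists_of_mv mat N tab (hc.2 (w.1 : ZMod N) (w.2 : ZMod N))
    exact ⟨z, a, 0, h1, h2⟩
  · intro i j _ _ _ _
    exact Subsingleton.elim i j

theorem goodD_of_tab2 {mask : ℕ} (d : ZMod n)
    (hc : ValT h dir N tab mask ∧ (∀ x y : ZMod N, Mv mat N tab 0 x y ∨ Mv mat N tab (dir d) x y) ∧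
      ¬ Mv mat N tab 0 ((dir d).1 : ZMod N) ((dir d).2 : ZMod N) ∧
      ¬ Mv mat N tab (dir d) ((0 : Z2).1 : ZMod N) ((0 : Z2).2 : ZMod N))
    (hR : ∀ b, mask.testBit b = true → Rb R b) : GoodD h mat dir R := by
  refine ⟨gT N tab, con_of_valT h dir R N tab hc.1 hR, 2, by omega, le_refl _, d, ?_, ?_⟩
  · intro w
    rcases hc.2.1 (w.1 : ZMod N) (w.2 : ZMod N) with h1 | h1
    · obtain ⟨z, a, h2, h3⟩ := exists_of_mv mat N tab h1
      exact ⟨z, a, 0, h2, h3⟩
    · obtain ⟨z, a, h2, h3⟩ := exists_of_mv mat N tab h1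
      exact ⟨z, a, 1, h2, h3⟩
  · intro i j z a hs hz
    fin_cases i <;> fin_cases j
    · rfl
    · exact absurd (mv_of_exists mat N tab hs hz) hc.2.2.1
    · exact absurd (mv_of_exists mat N tab hs hz) hc.2.2.2
    · rfl

end Good

/-- A good relabelled relation comes from a good relation. -/
theorem goodD_of_relab {h : ZMod n} {mat : Lab n → Mat} {dir : ZMod n → Z2} {c : Lab n}
    {R : ZMod n → ZMod n → Bool → Prop} (hg : GoodD h mat dir (relab c R)) :
    GoodD h mat dir R := by
  obtain ⟨g, h1, m, hm1, hm2, cc, h2, h3⟩ := hg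
  have key : ∀ z a, IsSymR mat (fun w => lmul (g w) (linv c)) z a ↔ IsSymR mat g z a := by
    intro z a
    constructor
    · intro hs w
      have := hs w
      have h4 : lmul (lmul (g (mvR mat z a w)) (linv c)) c
          = lmul (lmul a (lmul (g w) (linv c))) c := by
        show lmul ((fun w => lmul (g w) (linv c)) (mvR mat z a w)) c = _
        rw [this]
      rw [lmul_assoc', linv_lmul, lmul_one, lmul_assoc', lmul_assoc', linv_lmul, lmul_one] at h4
      exact h4
    · intro hs w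
      show lmul (g (mvR mat z a w)) (linv c) = lmul a (lmul (g w) (linv c))
      rw [hs w, lmul_assoc']
  refine ⟨fun w => lmul (g w) (linv c), ?_, m, hm1, hm2, cc, ?_, ?_⟩
  · intro z d
    rw [← con_relab (c := c) (R := R)]
    show Con h (relab c R) d (lmul (lmul (g z) (linv c)) c)
      (lmul (lmul (g (z + dir d)) (linv c)) c)
    rw [lmul_assoc', linv_lmul, lmul_one, lmul_assoc', linv_lmul, lmul_one]
    exact h1 z d
  · intro w
    obtain ⟨z, a, i, h4, h5⟩ := h2 w
    exact ⟨z, a, i, (key z a).2 h4, h5⟩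
  · intro i j z a hs hz
    exact h3 i j z a ((key z a).1 hs) hz

end Pool.H3JG
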